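import Mathlib

/-!
# Heilbronn functions on finite groups

A Heilbronn function on a finite group is a class function having a nonnegative integer
multiplicity against every linear character of every subgroup.
-/

set_option autoImplicit false

namespace Pool.Agent.H302R2

open scoped BigOperators

/-- A class function `θ` on a (finite) group such that for every subgroup `H` and every linear
character `χ` of `H`, the multiplicity of `χ` in the restriction of `θ` to `H` is a nonnegative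
integer. -/
structure IsHeilbronn {G : Type*} [Group G] (θ : G → ℂ) : Prop where
  conj : ∀ g h : G, θ (h * g * h⁻¹) = θ g
  mult : ∀ (H : Subgroup G) (χ : H →* ℂˣ), ∃ n : ℕ,
    ∑ᶠ h : H, θ h * (((χ h)⁻¹ : ℂˣ) : ℂ) = (n : ℂ) * (Nat.card H : ℂ)

section basics

variable {G : Type*} [Group G] [Finite G] {θ : G → ℂ}

/-- sum over a group of a function pulled back along a surjective homomorphism -/
lemma sum_comp_surj {E H : Type*} [Group E] [Fintype E] [Group H] [Fintype H]
    (π : E →* H) (hπ : Function.Surjective π) (f : H → ℂ) :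
    ∑ e : E, f (π e) = (Nat.card π.ker : ℂ) * ∑ h : H, f h := by
  classical
  rw [Finset.mul_sum, ← Finset.sum_fiberwise_of_maps_to (s := Finset.univ) (t := Finset.univ)
    (g := fun e => π e) (fun _ _ => Finset.mem_univ _)]
  refine Finset.sum_congr rfl fun h _ => ?_
  rw [Finset.sum_congr rfl (g := fun _ => f h)
    (fun e he => by rw [(Finset.mem_filter.mp he).2]), Finset.sum_const, nsmul_eq_mul]
  congr 1
  obtain ⟨e₀, he₀⟩ := hπ h
  have : Nat.card π.ker = (Finset.univ.filter (fun e => π e = h)).card := by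
    rw [← Fintype.card_subtype, ← Nat.card_eq_fintype_card]
    · refine Nat.card_congr (Equiv.mk (fun k => ⟨e₀ * k.1, ?_⟩) (fun e => ⟨e₀⁻¹ * e.1, ?_⟩) ?_ ?_)
      · simp [he₀, MonoidHom.mem_ker.mp k.2]
      · have := e.2
        simp [MonoidHom.mem_ker, he₀, this]
      · intro k; simp
      · intro e; simp
  rw [this]

/-- the multiplicity property along arbitrary homomorphisms -/
lemma IsHeilbronn.mult_hom (hθ : IsHeilbronn θ) {E : Type*} [Group E] [Fintype E]
    (φ : E →* G) (χ : E →* ℂˣ) :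
    ∃ n : ℕ, ∑ e : E, θ (φ e) * (((χ e)⁻¹ : ℂˣ) : ℂ) = (n : ℂ) * (Nat.card E : ℂ) := by
  classical
  by_cases hker : ∀ k ∈ φ.ker, χ k = 1
  · -- descend
    have : Fintype φ.range := Fintype.ofFinite _
    let χ' : φ.range →* ℂˣ :=
      (QuotientGroup.lift φ.ker χ hker).comp
        (QuotientGroup.quotientKerEquivRange φ).symm.toMonoidHom
    have hχ' : ∀ e : E, χ' (φ.rangeRestrict e) = χ e := by
      intro e
      have : (QuotientGroup.quotientKerEquivRange φ).symm (φ.rangeRestrict e)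
          = (QuotientGroup.mk e : E ⧸ φ.ker) := by
        rw [MulEquiv.symm_apply_eq]; rfl
      simp only [χ', MonoidHom.coe_comp, MulEquiv.coe_toMonoidHom, Function.comp_apply, this]
      rfl
    obtain ⟨n, hn⟩ := hθ.mult φ.range χ'
    refine ⟨n, ?_⟩
    rw [finsum_eq_sum_of_fintype] at hn
    have h1 := sum_comp_surj φ.rangeRestrict φ.rangeRestrict_surjective
      (fun h : φ.range => θ h * (((χ' h)⁻¹ : ℂˣ) : ℂ))
    simp only [hχ', MonoidHom.coe_rangeRestrict] at h1
    rw [h1, hn, MonoidHom.ker_rangeRestrict]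
    have h2 : Nat.card E = Nat.card φ.ker * Nat.card φ.range := by
      rw [← Nat.card_congr (QuotientGroup.quotientKerEquivRange φ).toEquiv, mul_comm]
      exact Subgroup.card_eq_card_quotient_mul_card_subgroup _
    rw [h2]; push_cast; ring
  · push Not at hker
    obtain ⟨k, hk, hχk⟩ := hker
    refine ⟨0, ?_⟩
    have h1 : ∑ e : E, θ (φ e) * (((χ e)⁻¹ : ℂˣ) : ℂ)
        = ∑ e : E, θ (φ (e * k)) * (((χ (e * k))⁻¹ : ℂˣ) : ℂ) :=
      (Equiv.sum_comp (Equiv.mulRight k)
        (fun e => θ (φ e) * (((χ e)⁻¹ : ℂˣ) : ℂ))).symm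
    have h2 : ∑ e : E, θ (φ (e * k)) * (((χ (e * k))⁻¹ : ℂˣ) : ℂ)
        = (((χ k)⁻¹ : ℂˣ) : ℂ) * ∑ e : E, θ (φ e) * (((χ e)⁻¹ : ℂˣ) : ℂ) := by
      rw [Finset.mul_sum]
      refine Finset.sum_congr rfl fun e _ => ?_
      rw [map_mul, map_mul, MonoidHom.mem_ker.mp hk, mul_one, mul_inv_rev]
      push_cast; ring
    have h3 : (((χ k)⁻¹ : ℂˣ) : ℂ) ≠ 1 := by
      intro h
      apply hχk
      rw [← inv_eq_one, ← Units.val_eq_one]; exact h
    have h4 : (1 - (((χ k)⁻¹ : ℂˣ) : ℂ)) * ∑ e : E, θ (φ e) * (((χ e)⁻¹ : ℂˣ) : ℂ) = 0 := by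
      rw [sub_mul, one_mul, ← h2, ← h1, sub_self]
    rcases mul_eq_zero.mp h4 with h5 | h5
    · exact absurd (sub_eq_zero.mp h5).symm h3
    · rw [h5]; simp

/-- Heilbronn functions pull back along homomorphisms. -/
lemma IsHeilbronn.comp (hθ : IsHeilbronn θ) {E : Type*} [Group E] [Finite E] (φ : E →* G) :
    IsHeilbronn (fun e => θ (φ e)) where
  conj g h := by simp only [map_mul, map_inv]; exact hθ.conj _ _
  mult H χ := by
    have : Fintype H := Fintype.ofFinite _
    obtain ⟨n, hn⟩ := hθ.mult_hom (φ.comp H.subtype) χ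
    exact ⟨n, by rw [finsum_eq_sum_of_fintype]; exact hn⟩

/-- `θ 1` is a natural number. -/
lemma IsHeilbronn.exists_deg (hθ : IsHeilbronn θ) : ∃ r : ℕ, θ 1 = r := by
  obtain ⟨n, hn⟩ := hθ.mult_hom (E := Unit) 1 1
  exact ⟨n, by simpa using hn⟩

end basics

section abelian

variable {E : Type*} [CommGroup E] [Finite E] {θ : E → ℂ}

/-- On an abelian group, a Heilbronn function is an honest character: a sum of linear
characters with natural multiplicities. -/
lemma IsHeilbronn.exists_decomp (hθ : IsHeilbronn θ) :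
    ∃ (ι : Type) (_ : Fintype ι) (ψ : ι → E →* ℂˣ) (n : ι → ℕ),
      ∀ e : E, θ e = ∑ i, (n i : ℂ) * ((ψ i e : ℂˣ) : ℂ) := by
  classical
  have : Fintype E := Fintype.ofFinite _
  have : Fintype (Additive E) := Fintype.ofFinite _
  let N := Fintype.card (AddChar (Additive E) ℂ)
  let ε : Fin N ≃ AddChar (Additive E) ℂ := (Fintype.equivFin _).symm
  let χ : AddChar (Additive E) ℂ → (E →* ℂˣ) := fun ψ => ψ.toMonoidHom.toHomUnits
  have hχ : ∀ (ψ : AddChar (Additive E) ℂ) (e : E), ((χ ψ e : ℂˣ) : ℂ) = ψ (Additive.ofMul e) :=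
    fun ψ e => rfl
  have hm := fun ψ : AddChar (Additive E) ℂ => hθ.mult_hom (MonoidHom.id E) (χ ψ)
  choose n hn using hm
  refine ⟨Fin N, inferInstance, fun i => χ (ε i), fun i => n (ε i), fun e => ?_⟩
  have hE : (Nat.card E : ℂ) ≠ 0 := by exact_mod_cast Nat.card_pos.ne'
  rw [ε.sum_comp (fun ψ => (n ψ : ℂ) * ((χ ψ e : ℂˣ) : ℂ))]
  apply mul_left_cancel₀ hE
  rw [Finset.mul_sum]
  have h1 : ∀ ψ : AddChar (Additive E) ℂ, (Nat.card E : ℂ) * ((n ψ : ℂ) * ((χ ψ e : ℂˣ) : ℂ))
      = ∑ x : E, θ x * ψ (Additive.ofMul (x⁻¹ * e)) := by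
    intro ψ
    rw [mul_comm, mul_assoc, mul_comm, mul_assoc, mul_comm _ (n ψ : ℂ), ← hn ψ, Finset.mul_sum]
    refine Finset.sum_congr rfl fun x _ => ?_
    simp only [MonoidHom.id_apply, Units.val_inv_eq_inv_val, hχ, ofMul_mul, ofMul_inv,
      AddChar.map_add_eq_mul, AddChar.map_neg_eq_inv]
    ring
  rw [Finset.sum_congr rfl (fun ψ _ => h1 ψ), Finset.sum_comm]
  have h2 : ∀ x : E, ∑ ψ : AddChar (Additive E) ℂ, θ x * ψ (Additive.ofMul (x⁻¹ * e))
      = if x = e then (Nat.card E : ℂ) * θ e else 0 := by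
    intro x
    rw [← Finset.mul_sum]
    rw [AddChar.sum_apply_eq_ite]
    by_cases hx : x = e
    · subst hx
      have hc : Fintype.card (Additive E) = Fintype.card E := Fintype.card_congr Additive.toMul
      simp [mul_comm, hc]
    · have : Additive.ofMul (x⁻¹ * e) ≠ 0 := by
        intro h
        apply hx
        have : x⁻¹ * e = 1 := h
        exact (inv_mul_eq_one.mp this)
      rw [if_neg this, if_neg hx, mul_zero]
  rw [Finset.sum_congr rfl (fun x _ => h2 x)]
  simp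

/-- `|θ(e)| ≤ θ(1)`, and if `θ(y) = θ(1)` then `θ(xy) = θ(x)`. -/
lemma IsHeilbronn.abelian_facts (hθ : IsHeilbronn θ) :
    (∀ e : E, ‖θ e‖ ≤ (θ 1).re) ∧ (∀ x y : E, θ y = θ 1 → θ (x * y) = θ x) := by
  classical
  obtain ⟨ι, _, ψ, n, h⟩ := hθ.exists_decomp
  have hψ : ∀ i e, ‖((ψ i e : ℂˣ) : ℂ)‖ = 1 := by
    intro i e
    have h1 : ((ψ i e : ℂˣ) : ℂ) ^ (Nat.card E) = 1 := by
      rw [← Units.val_pow_eq_pow_val, ← map_pow, pow_card_eq_one', map_one, Units.val_one]
    exact Complex.norm_eq_one_of_pow_eq_one h1 Nat.card_pos.ne'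
  have hone : θ 1 = ((∑ i, (n i : ℝ) : ℝ) : ℂ) := by
    rw [h 1]; simp
  refine ⟨fun e => ?_, fun x y hy => ?_⟩
  · rw [h e, hone, Complex.ofReal_re]
    refine (norm_sum_le _ _).trans (Finset.sum_le_sum fun i _ => ?_)
    rw [norm_mul, hψ, mul_one, Complex.norm_natCast]
  · -- all constituents are trivial on y
    have key : ∀ i, (n i : ℂ) * ((ψ i y : ℂˣ) : ℂ) = (n i : ℂ) := by
      have hre : ∀ i ∈ (Finset.univ : Finset ι),
          (n i : ℝ) - ((n i : ℂ) * ((ψ i y : ℂˣ) : ℂ)).re = 0 := by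
        apply (Finset.sum_eq_zero_iff_of_nonneg ?_).mp
        · have : (θ y).re = (θ 1).re := by rw [hy]
          rw [h y, hone, Complex.ofReal_re, Complex.re_sum] at this
          rw [Finset.sum_sub_distrib, this, sub_self]
        · intro i _
          have h2 : ((ψ i y : ℂˣ) : ℂ).re ≤ 1 := (Complex.re_le_norm _).trans (hψ i y).le
          have h3 : ((n i : ℂ) * ((ψ i y : ℂˣ) : ℂ)).re = n i * ((ψ i y : ℂˣ) : ℂ).re := by
            simp
          rw [h3]
          have h4 : (0 : ℝ) ≤ n i := Nat.cast_nonneg _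
          nlinarith
      intro i
      by_cases hn : n i = 0
      · simp [hn]
      · have h3 : ((n i : ℂ) * ((ψ i y : ℂˣ) : ℂ)).re = n i * ((ψ i y : ℂˣ) : ℂ).re := by
          simp
        have h4 := hre i (Finset.mem_univ _)
        rw [h3] at h4
        have h5 : (n i : ℝ) ≠ 0 := by exact_mod_cast hn
        have h6 : ((ψ i y : ℂˣ) : ℂ).re = 1 := by
          have : (n i : ℝ) * (1 - ((ψ i y : ℂˣ) : ℂ).re) = 0 := by linarith
          rcases mul_eq_zero.mp this with h7 | h7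
          · exact absurd h7 h5
          · linarith
        have h7 : ((ψ i y : ℂˣ) : ℂ) = 1 := by
          have h8 := Complex.sq_norm_sub_sq_re ((ψ i y : ℂˣ) : ℂ)
          rw [hψ, h6] at h8
          apply Complex.ext
          · simpa using h6
          · have : ((ψ i y : ℂˣ) : ℂ).im ^ 2 = 0 := by linarith
            simpa using this
        rw [h7, mul_one]
    rw [h, h]
    refine Finset.sum_congr rfl fun i _ => ?_
    rw [map_mul, Units.val_mul, mul_comm ((ψ i x : ℂˣ) : ℂ), ← mul_assoc, key]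

end abelian

section general

variable {G : Type*} [Group G] [Finite G] {θ : G → ℂ}

lemma IsHeilbronn.comm_facts {E : Type*} [Group E] [Finite E] {θ : E → ℂ} (hθ : IsHeilbronn θ)
    (hc : ∀ a b : E, a * b = b * a) :
    (∀ e : E, ‖θ e‖ ≤ (θ 1).re) ∧ (∀ x y : E, θ y = θ 1 → θ (x * y) = θ x) := by
  let _ : CommGroup E := { (inferInstance : Group E) with mul_comm := hc }
  exact hθ.abelian_facts

lemma IsHeilbronn.comm_decomp {E : Type*} [Group E] [Finite E] {θ : E → ℂ} (hθ : IsHeilbronn θ)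
    (hc : ∀ a b : E, a * b = b * a) :
    ∃ (ι : Type) (_ : Fintype ι) (ψ : ι → E →* ℂˣ) (n : ι → ℕ),
      ∀ e : E, θ e = ∑ i, (n i : ℂ) * ((ψ i e : ℂˣ) : ℂ) := by
  let _ : CommGroup E := { (inferInstance : Group E) with mul_comm := hc }
  exact hθ.exists_decomp

lemma zpowers_comm (g : G) (a b : Subgroup.zpowers g) : a * b = b * a := by
  obtain ⟨a, k, rfl⟩ := a
  obtain ⟨b, l, rfl⟩ := b
  apply Subtype.ext
  exact (Commute.refl g).zpow_zpow k l

lemma IsHeilbronn.norm_le (hθ : IsHeilbronn θ) (g : G) : ‖θ g‖ ≤ (θ 1).re := by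
  have h := ((hθ.comp (Subgroup.zpowers g).subtype).comm_facts (zpowers_comm g)).1
    ⟨g, Subgroup.mem_zpowers g⟩
  simpa using h

/-- If `x, y` commute and `θ y = θ 1` then `θ (x * y) = θ x`. -/
lemma IsHeilbronn.mul_of_comm (hθ : IsHeilbronn θ) {x y : G} (hxy : x * y = y * x)
    (hy : θ y = θ 1) : θ (x * y) = θ x := by
  have hcomm : ∀ a ∈ ({x, y} : Set G), ∀ b ∈ ({x, y} : Set G), a * b = b * a := by
    intro a ha b hb
    rcases ha with rfl | ha <;> rcases hb with rfl | hb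
    · rfl
    · rw [Set.mem_singleton_iff.mp hb]; exact hxy
    · rw [Set.mem_singleton_iff.mp ha]; exact hxy.symm
    · rw [Set.mem_singleton_iff.mp ha, Set.mem_singleton_iff.mp hb]
  have hcm := Subgroup.isMulCommutative_closure hcomm
  have h := ((hθ.comp (Subgroup.closure ({x, y} : Set G)).subtype).comm_facts
    (fun a b => hcm.is_comm.comm a b)).2
    ⟨x, Subgroup.subset_closure (by simp)⟩ ⟨y, Subgroup.subset_closure (by simp)⟩
  exact h (by simpa using hy)

lemma IsHeilbronn.pow_of_eq (hθ : IsHeilbronn θ) {x : G} (hx : θ x = θ 1) (k : ℕ) :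
    θ (x ^ k) = θ 1 := by
  induction k with
  | zero => simp
  | succ k ih => rw [pow_succ, hθ.mul_of_comm ((Commute.refl x).pow_left k) hx, ih]

lemma IsHeilbronn.eq_deg_of_re (hθ : IsHeilbronn θ) {g : G} (hg : (θ 1).re ≤ (θ g).re) :
    θ g = θ 1 := by
  obtain ⟨r, hr⟩ := hθ.exists_deg
  have h1 := hθ.norm_le g
  rw [hr, Complex.natCast_re] at h1 hg
  rw [hr]
  have h2 := (Complex.re_le_norm (θ g))
  have h3 : (θ g).re = r := le_antisymm (h2.trans h1) hg
  have h4 : ‖θ g‖ = r := le_antisymm h1 (h3 ▸ h2)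
  have h8 := Complex.sq_norm_sub_sq_re (θ g)
  rw [h3, h4] at h8
  apply Complex.ext
  · simpa using h3
  · have : (θ g).im ^ 2 = 0 := by linarith
    simpa using this

/-- The kernel lemma: if `θ ∘ φ` takes the value `θ 1` outside the kernel of a nontrivial linear
character `χ` of `E`, then it takes this value everywhere. -/
lemma IsHeilbronn.kernel_lemma (hθ : IsHeilbronn θ) {E : Type*} [Group E] [Finite E]
    (φ : E →* G) (χ : E →* ℂˣ) {e₀ : E} (he₀ : χ e₀ ≠ 1)
    (h : ∀ e, χ e ≠ 1 → θ (φ e) = θ 1) (e : E) : θ (φ e) = θ 1 := by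
  classical
  have : Fintype E := Fintype.ofFinite _
  by_cases hχe : χ e = 1
  swap
  · exact h e hχe
  obtain ⟨n, hn⟩ := hθ.mult_hom φ χ
  obtain ⟨r, hr⟩ := hθ.exists_deg
  -- the sum of χ⁻¹ vanishes
  have hsum : ∑ e : E, (((χ e)⁻¹ : ℂˣ) : ℂ) = 0 := by
    have h1 : ∑ e : E, (((χ e)⁻¹ : ℂˣ) : ℂ) = ∑ e : E, (((χ (e * e₀))⁻¹ : ℂˣ) : ℂ) :=
      (Equiv.sum_comp (Equiv.mulRight e₀) (fun e => (((χ e)⁻¹ : ℂˣ) : ℂ))).symm
    have h2 : ∑ e : E, (((χ (e * e₀))⁻¹ : ℂˣ) : ℂ)
        = (((χ e₀)⁻¹ : ℂˣ) : ℂ) * ∑ e : E, (((χ e)⁻¹ : ℂˣ) : ℂ) := by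
      rw [Finset.mul_sum]
      refine Finset.sum_congr rfl fun e _ => ?_
      rw [map_mul, mul_inv_rev]; push_cast; ring
    have h3 : (((χ e₀)⁻¹ : ℂˣ) : ℂ) ≠ 1 := by
      intro h
      apply he₀
      rw [← inv_eq_one, ← Units.val_eq_one]; exact h
    have h4 : (1 - (((χ e₀)⁻¹ : ℂˣ) : ℂ)) * ∑ e : E, (((χ e)⁻¹ : ℂˣ) : ℂ) = 0 := by
      rw [sub_mul, one_mul, ← h2, ← h1, sub_self]
    rcases mul_eq_zero.mp h4 with h5 | h5
    · exact absurd (sub_eq_zero.mp h5).symm h3
    · exact h5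
  have h1 : ∑ e : E, (θ (φ e) - r) * (((χ e)⁻¹ : ℂˣ) : ℂ) = (n : ℂ) * Nat.card E := by
    rw [← hn]
    simp_rw [sub_mul]
    rw [Finset.sum_sub_distrib, ← Finset.mul_sum, hsum, mul_zero, sub_zero]
  have h2 : ∑ e : E, (θ (φ e) - r) * (((χ e)⁻¹ : ℂˣ) : ℂ) = ∑ e : E, (θ (φ e) - r) := by
    refine Finset.sum_congr rfl fun e _ => ?_
    by_cases he : χ e = 1
    · simp [he]
    · rw [h e he, hr, sub_self, zero_mul]
  have h3 : (∑ e : E, (r - (θ (φ e)).re) : ℝ) = -((n : ℝ) * Nat.card E) := by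
    have := congrArg Complex.re (h2.symm.trans h1)
    rw [Complex.re_sum] at this
    simp only [Complex.sub_re, Complex.natCast_re, Complex.mul_re, Complex.natCast_im,
      mul_zero, sub_zero] at this
    rw [← this, ← Finset.sum_neg_distrib]
    exact Finset.sum_congr rfl fun _ _ => by ring
  have hnn : ∀ e ∈ (Finset.univ : Finset E), (0 : ℝ) ≤ r - (θ (φ e)).re := by
    intro e _
    have := (Complex.re_le_norm _).trans (hθ.norm_le (φ e))
    rw [hr, Complex.natCast_re] at this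
    linarith
  have h4 : (∑ e : E, (r - (θ (φ e)).re) : ℝ) = 0 := by
    apply le_antisymm
    · rw [h3]
      have : (0 : ℝ) ≤ (n : ℝ) * Nat.card E := by positivity
      linarith
    · exact Finset.sum_nonneg hnn
  have h5 := (Finset.sum_eq_zero_iff_of_nonneg hnn).mp h4 e (Finset.mem_univ _)
  apply hθ.eq_deg_of_re
  rw [hr, Complex.natCast_re]; linarith

/-- units of `ℤ` as linear character values -/
noncomputable def signToC : ℤˣ →* ℂˣ := Units.map (Int.castRingHom ℂ).toMonoidHom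

lemma signToC_neg_one : signToC (-1) ≠ 1 := by
  intro h
  have : ((signToC (-1) : ℂˣ) : ℂ) = 1 := by rw [h]; rfl
  simp [signToC] at this
  norm_num at this

lemma signToC_ne_one_iff (s : ℤˣ) : signToC s ≠ 1 ↔ s = -1 := by
  rcases Int.units_eq_one_or s with h | h
  · subst h; simp
  · subst h; simp [signToC_neg_one]

/-- The kernel lemma for sign-valued characters. -/
lemma IsHeilbronn.kernel_lemma_sign (hθ : IsHeilbronn θ) {E : Type*} [Group E] [Finite E]
    (φ : E →* G) (χ : E →* ℤˣ) {e₀ : E} (he₀ : χ e₀ = -1)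
    (h : ∀ e, χ e = -1 → θ (φ e) = θ 1) (e : E) : θ (φ e) = θ 1 := by
  refine hθ.kernel_lemma φ (signToC.comp χ) (e₀ := e₀) ?_ ?_ e
  · rw [MonoidHom.comp_apply, signToC_ne_one_iff]; exact he₀
  · intro e he
    rw [MonoidHom.comp_apply, signToC_ne_one_iff] at he
    exact h e he

/-- Two involutions in the kernel have their product in the kernel. -/
lemma IsHeilbronn.mul_of_invol (hθ : IsHeilbronn θ) {x y : G} (hx2 : x * x = 1)
    (hy2 : y * y = 1) (hx : θ x = θ 1) (hy : θ y = θ 1) : θ (x * y) = θ 1 := by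
  classical
  let S : Set (G × ℤˣ) := {(x, -1), (y, -1)}
  let E := Subgroup.closure S
  -- elements with second coordinate -1 are conjugate to x or y; description of E
  have hdesc : ∀ e ∈ E, (∃ k : ℤ, e = ((x * y) ^ k, 1)) ∨ (∃ k : ℤ, e = ((x * y) ^ k * x, -1)) := by
    intro e he
    have hxi : x⁻¹ = x := inv_eq_of_mul_eq_one_left hx2
    have hyi : y⁻¹ = y := inv_eq_of_mul_eq_one_left hy2
    have hinv : (x * y)⁻¹ = y * x := by rw [mul_inv_rev, hxi, hyi]
    have hxc : ∀ k : ℤ, x * (x * y) ^ k = (x * y) ^ (-k) * x := by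
      intro k
      have h1 : x * (x * y) * x⁻¹ = (x * y)⁻¹ := by
        rw [hinv, hxi, ← mul_assoc, hx2, one_mul]
      have h2 : x * (x * y) ^ k * x⁻¹ = ((x * y)⁻¹) ^ k := by
        rw [← h1]; exact (conj_zpow).symm
      rw [inv_zpow'] at h2
      rw [← h2, inv_mul_cancel_right]
    have hy' : y = (x * y) ^ (-1 : ℤ) * x := by
      rw [zpow_neg_one, hinv, mul_assoc, hx2, mul_one]
    induction he using Subgroup.closure_induction with
    | mem e he =>
      rcases he with rfl | he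
      · right; exact ⟨0, by simp⟩
      · rw [Set.mem_singleton_iff.mp he]
        right; exact ⟨-1, by rw [← hy']⟩
    | one => left; exact ⟨0, by simp; rfl⟩
    | mul a b _ _ ha hb =>
      rcases ha with ⟨k, rfl⟩ | ⟨k, rfl⟩ <;> rcases hb with ⟨l, rfl⟩ | ⟨l, rfl⟩
      · left; exact ⟨k + l, by simp [zpow_add]⟩
      · right; exact ⟨k + l, by simp [zpow_add, mul_assoc]⟩
      · right
        refine ⟨k - l, ?_⟩
        simp only [Prod.mk_mul_mk, mul_one, Prod.mk.injEq, and_true]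
        rw [mul_assoc, hxc, ← mul_assoc, ← zpow_add, sub_eq_add_neg]
      · left
        refine ⟨k - l, ?_⟩
        simp only [Prod.mk_mul_mk, Prod.mk.injEq]
        constructor
        · rw [mul_assoc ((x*y)^k) x, ← mul_assoc x, hxc, mul_assoc _ x x, hx2, mul_one, ← zpow_add,
            sub_eq_add_neg]
        · simp
    | inv a _ ha =>
      rcases ha with ⟨k, rfl⟩ | ⟨k, rfl⟩
      · left; exact ⟨-k, by simp⟩
      · right
        refine ⟨k, ?_⟩
        simp only [Prod.inv_mk, mul_inv_rev, hxi, Prod.mk.injEq]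
        constructor
        · rw [← zpow_neg, hxc, neg_neg]
        · simp
  have hφ := hθ.kernel_lemma_sign (E := E) ((MonoidHom.fst G ℤˣ).comp E.subtype)
    ((MonoidHom.snd G ℤˣ).comp E.subtype)
    (e₀ := ⟨(x, -1), Subgroup.subset_closure (by simp [S])⟩) rfl ?_
    (⟨(x, -1), Subgroup.subset_closure (by simp [S])⟩ * ⟨(y, -1), Subgroup.subset_closure (by simp [S])⟩)
  · simpa using hφ
  · rintro ⟨e, he⟩ hχ
    have hxi : x⁻¹ = x := inv_eq_of_mul_eq_one_left hx2
    have hyi : y⁻¹ = y := inv_eq_of_mul_eq_one_left hy2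
    have hinv : (x * y)⁻¹ = y * x := by rw [mul_inv_rev, hxi, hyi]
    have hxc : ∀ k : ℤ, x * (x * y) ^ k = (x * y) ^ (-k) * x := by
      intro k
      have h1 : x * (x * y) * x⁻¹ = (x * y)⁻¹ := by
        rw [hinv, hxi, ← mul_assoc, hx2, one_mul]
      have h2 : x * (x * y) ^ k * x⁻¹ = ((x * y)⁻¹) ^ k := by
        rw [← h1]; exact (conj_zpow).symm
      rw [inv_zpow'] at h2
      rw [← h2, inv_mul_cancel_right]
    rcases hdesc e he with ⟨k, rfl⟩ | ⟨k, rfl⟩
    · simp at hχ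
    · simp only [MonoidHom.coe_comp, Subgroup.coe_subtype, Function.comp_apply,
        MonoidHom.coe_fst]
      rcases Int.even_or_odd' k with ⟨l, hl | hl⟩
      · have : (x * y) ^ k * x = (x * y) ^ l * x * ((x * y) ^ l)⁻¹ := by
          rw [← zpow_neg, mul_assoc ((x*y)^l), hxc, neg_neg, ← mul_assoc, ← zpow_add, hl,
            two_mul]
        rw [this, hθ.conj, hx]
      · have : (x * y) ^ k * x = (x * y) ^ l * (x * y * x⁻¹) * ((x * y) ^ l)⁻¹ := by
          rw [hxi, ← zpow_neg, mul_assoc ((x*y)^l), mul_assoc (x * y), hxc, neg_neg, ← mul_assoc,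
            ← mul_assoc, ← zpow_add_one, ← zpow_add, hl]
          congr 2; ring
        rw [this, hθ.conj, hθ.conj, hy]

end general

end Pool.Agent.H302R2
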