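import Mathlib
import Pool.Agent.H302R2.Basic

/-!
# Heilbronn functions trivial on a subgroup of index two
-/

set_option autoImplicit false

namespace Pool.Agent.H302R2

universe u

section quotient

variable {G : Type u} [Group G] [Finite G] {θ : G → ℂ}

/-- the descended function -/
noncomputable def descend (N : Subgroup G) (θ : G → ℂ) : G ⧸ N → ℂ := fun q => θ q.out

lemma descend_mk {N : Subgroup G} (h : ∀ g : G, ∀ n ∈ N, θ (g * n) = θ g) (g : G) :
    descend N θ (g : G ⧸ N) = θ g := by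
  obtain ⟨n, hn⟩ := QuotientGroup.mk_out_eq_mul N g
  rw [descend, hn, h g n n.2]

/-- Heilbronn functions descend to quotients -/
lemma IsHeilbronn.descend (hθ : IsHeilbronn θ) (N : Subgroup G) [N.Normal]
    (h : ∀ g : G, ∀ n ∈ N, θ (g * n) = θ g) : IsHeilbronn (descend N θ) where
  conj a b := by
    induction a using QuotientGroup.induction_on with | _ a => ?_
    induction b using QuotientGroup.induction_on with | _ b => ?_
    rw [← QuotientGroup.mk_mul, ← QuotientGroup.mk_inv, ← QuotientGroup.mk_mul, descend_mk h,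
      descend_mk h, hθ.conj]
  mult H χ := by
    classical
    have : Fintype H := Fintype.ofFinite _
    have : Fintype (H.comap (QuotientGroup.mk' N)) := Fintype.ofFinite _
    let π : H.comap (QuotientGroup.mk' N) →* H :=
      ((QuotientGroup.mk' N).comp (H.comap (QuotientGroup.mk' N)).subtype).codRestrict H
        (fun e => e.2)
    have hπ : Function.Surjective π := by
      rintro ⟨y, hy⟩
      obtain ⟨x, rfl⟩ := QuotientGroup.mk_surjective y
      exact ⟨⟨x, hy⟩, rfl⟩
    obtain ⟨n, hn⟩ := hθ.mult_hom (H.comap (QuotientGroup.mk' N)).subtype (χ.comp π)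
    refine ⟨n, ?_⟩
    rw [finsum_eq_sum_of_fintype]
    have h1 := sum_comp_surj π hπ (fun h => Pool.Agent.H302R2.descend N θ h * (((χ h)⁻¹ : ℂˣ) : ℂ))
    have h2 : ∀ e : H.comap (QuotientGroup.mk' N),
        Pool.Agent.H302R2.descend N θ (π e) = θ e := by
      intro e
      exact descend_mk h _
    simp only [h2] at h1
    simp only [Subgroup.coe_subtype, MonoidHom.comp_apply] at hn
    rw [hn] at h1
    have h3 : Nat.card (H.comap (QuotientGroup.mk' N)) = Nat.card π.ker * Nat.card H := by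
      rw [← Nat.card_congr (QuotientGroup.quotientKerEquivOfSurjective π hπ).toEquiv, mul_comm]
      exact Subgroup.card_eq_card_quotient_mul_card_subgroup _
    have h4 : (Nat.card π.ker : ℂ) ≠ 0 := by exact_mod_cast Nat.card_pos.ne'
    apply mul_left_cancel₀ h4
    rw [← h1, h3]; push_cast; ring

end quotient

/-- In a finite `p`-group a nontrivial normal subgroup contains a nontrivial central element. -/
lemma exists_central {P : Type u} [Group P] [Finite P] {p : ℕ} [Fact p.Prime] (hP : IsPGroup p P)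
    (N : Subgroup P) [N.Normal] (hN : N ≠ ⊥) :
    ∃ z ∈ N, z ≠ 1 ∧ ∀ g : P, g * z = z * g := by
  have hP' : IsPGroup p (ConjAct P) := hP.of_equiv ConjAct.toConjAct
  have : Nontrivial N := (Subgroup.nontrivial_iff_ne_bot N).mpr hN
  have hNp : IsPGroup p N := hP.to_subgroup N
  obtain ⟨n, hn⟩ := IsPGroup.iff_card.mp hNp
  have hdvd : p ∣ Nat.card N := by
    have : 1 < Nat.card N := Finite.one_lt_card
    rw [hn] at this ⊢
    have : n ≠ 0 := by rintro rfl; simp at this
    exact dvd_pow_self p this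
  obtain ⟨b, hb, hb1⟩ := hP'.exists_fixed_point_of_prime_dvd_card_of_fixed_point N hdvd
    (a := 1) (by intro g; simp)
  refine ⟨b, b.2, fun h => hb1 (Subtype.ext h.symm), fun g => ?_⟩
  have h1 := hb (ConjAct.toConjAct g)
  have h2 := congrArg Subtype.val h1
  rw [ConjAct.Subgroup.val_conj_smul] at h2
  simp only [ConjAct.toConjAct_smul] at h2
  rw [mul_inv_eq_iff_eq_mul] at h2
  exact h2

/-- the 2-group case -/
lemma index_two_pgroup : ∀ (N : ℕ) (P : Type u) [Group P] [Finite P], Nat.card P = N →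
    IsPGroup 2 P → ∀ (θ : P → ℂ) (_ : IsHeilbronn θ) (χ : P →* ℤˣ),
      (∀ g, χ g = 1 → θ g = θ 1) → ∀ g h, χ g = -1 → χ h = -1 → θ g = θ h := by
  intro N
  induction N using Nat.strong_induction_on with
  | _ N ih =>
    intro P _ _ hPN hP θ hθ χ hχ g h hg hh
    have : Fact (Nat.Prime 2) := ⟨Nat.prime_two⟩
    by_cases hker : χ.ker = ⊥
    · have h1 : g * h⁻¹ ∈ χ.ker := by
        rw [MonoidHom.mem_ker, map_mul, map_inv, hg, hh, mul_inv_cancel]
      rw [hker, Subgroup.mem_bot] at h1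
      rw [mul_inv_eq_one.mp h1]
    · obtain ⟨z, hz, hz1, hzc⟩ := exists_central hP χ.ker hker
      set Z := Subgroup.zpowers z with hZ
      have hZn : Z.Normal := by
        constructor
        rintro _ ⟨k, rfl⟩ y
        refine ⟨k, ?_⟩
        have : Commute y (z ^ k) := (show Commute y z from hzc y).zpow_right k
        simp only
        rw [this.eq, mul_inv_cancel_right]
      have hZχ : ∀ n ∈ Z, χ n = 1 := by
        rintro _ ⟨k, rfl⟩
        simp only
        rw [map_zpow, MonoidHom.mem_ker.mp hz, one_zpow]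
      have hZθ : ∀ y : P, ∀ n ∈ Z, θ (y * n) = θ y := by
        intro y n hn
        obtain ⟨k, rfl⟩ := hn
        have : Commute y (z ^ k) := (show Commute y z from hzc y).zpow_right k
        exact hθ.mul_of_comm this.eq (hχ _ (hZχ _ ⟨k, rfl⟩))
      have hlt : Nat.card (P ⧸ Z) < N := by
        rw [← hPN, Subgroup.card_eq_card_quotient_mul_card_subgroup Z]
        have : 1 < Nat.card Z := by
          rw [Nat.card_zpowers]
          have h1 : orderOf z ≠ 1 := by rw [ne_eq, orderOf_eq_one_iff]; exact hz1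
          have h2 := orderOf_pos z
          omega
        have h3 : 0 < Nat.card (P ⧸ Z) := Nat.card_pos
        nlinarith
      let χ' : P ⧸ Z →* ℤˣ := QuotientGroup.lift Z χ hZχ
      have hχ' : ∀ y : P, χ' (y : P ⧸ Z) = χ y := fun y => rfl
      have hP' : IsPGroup 2 (P ⧸ Z) := hP.to_quotient Z
      have key := ih _ hlt (P ⧸ Z) rfl hP' (descend Z θ) (hθ.descend Z hZθ) χ' ?_
        (g : P ⧸ Z) (h : P ⧸ Z) (by rw [hχ', hg]) (by rw [hχ', hh])
      · rwa [descend_mk hZθ, descend_mk hZθ] at key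
      · intro q hq
        induction q using QuotientGroup.induction_on with | _ y => ?_
        rw [hχ'] at hq
        rw [← QuotientGroup.mk_one, descend_mk hZθ, descend_mk hZθ]
        exact hχ y hq

section general

variable {G : Type u} [Group G] [Finite G] {θ : G → ℂ}

/-- reduction to 2-elements -/
lemma exists_two_part (hθ : IsHeilbronn θ) (χ : G →* ℤˣ) (hχ : ∀ g, χ g = 1 → θ g = θ 1) {g : G}
    (hg : χ g = -1) : ∃ g' : G, θ g' = θ g ∧ χ g' = -1 ∧ ∃ k : ℕ, g' ^ (2 ^ k) = 1 := by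
  have hpos : 0 < orderOf g := orderOf_pos g
  obtain ⟨a, b, hb, hab⟩ := Nat.exists_eq_two_pow_mul_odd hpos.ne'
  have ha : a ≠ 0 := by
    rintro rfl
    rw [pow_zero, one_mul] at hab
    have h1 : g ^ b = 1 := by rw [← hab]; exact pow_orderOf_eq_one g
    have h2 := congrArg χ h1
    rw [map_pow, map_one, hg, hb.neg_one_pow] at h2
    exact absurd h2 (by decide)
  have hcop : IsCoprime (b : ℤ) ((2 ^ a : ℕ) : ℤ) := by
    rw [Nat.isCoprime_iff_coprime]
    exact Nat.Coprime.pow_right a (Nat.Coprime.symm (Nat.coprime_two_left.mpr hb))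
  obtain ⟨u, v, huv⟩ := hcop
  have h1 : g = g ^ (u * b) * g ^ (v * ((2 ^ a : ℕ) : ℤ)) := by
    rw [← zpow_add, huv, zpow_one]
  have h2 : χ (g ^ (v * ((2 ^ a : ℕ) : ℤ))) = 1 := by
    rw [map_zpow, hg, mul_comm, zpow_mul, zpow_natCast]
    have : Even (2 ^ a) := (Nat.even_pow.mpr ⟨even_two, ha⟩)
    rw [this.neg_one_pow, one_zpow]
  have h3 : χ (g ^ (u * b)) = -1 := by
    have := congrArg χ h1
    rw [map_mul, h2, mul_one, hg] at this
    exact this.symm
  refine ⟨g ^ (u * b), ?_, h3, a, ?_⟩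
  · conv_rhs => rw [h1]
    exact (hθ.mul_of_comm ((Commute.refl g).zpow_zpow _ _).eq (hχ _ h2)).symm
  · rw [← zpow_natCast, ← zpow_mul, mul_assoc, ← Nat.cast_mul, mul_comm b, ← hab, mul_comm u,
      zpow_mul, zpow_natCast, pow_orderOf_eq_one, one_zpow]

theorem index_two (hθ : IsHeilbronn θ) (χ : G →* ℤˣ) (hχ : ∀ g, χ g = 1 → θ g = θ 1) {g h : G}
    (hg : χ g = -1) (hh : χ h = -1) : θ g = θ h := by
  have : Fact (Nat.Prime 2) := ⟨Nat.prime_two⟩
  obtain ⟨g', hg1, hg2, k, hk⟩ := exists_two_part hθ χ hχ hg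
  obtain ⟨h', hh1, hh2, l, hl⟩ := exists_two_part hθ χ hχ hh
  rw [← hg1, ← hh1]
  have hp : ∀ (x : G) (j : ℕ), x ^ (2 ^ j) = 1 → IsPGroup 2 (Subgroup.zpowers x) := by
    intro x j hx
    rintro ⟨_, i, rfl⟩
    refine ⟨j, Subtype.ext ?_⟩
    change (x ^ i) ^ (2 ^ j) = 1
    rw [← zpow_natCast, ← zpow_mul, mul_comm, zpow_mul, zpow_natCast, hx, one_zpow]
  obtain ⟨P, hP⟩ := (hp g' k hk).exists_le_sylow
  obtain ⟨Q, hQ⟩ := (hp h' l hl).exists_le_sylow
  obtain ⟨c, hc⟩ := MulAction.exists_smul_eq G Q P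
  have hgP : g' ∈ P := hP (Subgroup.mem_zpowers g')
  have hhP : c * h' * c⁻¹ ∈ P := by
    rw [← hc]
    exact Subgroup.smul_mem_pointwise_smul h' (MulAut.conj c) (Q : Subgroup G)
      (hQ (Subgroup.mem_zpowers h'))
  rw [← hθ.conj h' c]
  have key := index_two_pgroup (Nat.card P) P rfl P.isPGroup' (fun x => θ x)
    (hθ.comp (P : Subgroup G).subtype) (χ.comp (P : Subgroup G).subtype)
    (fun x hx => hχ x hx) ⟨g', hgP⟩ ⟨c * h' * c⁻¹, hhP⟩ hg2 (by
      change χ (c * h' * c⁻¹) = -1
      rw [map_mul, map_mul, map_inv, mul_right_comm, mul_inv_cancel, one_mul, hh2])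
  exact key

end general

end Pool.Agent.H302R2
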