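import Mathlib
import Pool.Agent.H302R2.Basic
import Pool.Agent.H302R2.Index2

/-!
# Averaging a Heilbronn function over a normal subgroup
-/

set_option autoImplicit false

namespace Pool.Agent.H302R2

variable {G : Type*} [Group G] [Finite G] {θ : G → ℂ}

/-- the average over the cosets of `N` -/
noncomputable def avg (N : Subgroup G) (θ : G → ℂ) : G ⧸ N → ℂ :=
  fun q => (Nat.card N : ℂ)⁻¹ * ∑ᶠ n : N, θ (q.out * n)

omit [Finite G] in
lemma avg_mk (N : Subgroup G) (θ : G → ℂ) (g : G) :
    avg N θ (g : G ⧸ N) = (Nat.card N : ℂ)⁻¹ * ∑ᶠ n : N, θ (g * n) := by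
  obtain ⟨n₀, hn₀⟩ := QuotientGroup.mk_out_eq_mul N g
  rw [avg, hn₀]
  congr 1
  have h := finsum_comp_equiv (Equiv.mulLeft n₀) (f := fun n : N => θ (g * n))
  rw [← h]
  refine finsum_congr fun n => ?_
  simp [mul_assoc]

/-- Averaging preserves Heilbronn functions. -/
lemma IsHeilbronn.avg (hθ : IsHeilbronn θ) (N : Subgroup G) [N.Normal] :
    IsHeilbronn (avg N θ) where
  conj a b := by
    induction a using QuotientGroup.induction_on with | _ a => ?_
    induction b using QuotientGroup.induction_on with | _ b => ?_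
    rw [← QuotientGroup.mk_mul, ← QuotientGroup.mk_inv, ← QuotientGroup.mk_mul, avg_mk, avg_mk]
    congr 1
    have h := finsum_comp_equiv (MulAut.conjNormal b⁻¹).toEquiv (f := fun n : N => θ (a * n))
    rw [← h]
    refine finsum_congr fun n => ?_
    have h2 := hθ.conj (a * (b⁻¹ * n * b)) b
    simp only [MulEquiv.toEquiv_eq_coe, MulEquiv.coe_toEquiv, MulAut.conjNormal_apply, inv_inv]
    rw [← h2]
    congr 1
    group
  mult H χ := by
    classical
    have : Fintype H := Fintype.ofFinite _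
    have : Fintype N := Fintype.ofFinite _
    have : Fintype (H.comap (QuotientGroup.mk' N)) := Fintype.ofFinite _
    let π : H.comap (QuotientGroup.mk' N) →* H :=
      ((QuotientGroup.mk' N).comp (H.comap (QuotientGroup.mk' N)).subtype).codRestrict H
        (fun e => e.2)
    have hπ : Function.Surjective π := by
      rintro ⟨y, hy⟩
      obtain ⟨x, rfl⟩ := QuotientGroup.mk_surjective y
      exact ⟨⟨x, hy⟩, rfl⟩
    obtain ⟨n, hn⟩ := hθ.mult_hom (H.comap (QuotientGroup.mk' N)).subtype (χ.comp π)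
    refine ⟨n, ?_⟩
    rw [finsum_eq_sum_of_fintype]
    have h1 := sum_comp_surj π hπ (fun h => Pool.Agent.H302R2.avg N θ h * (((χ h)⁻¹ : ℂˣ) : ℂ))
    have hNcard : (Nat.card N : ℂ) ≠ 0 := by exact_mod_cast Nat.card_pos.ne'
    have h2 : ∑ e : H.comap (QuotientGroup.mk' N),
        Pool.Agent.H302R2.avg N θ (π e) * (((χ (π e))⁻¹ : ℂˣ) : ℂ)
        = ∑ e : H.comap (QuotientGroup.mk' N), θ e * (((χ (π e))⁻¹ : ℂˣ) : ℂ) := by
      have h3 : ∀ e : H.comap (QuotientGroup.mk' N),
          Pool.Agent.H302R2.avg N θ (π e) * (((χ (π e))⁻¹ : ℂˣ) : ℂ)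
          = (Nat.card N : ℂ)⁻¹ * ∑ n : N, θ (e * n) * (((χ (π e))⁻¹ : ℂˣ) : ℂ) := by
        intro e
        have : ((π e : H) : G ⧸ N) = ((e : G) : G ⧸ N) := rfl
        rw [this, avg_mk, finsum_eq_sum_of_fintype, ← Finset.sum_mul]
        ring
      rw [Finset.sum_congr rfl (fun e _ => h3 e), ← Finset.mul_sum, Finset.sum_comm]
      have h4 : ∀ n : N, ∑ e : H.comap (QuotientGroup.mk' N),
          θ (e * n) * (((χ (π e))⁻¹ : ℂˣ) : ℂ)
          = ∑ e : H.comap (QuotientGroup.mk' N), θ e * (((χ (π e))⁻¹ : ℂˣ) : ℂ) := by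
        intro n
        have hnE : (n : G) ∈ H.comap (QuotientGroup.mk' N) := by
          rw [Subgroup.mem_comap]
          have : (QuotientGroup.mk' N) (n : G) = 1 := (QuotientGroup.eq_one_iff _).mpr n.2
          rw [this]; exact one_mem _
        rw [← Equiv.sum_comp (Equiv.mulRight (⟨n, hnE⟩ : H.comap (QuotientGroup.mk' N)))
          (fun e => θ e * (((χ (π e))⁻¹ : ℂˣ) : ℂ))]
        refine Finset.sum_congr rfl fun e _ => ?_
        have : π (e * ⟨n, hnE⟩) = π e := by
          rw [map_mul]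
          have : π ⟨n, hnE⟩ = 1 := by
            apply Subtype.ext
            exact (QuotientGroup.eq_one_iff _).mpr n.2
          rw [this, mul_one]
        simp only [Equiv.coe_mulRight, this, Subgroup.coe_mul]
      rw [Finset.sum_congr rfl (fun n _ => h4 n), Finset.sum_const, Finset.card_univ,
        nsmul_eq_mul, ← mul_assoc, Nat.card_eq_fintype_card, inv_mul_cancel₀, one_mul]
      rw [← Nat.card_eq_fintype_card]; exact hNcard
    rw [h2] at h1
    simp only [Subgroup.coe_subtype, MonoidHom.comp_apply] at hn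
    rw [hn] at h1
    have h3 : Nat.card (H.comap (QuotientGroup.mk' N)) = Nat.card π.ker * Nat.card H := by
      rw [← Nat.card_congr (QuotientGroup.quotientKerEquivOfSurjective π hπ).toEquiv, mul_comm]
      exact Subgroup.card_eq_card_quotient_mul_card_subgroup _
    have h4 : (Nat.card π.ker : ℂ) ≠ 0 := by exact_mod_cast Nat.card_pos.ne'
    apply mul_left_cancel₀ h4
    rw [← h1, h3]; push_cast; ring

/-- If the average at the identity vanishes, all coset averages vanish. -/
lemma IsHeilbronn.avg_zero (hθ : IsHeilbronn θ) (N : Subgroup G) [N.Normal]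
    (h : ∑ᶠ n : N, θ n = 0) (g : G) : ∑ᶠ n : N, θ (g * n) = 0 := by
  have h1 := (hθ.avg N).norm_le (g : G ⧸ N)
  have h2 : Pool.Agent.H302R2.avg N θ 1 = 0 := by
    rw [← QuotientGroup.mk_one, avg_mk]
    simp [h]
  rw [h2, Complex.zero_re, norm_le_zero_iff, avg_mk] at h1
  have hNcard : (Nat.card N : ℂ)⁻¹ ≠ 0 := by
    apply inv_ne_zero
    exact_mod_cast Nat.card_pos.ne'
  rcases mul_eq_zero.mp h1 with h3 | h3
  · exact absurd h3 hNcard
  · exact h3

/-- The total sum equals the total sum of the averages. -/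
lemma sum_avg (N : Subgroup G) [N.Normal] (θ : G → ℂ) :
    ∑ᶠ g : G, θ g = (Nat.card N : ℂ) * ∑ᶠ q : G ⧸ N, avg N θ q := by
  classical
  have : Fintype G := Fintype.ofFinite _
  have : Fintype N := Fintype.ofFinite _
  have : Fintype (G ⧸ N) := Fintype.ofFinite _
  have hNcard : (Nat.card N : ℂ) ≠ 0 := by exact_mod_cast Nat.card_pos.ne'
  rw [finsum_eq_sum_of_fintype, finsum_eq_sum_of_fintype]
  have h1 := sum_comp_surj (QuotientGroup.mk' N) (QuotientGroup.mk'_surjective N) (avg N θ)
  rw [QuotientGroup.ker_mk'] at h1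
  rw [← h1]
  have h3 : ∀ g : G, avg N θ (QuotientGroup.mk' N g)
      = (Nat.card N : ℂ)⁻¹ * ∑ n : N, θ (g * n) := by
    intro g
    have : QuotientGroup.mk' N g = (g : G ⧸ N) := rfl
    rw [this, avg_mk, finsum_eq_sum_of_fintype]
  rw [Finset.sum_congr rfl (fun g _ => h3 g), ← Finset.mul_sum, Finset.sum_comm]
  have h4 : ∀ n : N, ∑ g : G, θ (g * n) = ∑ g : G, θ g := fun n =>
    Equiv.sum_comp (Equiv.mulRight (n : G)) θ
  rw [Finset.sum_congr rfl (fun n _ => h4 n), Finset.sum_const, Finset.card_univ, nsmul_eq_mul,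
    ← mul_assoc, Nat.card_eq_fintype_card, inv_mul_cancel₀, one_mul]
  rw [← Nat.card_eq_fintype_card]; exact hNcard

end Pool.Agent.H302R2
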