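import Mathlib

/-!
# Gluing linear characters of Sylow subgroups
-/

set_option autoImplicit false

namespace Pool.Agent.H302R2

open MulAction Subgroup

variable {G : Type*} [Group G] [Finite G]

/-- A class function compatible with powers which is multiplicative on a subgroup `H` becomes
multiplicative after raising it to the power of the index of `H`. -/
lemma pow_index_mul (f : G → ℂˣ) (hconj : ∀ g h : G, f (h * g * h⁻¹) = f g)
    (hpow : ∀ (g : G) (n : ℕ), f (g ^ n) = f g ^ n) (H : Subgroup G)
    (hH : ∀ x ∈ H, ∀ y ∈ H, f (x * y) = f x * f y) (g h : G) :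
    f (g * h) ^ H.index = f g ^ H.index * f h ^ H.index := by
  classical
  have hone : f 1 = 1 := by
    have := hpow 1 0
    simpa using this
  let φ : H →* ℂˣ :=
    { toFun := fun x => f x
      map_one' := by simpa using hone
      map_mul' := fun x y => hH x x.2 y y.2 }
  have key : ∀ g : G, MonoidHom.transfer φ g = f g ^ H.index := by
    intro g
    have : Fintype (Quotient (orbitRel (zpowers g) (G ⧸ H))) := Fintype.ofFinite _
    have : Fintype (G ⧸ H) := Fintype.ofFinite _
    rw [MonoidHom.transfer_eq_prod_quotient_orbitRel_zpowers_quot, index_eq_sum_minimalPeriod H g,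
      ← Finset.prod_pow_eq_pow_sum]
    refine Finset.prod_congr rfl fun q _ => ?_
    change f (q.out.out⁻¹ * g ^ Function.minimalPeriod (g • ·) q.out * q.out.out) = _
    have := hconj (g ^ Function.minimalPeriod (g • ·) q.out) (q.out.out⁻¹)
    rw [inv_inv] at this
    rw [this, hpow]
  rw [← key, ← key, ← key, map_mul]

/-- A class function compatible with powers which is multiplicative on all subgroups of prime
power order is multiplicative. -/
theorem mul_of_pgroups (f : G → ℂˣ) (hconj : ∀ g h : G, f (h * g * h⁻¹) = f g)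
    (hpow : ∀ (g : G) (n : ℕ), f (g ^ n) = f g ^ n)
    (hp : ∀ (p : ℕ) (_ : p.Prime) (P : Subgroup G), IsPGroup p P →
      ∀ x ∈ P, ∀ y ∈ P, f (x * y) = f x * f y) (g h : G) :
    f (g * h) = f g * f h := by
  classical
  let A : AddSubgroup ℤ :=
    { carrier := {n | ∀ g h : G, f (g * h) ^ n = f g ^ n * f h ^ n}
      zero_mem' := by intro g h; simp
      add_mem' := by
        intro a b ha hb g h
        rw [zpow_add, zpow_add, zpow_add, ha g h, hb g h, mul_mul_mul_comm]
      neg_mem' := by
        intro a ha g h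
        rw [zpow_neg, zpow_neg, zpow_neg, ha g h, mul_inv] }
  obtain ⟨n, hn⟩ := Int.subgroup_cyclic A
  have hA : ∀ (p : ℕ) (_ : p.Prime), ∃ m : ℕ, (m : ℤ) ∈ A ∧ ¬ p ∣ m := by
    intro p hp'
    have : Fact p.Prime := ⟨hp'⟩
    obtain ⟨P⟩ : Nonempty (Sylow p G) := inferInstance
    refine ⟨(P : Subgroup G).index, ?_, P.not_dvd_index⟩
    intro g h
    rw [zpow_natCast, zpow_natCast, zpow_natCast]
    exact pow_index_mul f hconj hpow P (hp p hp' P P.isPGroup') g h
  have hn1 : n.natAbs = 1 := by
    by_contra hne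
    obtain ⟨p, hp', hpn⟩ := Nat.exists_prime_and_dvd hne
    obtain ⟨m, hm, hpm⟩ := hA p hp'
    apply hpm
    rw [hn, AddSubgroup.mem_closure_singleton] at hm
    obtain ⟨k, hk⟩ := hm
    have h1 : (p : ℤ) ∣ n := Int.natCast_dvd.mpr hpn
    have h2 : n ∣ (m : ℤ) := ⟨k, by rw [← hk, smul_eq_mul, mul_comm]⟩
    exact Int.natCast_dvd_natCast.mp (h1.trans h2)
  have h1 : (1 : ℤ) ∈ A := by
    rw [hn, AddSubgroup.mem_closure_singleton]
    rcases Int.natAbs_eq n with h | h
    · exact ⟨1, by rw [h, hn1]; simp⟩
    · exact ⟨-1, by rw [h, hn1]; simp⟩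
  have := h1 g h
  simpa using this

end Pool.Agent.H302R2
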