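import Mathlib
import Pool.Agent.H302R2.Basic
import Pool.Agent.H302R2.Index2
import Pool.Agent.H302R2.Transfer

/-!
# Heilbronn functions of degree one and two: local structure
-/

set_option autoImplicit false

namespace Pool.Agent.H302R2

universe u

section local_structure

/-- On a commutative group a Heilbronn function is a sum over a multiset of linear characters. -/
lemma IsHeilbronn.comm_multiset {E : Type*} [Group E] [Finite E] {θ : E → ℂ}
    (hθ : IsHeilbronn θ) (hc : ∀ a b : E, a * b = b * a) :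
    ∃ s : Multiset (E →* ℂˣ), ∀ e, θ e = (s.map (fun ψ => ((ψ e : ℂˣ) : ℂ))).sum := by
  classical
  obtain ⟨ι, _, ψ, n, h⟩ := hθ.comm_decomp hc
  refine ⟨∑ i, Multiset.replicate (n i) (ψ i), fun e => ?_⟩
  let F : Multiset (E →* ℂˣ) →+ ℂ :=
    (Multiset.sumAddMonoidHom).comp (Multiset.mapAddMonoidHom (fun ψ => ((ψ e : ℂˣ) : ℂ)))
  change θ e = F (∑ i, Multiset.replicate (n i) (ψ i))
  rw [h e, map_sum]
  refine Finset.sum_congr rfl fun i _ => ?_
  change _ = (Multiset.map (fun ψ => ((ψ e : ℂˣ) : ℂ)) (Multiset.replicate (n i) (ψ i))).sum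
  rw [Multiset.map_replicate, Multiset.sum_replicate, nsmul_eq_mul]

lemma IsHeilbronn.comm_one {E : Type*} [Group E] [Finite E] {θ : E → ℂ}
    (hθ : IsHeilbronn θ) (hc : ∀ a b : E, a * b = b * a) (h1 : θ 1 = 1) :
    ∃ ψ : E →* ℂˣ, ∀ e, θ e = (ψ e : ℂˣ) := by
  obtain ⟨s, hs⟩ := hθ.comm_multiset hc
  have h2 := hs 1
  simp only [map_one, Units.val_one, Multiset.map_const', Multiset.sum_replicate, nsmul_eq_mul,
    mul_one] at h2
  rw [h1] at h2
  have h3 : Multiset.card s = 1 := by exact_mod_cast h2.symm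
  obtain ⟨ψ, rfl⟩ := Multiset.card_eq_one.mp h3
  exact ⟨ψ, fun e => by rw [hs e]; simp⟩

lemma IsHeilbronn.comm_two {E : Type*} [Group E] [Finite E] {θ : E → ℂ}
    (hθ : IsHeilbronn θ) (hc : ∀ a b : E, a * b = b * a) (h1 : θ 1 = 2) :
    ∃ ψ φ : E →* ℂˣ, ∀ e, θ e = (ψ e : ℂˣ) + (φ e : ℂˣ) := by
  obtain ⟨s, hs⟩ := hθ.comm_multiset hc
  have h2 := hs 1
  simp only [map_one, Units.val_one, Multiset.map_const', Multiset.sum_replicate, nsmul_eq_mul,
    mul_one] at h2
  rw [h1] at h2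
  have h3 : Multiset.card s = 2 := by exact_mod_cast h2.symm
  obtain ⟨ψ, φ, rfl⟩ := Multiset.card_eq_two.mp h3
  exact ⟨ψ, φ, fun e => by rw [hs e]; simp⟩

lemma closure_pair_comm {G : Type*} [Group G] {x y : G} (hxy : x * y = y * x)
    (a b : Subgroup.closure ({x, y} : Set G)) : a * b = b * a := by
  have hcomm : ∀ a ∈ ({x, y} : Set G), ∀ b ∈ ({x, y} : Set G), a * b = b * a := by
    intro a ha b hb
    rcases ha with rfl | ha <;> rcases hb with rfl | hb
    · rfl
    · rw [Set.mem_singleton_iff.mp hb]; exact hxy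
    · rw [Set.mem_singleton_iff.mp ha]; exact hxy.symm
    · rw [Set.mem_singleton_iff.mp ha, Set.mem_singleton_iff.mp hb]
  have hcm := Subgroup.isMulCommutative_closure hcomm
  exact hcm.is_comm.comm a b

variable {G : Type*} [Group G] [Finite G] {θ : G → ℂ}

/-- Decomposition of a degree two Heilbronn function on the subgroup generated by two commuting
elements. -/
lemma IsHeilbronn.pair_two (hθ : IsHeilbronn θ) (h1 : θ 1 = 2) {x y : G} (hxy : x * y = y * x) :
    ∃ (H : Subgroup G) (ψ φ : H →* ℂˣ), ∃ (_ : x ∈ H) (_ : y ∈ H),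
      ∀ e : H, θ e = (ψ e : ℂˣ) + (φ e : ℂˣ) := by
  obtain ⟨ψ, φ, h⟩ := (hθ.comp (Subgroup.closure ({x, y} : Set G)).subtype).comm_two
    (closure_pair_comm hxy) (by simpa using h1)
  exact ⟨_, ψ, φ, Subgroup.subset_closure (by simp), Subgroup.subset_closure (by simp), h⟩

lemma IsHeilbronn.pair_one (hθ : IsHeilbronn θ) (h1 : θ 1 = 1) {x y : G} (hxy : x * y = y * x) :
    ∃ (H : Subgroup G) (ψ : H →* ℂˣ), ∃ (_ : x ∈ H) (_ : y ∈ H),
      ∀ e : H, θ e = (ψ e : ℂˣ) := by
  obtain ⟨ψ, h⟩ := (hθ.comp (Subgroup.closure ({x, y} : Set G)).subtype).comm_one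
    (closure_pair_comm hxy) (by simpa using h1)
  exact ⟨_, ψ, Subgroup.subset_closure (by simp), Subgroup.subset_closure (by simp), h⟩

lemma norm_char {E : Type*} [Group E] [Finite E] (ψ : E →* ℂˣ) (e : E) :
    ‖((ψ e : ℂˣ) : ℂ)‖ = 1 := by
  have h1 : ((ψ e : ℂˣ) : ℂ) ^ (Nat.card E) = 1 := by
    rw [← Units.val_pow_eq_pow_val, ← map_pow, pow_card_eq_one', map_one, Units.val_one]
  exact Complex.norm_eq_one_of_pow_eq_one h1 Nat.card_pos.ne'

/-- degree one: multiplicativity on commuting elements -/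
lemma IsHeilbronn.one_comm_mul (hθ : IsHeilbronn θ) (h1 : θ 1 = 1) {x y : G}
    (hxy : x * y = y * x) : θ (x * y) = θ x * θ y := by
  obtain ⟨H, ψ, hx, hy, h⟩ := hθ.pair_one h1 hxy
  have ha := h ⟨x, hx⟩
  have hb := h ⟨y, hy⟩
  have hc := h (⟨x, hx⟩ * ⟨y, hy⟩)
  simp only [Subgroup.coe_mul, map_mul, Units.val_mul] at ha hb hc
  rw [ha, hb, hc]

lemma IsHeilbronn.one_norm (hθ : IsHeilbronn θ) (h1 : θ 1 = 1) (x : G) : ‖θ x‖ = 1 := by
  obtain ⟨H, ψ, hx, hy, h⟩ := hθ.pair_one h1 (x := x) (y := x) rfl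
  have ha := h ⟨x, hx⟩
  simp only at ha
  rw [ha]
  exact norm_char ψ _

/-- Local facts for a degree two Heilbronn function: pairs of commuting elements. -/
lemma IsHeilbronn.two_pair (hθ : IsHeilbronn θ) (h1 : θ 1 = 2) {x y : G} (hxy : x * y = y * x) :
    ∃ a b c d : ℂ, ‖a‖ = 1 ∧ ‖b‖ = 1 ∧ ‖c‖ = 1 ∧ ‖d‖ = 1 ∧
      ∀ i j : ℤ, θ (x ^ i * y ^ j) = a ^ i * c ^ j + b ^ i * d ^ j := by
  obtain ⟨H, ψ, φ, hx, hy, h⟩ := hθ.pair_two h1 hxy
  refine ⟨(ψ ⟨x, hx⟩ : ℂˣ), (φ ⟨x, hx⟩ : ℂˣ), (ψ ⟨y, hy⟩ : ℂˣ), (φ ⟨y, hy⟩ : ℂˣ),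
    norm_char _ _, norm_char _ _, norm_char _ _, norm_char _ _, fun i j => ?_⟩
  have := h (⟨x, hx⟩ ^ i * ⟨y, hy⟩ ^ j)
  simp only [Subgroup.coe_mul, SubgroupClass.coe_zpow, map_mul, map_zpow, Units.val_mul,
    Units.val_zpow_eq_zpow_val] at this
  exact this

end local_structure

section pgroup_one

/-- In a nonabelian finite `p`-group there are `x, h` whose commutator is nontrivial, with `x`
central modulo the center. -/
lemma exists_second_center {P : Type u} [Group P] [Finite P] {p : ℕ} [Fact p.Prime]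
    (hP : IsPGroup p P) (hnc : ¬ ∀ a b : P, a * b = b * a) :
    ∃ x : P, (∃ h : P, x * h ≠ h * x) ∧ ∀ h : P, x⁻¹ * h⁻¹ * x * h ∈ Subgroup.center P := by
  have hQ : IsPGroup p (P ⧸ Subgroup.center P) := hP.to_quotient _
  have hnt : Nontrivial (P ⧸ Subgroup.center P) := by
    rw [QuotientGroup.nontrivial_iff]
    intro h
    apply hnc
    intro a b
    have : a ∈ Subgroup.center P := by rw [h]; trivial
    exact ((Subgroup.mem_center_iff.mp this) b).symm
  have := hQ.center_nontrivial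
  obtain ⟨q, hq⟩ := exists_ne (1 : Subgroup.center (P ⧸ Subgroup.center P))
  obtain ⟨x, hx⟩ := QuotientGroup.mk_surjective (q : P ⧸ Subgroup.center P)
  refine ⟨x, ?_, fun h => ?_⟩
  · by_contra hcon
    push Not at hcon
    apply hq
    have hxc : x ∈ Subgroup.center P := Subgroup.mem_center_iff.mpr fun g => (hcon g).symm
    apply Subtype.ext
    rw [← hx]
    exact (QuotientGroup.eq_one_iff x).mpr hxc
  · rw [← QuotientGroup.eq_one_iff]
    have h1 := Subgroup.mem_center_iff.mp q.2 (h : P ⧸ Subgroup.center P)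
    rw [← hx] at h1
    rw [QuotientGroup.mk_mul, QuotientGroup.mk_mul, QuotientGroup.mk_mul, QuotientGroup.mk_inv,
      QuotientGroup.mk_inv, mul_assoc, ← h1]
    group

/-- quotient by a cyclic central subgroup -/
lemma zpowers_normal_of_center {P : Type u} [Group P] {c : P} (hc : c ∈ Subgroup.center P) :
    (Subgroup.zpowers c).Normal := by
  constructor
  rintro _ ⟨k, rfl⟩ y
  refine ⟨k, ?_⟩
  have : Commute y (c ^ k) := (show Commute y c from Subgroup.mem_center_iff.mp hc y).zpow_right k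
  simp only
  rw [this.eq, mul_inv_cancel_right]

lemma card_quotient_zpowers_lt {P : Type u} [Group P] [Finite P] {c : P} (hc : c ≠ 1) :
    Nat.card (P ⧸ Subgroup.zpowers c) < Nat.card P := by
  rw [Subgroup.card_eq_card_quotient_mul_card_subgroup (Subgroup.zpowers c)]
  have : 1 < Nat.card (Subgroup.zpowers c) := by
    rw [Nat.card_zpowers]
    have h1 : orderOf c ≠ 1 := by rw [ne_eq, orderOf_eq_one_iff]; exact hc
    have h2 := orderOf_pos c
    omega
  have h3 : 0 < Nat.card (P ⧸ Subgroup.zpowers c) := Nat.card_pos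
  nlinarith

lemma one_pgroup {p : ℕ} [Fact p.Prime] : ∀ (N : ℕ) (P : Type u) [Group P] [Finite P],
    Nat.card P = N → IsPGroup p P → ∀ (θ : P → ℂ) (_ : IsHeilbronn θ) (_ : θ 1 = 1),
      ∀ g h, θ (g * h) = θ g * θ h := by
  intro N
  induction N using Nat.strong_induction_on with
  | _ N ih =>
    intro P _ _ hPN hP θ hθ h1 g h
    by_cases hnc : ∀ a b : P, a * b = b * a
    · exact hθ.one_comm_mul h1 (hnc g h)
    obtain ⟨x, ⟨y, hy⟩, hx⟩ := exists_second_center hP hnc
    set c := x⁻¹ * y⁻¹ * x * y with hc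
    have hcz := hx y
    rw [← hc] at hcz
    have hc1 : c ≠ 1 := by
      intro h
      apply hy
      rw [hc, mul_assoc, mul_eq_one_iff_eq_inv] at h
      have : x * y = y * x := by
        rw [← mul_inv_rev] at h
        have := congrArg (·⁻¹) h
        simp only [inv_inv] at this
        exact this.symm
      exact this
    have hxc : θ (x * c) = θ x := by
      have : x * c = y⁻¹ * x * (y⁻¹)⁻¹ := by rw [hc]; group
      rw [this, hθ.conj]
    have hcc : x * c = c * x := Subgroup.mem_center_iff.mp hcz x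
    rw [hθ.one_comm_mul h1 hcc] at hxc
    have hx0 : θ x ≠ 0 := by
      rw [← norm_ne_zero_iff, hθ.one_norm h1]; norm_num
    have hθc : θ c = 1 := by
      apply mul_left_cancel₀ hx0
      rw [hxc, mul_one]
    have hN := zpowers_normal_of_center hcz
    have hZθ : ∀ y : P, ∀ n ∈ Subgroup.zpowers c, θ (y * n) = θ y := by
      rintro y _ ⟨k, rfl⟩
      have hcomm : Commute y c := Subgroup.mem_center_iff.mp hcz y
      simp only
      have hk : ∀ k : ℕ, θ (y * c ^ k) = θ y := by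
        intro k
        induction k with
        | zero => simp
        | succ k ih =>
          have h2 : Commute (y * c ^ k) c := by
            exact (hcomm.mul_left ((Commute.refl c).pow_left k))
          rw [pow_succ, ← mul_assoc, hθ.one_comm_mul h1 h2.eq, ih, hθc, mul_one]
      obtain ⟨m, hm⟩ : ∃ m : ℕ, c ^ k = c ^ m := by
        have : c ^ k ∈ Submonoid.powers c := by
          rw [mem_powers_iff_mem_zpowers]; exact ⟨k, rfl⟩
        obtain ⟨m, hm⟩ := this
        exact ⟨m, hm.symm⟩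
      rw [hm, hk]
    have key := ih _ (by rw [← hPN]; exact card_quotient_zpowers_lt hc1) (P ⧸ Subgroup.zpowers c)
      rfl (hP.to_quotient _) (descend _ θ) (hθ.descend _ hZθ)
      (by rw [← QuotientGroup.mk_one, descend_mk hZθ, h1]) (g : P ⧸ Subgroup.zpowers c) h
    rwa [← QuotientGroup.mk_mul, descend_mk hZθ, descend_mk hZθ, descend_mk hZθ] at key

/-- A Heilbronn function of degree one is a linear character. -/
theorem IsHeilbronn.deg_one {G : Type u} [Group G] [Finite G] {θ : G → ℂ} (hθ : IsHeilbronn θ)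
    (h1 : θ 1 = 1) : ∃ ψ : G →* ℂˣ, ∀ g, θ g = (ψ g : ℂˣ) := by
  have hne : ∀ g, θ g ≠ 0 := fun g => by
    rw [← norm_ne_zero_iff, hθ.one_norm h1]; norm_num
  let f : G → ℂˣ := fun g => Units.mk0 (θ g) (hne g)
  have hf : ∀ g h, f (g * h) = f g * f h := by
    apply mul_of_pgroups
    · intro g h
      apply Units.ext
      exact hθ.conj g h
    · intro g n
      induction n with
      | zero => apply Units.ext; simp [f, h1]
      | succ n ih =>
        rw [pow_succ, pow_succ, ← ih]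
        apply Units.ext
        exact hθ.one_comm_mul h1 ((Commute.refl g).pow_left n).eq
    · intro p hp P hP x hx y hy
      have : Fact p.Prime := ⟨hp⟩
      apply Units.ext
      exact one_pgroup (p := p) (Nat.card P) P rfl hP (fun x => θ x) (hθ.comp P.subtype)
        h1 ⟨x, hx⟩ ⟨y, hy⟩
  refine ⟨{ toFun := f, map_one' := ?_, map_mul' := hf }, fun g => rfl⟩
  apply Units.ext
  exact h1

end pgroup_one

end Pool.Agent.H302R2
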