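import Mathlib
import Pool.Agent.H302R2.Deg2A

/-!
# Heilbronn functions of degree two: splitting at a central element
-/

set_option autoImplicit false

namespace Pool.Agent.H302R2

universe u

/-- the local determinant -/
noncomputable def dd {G : Type*} [Group G] (θ : G → ℂ) (g : G) : ℂ := (θ g ^ 2 - θ (g ^ 2)) / 2

lemma norm_avg_eq {a b ζ : ℂ} (ha : ‖a‖ = 1) (hb : ‖b‖ = 1) (hζ : ‖ζ‖ = 1) (h : a + b = 2 * ζ) :
    a = ζ ∧ b = ζ := by
  have ha0 : a ≠ 0 := by rw [← norm_ne_zero_iff, ha]; norm_num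
  have hb0 : b ≠ 0 := by rw [← norm_ne_zero_iff, hb]; norm_num
  have hζ0 : ζ ≠ 0 := by rw [← norm_ne_zero_iff, hζ]; norm_num
  have hinv : a⁻¹ + b⁻¹ = 2 * ζ⁻¹ := by
    rw [Complex.inv_eq_conj ha, Complex.inv_eq_conj hb, Complex.inv_eq_conj hζ, ← map_add, h,
      map_mul, Complex.conj_ofNat]
  have hab : a * b = ζ ^ 2 := by
    field_simp at hinv
    have h2 : ζ * (a + b) = 2 * (a * b) := by linear_combination hinv
    rw [h] at h2
    linear_combination -(h2 / 2)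
  have hsq : (a - ζ) ^ 2 = 0 := by
    have : b = 2 * ζ - a := by rw [← h]; ring
    rw [this] at hab
    linear_combination -hab
  have h1 : a = ζ := sub_eq_zero.mp (pow_eq_zero_iff two_ne_zero |>.mp hsq)
  exact ⟨h1, by rw [h1] at h; linear_combination h⟩

lemma pair_eq_of_sum_prod {a b c d : ℂ} (hs : c + d = a + b) (hp : c * d = a * b) :
    (c = a ∧ d = b) ∨ (c = b ∧ d = a) := by
  have : (c - a) * (c - b) = 0 := by
    have : d = a + b - c := by rw [← hs]; ring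
    rw [this] at hp
    linear_combination -hp
  rcases mul_eq_zero.mp this with h | h
  · left
    have h1 := sub_eq_zero.mp h
    exact ⟨h1, by rw [h1] at hs; linear_combination hs⟩
  · right
    have h1 := sub_eq_zero.mp h
    exact ⟨h1, by rw [h1] at hs; linear_combination hs⟩

section

variable {G : Type*} [Group G] [Finite G] {θ : G → ℂ}

lemma IsHeilbronn.dd_conj (hθ : IsHeilbronn θ) (g h : G) : dd θ (h * g * h⁻¹) = dd θ g := by
  unfold dd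
  rw [hθ.conj, show (h * g * h⁻¹) ^ 2 = h * g ^ 2 * h⁻¹ by rw [sq, sq]; group, hθ.conj]

lemma IsHeilbronn.dd_facts (hθ : IsHeilbronn θ) (h1 : θ 1 = 2) {x y : G} (hxy : x * y = y * x) :
    ∃ a b c d : ℂ, ‖a‖ = 1 ∧ ‖b‖ = 1 ∧ ‖c‖ = 1 ∧ ‖d‖ = 1 ∧ dd θ x = a * b ∧ dd θ y = c * d ∧
      (∀ i j : ℤ, dd θ (x ^ i * y ^ j) = (a * b) ^ i * (c * d) ^ j) ∧
      ∀ i j : ℤ, θ (x ^ i * y ^ j) = a ^ i * c ^ j + b ^ i * d ^ j := by
  obtain ⟨a, b, c, d, ha, hb, hc, hd, h⟩ := hθ.two_pair h1 hxy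
  have ha0 : a ≠ 0 := by rw [← norm_ne_zero_iff, ha]; norm_num
  have hb0 : b ≠ 0 := by rw [← norm_ne_zero_iff, hb]; norm_num
  have hc0 : c ≠ 0 := by rw [← norm_ne_zero_iff, hc]; norm_num
  have hd0 : d ≠ 0 := by rw [← norm_ne_zero_iff, hd]; norm_num
  have key : ∀ i j : ℤ, dd θ (x ^ i * y ^ j) = (a * b) ^ i * (c * d) ^ j := by
    intro i j
    have hsq : (x ^ i * y ^ j) ^ 2 = x ^ (2 * i) * y ^ (2 * j) := by
      have hc : Commute (x ^ i) (y ^ j) := (show Commute x y from hxy).zpow_zpow i j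
      rw [hc.mul_pow, ← zpow_natCast, ← zpow_natCast, ← zpow_mul, ← zpow_mul]
      congr 2 <;> ring
    unfold dd
    rw [hsq, h, h, mul_comm 2 i, mul_comm 2 j, zpow_mul, zpow_mul, zpow_mul, zpow_mul, mul_zpow,
      mul_zpow]
    norm_cast
    ring
  refine ⟨a, b, c, d, ha, hb, hc, hd, ?_, ?_, key, h⟩
  · simpa using key 1 0
  · simpa using key 0 1

lemma IsHeilbronn.dd_mul (hθ : IsHeilbronn θ) (h1 : θ 1 = 2) {x y : G} (hxy : x * y = y * x) :
    dd θ (x * y) = dd θ x * dd θ y := by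
  obtain ⟨a, b, c, d, -, -, -, -, hx, hy, h, -⟩ := hθ.dd_facts h1 hxy
  have := h 1 1
  simp only [zpow_one] at this
  rw [this, hx, hy]

lemma IsHeilbronn.dd_norm (hθ : IsHeilbronn θ) (h1 : θ 1 = 2) (x : G) : ‖dd θ x‖ = 1 := by
  obtain ⟨a, b, c, d, ha, hb, -, -, hx, hy, h, -⟩ := hθ.dd_facts h1 (x := x) (y := x) rfl
  rw [hx, norm_mul, ha, hb, mul_one]

lemma dd_one (h1 : θ 1 = 2) : dd θ 1 = 1 := by
  unfold dd
  rw [one_pow, h1]; norm_num

/-- The value at an element in terms of two eigenvalues. -/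
lemma IsHeilbronn.two_eig (hθ : IsHeilbronn θ) (h1 : θ 1 = 2) (x : G) :
    ∃ a b : ℂ, ‖a‖ = 1 ∧ ‖b‖ = 1 ∧ dd θ x = a * b ∧ θ x = a + b ∧
      ∀ i : ℤ, θ (x ^ i) = a ^ i + b ^ i := by
  obtain ⟨a, b, c, d, ha, hb, -, -, hx, hy, -, h⟩ := hθ.dd_facts h1 (x := x) (y := 1) (by simp)
  refine ⟨a, b, ha, hb, hx, ?_, fun i => ?_⟩
  · simpa using h 1 0
  · simpa using h i 0

/-- multiplication by a commuting scalar element -/
lemma IsHeilbronn.two_scalar (hθ : IsHeilbronn θ) (h1 : θ 1 = 2) {x z : G} (hxz : x * z = z * x)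
    {ζ : ℂ} (hζ : ‖ζ‖ = 1) (hz : θ z = 2 * ζ) : θ (x * z) = ζ * θ x := by
  obtain ⟨a, b, c, d, ha, hb, hc, hd, hx, hy, -, h⟩ := hθ.dd_facts h1 hxz
  have h2 := h 0 1
  have h3 := h 1 1
  have h4 := h 1 0
  simp only [zpow_zero, zpow_one, one_mul, mul_one] at h2 h3 h4
  rw [hz] at h2
  obtain ⟨rfl, rfl⟩ := norm_avg_eq hc hd hζ h2.symm
  rw [h3, h4]; ring

/-- the first half of the splitting -/
lemma IsHeilbronn.split_aux (hθ : IsHeilbronn θ) (h1 : θ 1 = 2) {z : G}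
    (hz : ∀ g : G, g * z = z * g) {a b : ℂ} (hab : a ≠ b) (hs : θ z = a + b)
    (hp : dd θ z = a * b) :
    IsHeilbronn (fun g => (θ (g * z) - b * θ g) / (a - b)) ∧
      (θ (1 * z) - b * θ 1) / (a - b) = 1 := by
  classical
  have hab' : a - b ≠ 0 := sub_ne_zero.mpr hab
  refine ⟨⟨fun g h => ?_, fun H χ => ?_⟩, ?_⟩
  · rw [hθ.conj, show h * g * h⁻¹ * z = h * (g * z) * h⁻¹ by
      rw [mul_assoc _ h⁻¹, hz h⁻¹]; group, hθ.conj]
  · have : Fintype H := Fintype.ofFinite _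
    have : Fintype (Subgroup.zpowers z) := Fintype.ofFinite _
    -- characters of the cyclic group
    obtain ⟨ψ, φ, hψφ, hψ, hφ⟩ : ∃ ψ φ : Subgroup.zpowers z →* ℂˣ,
        (∀ w : Subgroup.zpowers z, θ w = (ψ w : ℂˣ) + (φ w : ℂˣ)) ∧
        ((ψ ⟨z, Subgroup.mem_zpowers z⟩ : ℂˣ) : ℂ) = a ∧
        ((φ ⟨z, Subgroup.mem_zpowers z⟩ : ℂˣ) : ℂ) = b := by
      obtain ⟨ψ, φ, h⟩ := (hθ.comp (Subgroup.zpowers z).subtype).comm_two (zpowers_comm z)
        (by simpa using h1)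
      simp only [Subgroup.coe_subtype] at h
      have h2 := h ⟨z, Subgroup.mem_zpowers z⟩
      have h3 := h (⟨z, Subgroup.mem_zpowers z⟩ ^ 2)
      simp only [SubmonoidClass.coe_pow, map_pow, Units.val_pow_eq_pow_val] at h2 h3
      have h4 : dd θ z = ((ψ ⟨z, Subgroup.mem_zpowers z⟩ : ℂˣ) : ℂ) *
          ((φ ⟨z, Subgroup.mem_zpowers z⟩ : ℂˣ) : ℂ) := by
        unfold dd
        rw [h2, h3]; ring
      rcases pair_eq_of_sum_prod (h2.symm.trans hs) (h4.symm.trans hp) with ⟨h5, h6⟩ | ⟨h5, h6⟩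
      · exact ⟨ψ, φ, h, h5, h6⟩
      · exact ⟨φ, ψ, fun w => by rw [h w, add_comm], h6, h5⟩
    let π : H × Subgroup.zpowers z →* G :=
      { toFun := fun e => e.1 * e.2
        map_one' := by simp
        map_mul' := by
          rintro ⟨h, _, k, rfl⟩ ⟨h', _, l, rfl⟩
          simp only [Prod.mk_mul_mk, Subgroup.coe_mul]
          have hc : Commute (h' : G) (z ^ k) := (show Commute (h' : G) z from hz h').zpow_right k
          rw [mul_assoc, mul_assoc]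
          congr 1
          rw [← mul_assoc, ← mul_assoc, hc.eq] }
    let χ' : H × Subgroup.zpowers z →* ℂˣ :=
      (χ.comp (MonoidHom.fst _ _)) * (ψ.comp (MonoidHom.snd _ _))
    obtain ⟨n, hn⟩ := hθ.mult_hom π χ'
    refine ⟨n, ?_⟩
    rw [finsum_eq_sum_of_fintype]
    have hval : ∀ (h : H) (w : Subgroup.zpowers z), θ (h * w)
        = (θ (h * z) - b * θ h) / (a - b) * (ψ w : ℂˣ)
          + (a * θ h - θ (h * z)) / (a - b) * (φ w : ℂˣ) := by
      rintro h ⟨_, k, rfl⟩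
      obtain ⟨a', b', c, d, -, -, -, -, -, hy, -, h2⟩ := hθ.dd_facts h1 (hz (h : G))
      have e1 := h2 0 1
      have e2 := h2 1 1
      have e3 := h2 1 0
      have e4 := h2 1 k
      simp only [zpow_zero, zpow_one, one_mul, mul_one] at e1 e2 e3 e4
      have hψk : ((ψ ⟨z ^ k, ⟨k, rfl⟩⟩ : ℂˣ) : ℂ) = a ^ k := by
        have : (⟨z ^ k, ⟨k, rfl⟩⟩ : Subgroup.zpowers z) = ⟨z, Subgroup.mem_zpowers z⟩ ^ k := by
          apply Subtype.ext; simp
        rw [this, map_zpow, Units.val_zpow_eq_zpow_val, hψ]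
      have hφk : ((φ ⟨z ^ k, ⟨k, rfl⟩⟩ : ℂˣ) : ℂ) = b ^ k := by
        have : (⟨z ^ k, ⟨k, rfl⟩⟩ : Subgroup.zpowers z) = ⟨z, Subgroup.mem_zpowers z⟩ ^ k := by
          apply Subtype.ext; simp
        rw [this, map_zpow, Units.val_zpow_eq_zpow_val, hφ]
      simp only [hψk, hφk]
      rw [e2, e3, e4]
      rcases pair_eq_of_sum_prod (e1.symm.trans hs) (hy.symm.trans hp) with ⟨rfl, rfl⟩ | ⟨rfl, rfl⟩
      · field_simp; ring
      · field_simp; ring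
    have hzero : ∑ w : Subgroup.zpowers z, ((φ w : ℂˣ) : ℂ) * (((ψ w)⁻¹ : ℂˣ) : ℂ) = 0 := by
      let w₀ : Subgroup.zpowers z := ⟨z, Subgroup.mem_zpowers z⟩
      have ha0 : a ≠ 0 := by rw [← hψ]; exact Units.ne_zero _
      have e1 : ∑ w : Subgroup.zpowers z, ((φ w : ℂˣ) : ℂ) * (((ψ w)⁻¹ : ℂˣ) : ℂ)
          = ∑ w : Subgroup.zpowers z, ((φ (w * w₀) : ℂˣ) : ℂ) * (((ψ (w * w₀))⁻¹ : ℂˣ) : ℂ) :=
        (Equiv.sum_comp (Equiv.mulRight w₀)
          (fun w => ((φ w : ℂˣ) : ℂ) * (((ψ w)⁻¹ : ℂˣ) : ℂ))).symm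
      have e2 : ∑ w : Subgroup.zpowers z, ((φ (w * w₀) : ℂˣ) : ℂ) * (((ψ (w * w₀))⁻¹ : ℂˣ) : ℂ)
          = (b * a⁻¹) * ∑ w : Subgroup.zpowers z, ((φ w : ℂˣ) : ℂ) * (((ψ w)⁻¹ : ℂˣ) : ℂ) := by
        rw [Finset.mul_sum]
        refine Finset.sum_congr rfl fun w _ => ?_
        rw [map_mul, map_mul, mul_inv]
        push_cast
        rw [hψ, hφ]; ring
      have e3 : (1 - b * a⁻¹) * ∑ w : Subgroup.zpowers z,
          ((φ w : ℂˣ) : ℂ) * (((ψ w)⁻¹ : ℂˣ) : ℂ) = 0 := by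
        rw [sub_mul, one_mul, ← e2, ← e1, sub_self]
      rcases mul_eq_zero.mp e3 with e4 | e4
      · exfalso
        apply hab
        field_simp at e4
        linear_combination e4
      · exact e4
    have hcard : (Nat.card (Subgroup.zpowers z) : ℂ) ≠ 0 := by exact_mod_cast Nat.card_pos.ne'
    have hsum : ∑ e : H × Subgroup.zpowers z, θ (π e) * (((χ' e)⁻¹ : ℂˣ) : ℂ)
        = (Nat.card (Subgroup.zpowers z) : ℂ) *
          ∑ h : H, (θ (h * z) - b * θ h) / (a - b) * (((χ h)⁻¹ : ℂˣ) : ℂ) := by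
      rw [Fintype.sum_prod_type, Finset.mul_sum]
      refine Finset.sum_congr rfl fun h _ => ?_
      have e1 : ∀ w : Subgroup.zpowers z, θ (π (h, w)) * (((χ' (h, w))⁻¹ : ℂˣ) : ℂ)
          = (θ (h * z) - b * θ h) / (a - b) * (((χ h)⁻¹ : ℂˣ) : ℂ)
            + (a * θ h - θ (h * z)) / (a - b) * (((χ h)⁻¹ : ℂˣ) : ℂ) *
              (((φ w : ℂˣ) : ℂ) * (((ψ w)⁻¹ : ℂˣ) : ℂ)) := by
        intro w
        change θ (h * w) * (((χ h * ψ w)⁻¹ : ℂˣ) : ℂ) = _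
        rw [hval h w, mul_inv]
        have : ((ψ w : ℂˣ) : ℂ) ≠ 0 := Units.ne_zero _
        push_cast
        field_simp
      rw [Finset.sum_congr rfl (fun w _ => e1 w), Finset.sum_add_distrib,
        ← Finset.mul_sum Finset.univ (fun w => ((φ w : ℂˣ) : ℂ) * (((ψ w)⁻¹ : ℂˣ) : ℂ)), hzero,
        mul_zero, add_zero, Finset.sum_const, Finset.card_univ, nsmul_eq_mul,
        Nat.card_eq_fintype_card]
    rw [hsum, Nat.card_prod] at hn
    apply mul_left_cancel₀ hcard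
    rw [hn]; push_cast; ring
  · rw [one_mul, h1, hs]
    field_simp; ring

end

/-- Splitting of a degree two Heilbronn function at a central element with distinct
eigenvalues. -/
theorem IsHeilbronn.split {G : Type u} [Group G] [Finite G] {θ : G → ℂ} (hθ : IsHeilbronn θ)
    (h1 : θ 1 = 2) {z : G} (hz : ∀ g : G, g * z = z * g) {a b : ℂ} (hab : a ≠ b)
    (hs : θ z = a + b) (hp : dd θ z = a * b) :
    ∃ ψ φ : G →* ℂˣ, (∀ g, θ g = (ψ g : ℂˣ) + (φ g : ℂˣ)) ∧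
      ∀ g, ((ψ g : ℂˣ) : ℂ) = (θ (g * z) - b * θ g) / (a - b) := by
  have h2 := hθ.split_aux h1 hz hab hs hp
  have h3 := hθ.split_aux h1 hz hab.symm (by rw [hs, add_comm]) (by rw [hp, mul_comm])
  obtain ⟨ψ, hψ⟩ := h2.1.deg_one h2.2
  obtain ⟨φ, hφ⟩ := h3.1.deg_one h3.2
  refine ⟨ψ, φ, fun g => ?_, fun g => (hψ g).symm⟩
  rw [← hψ, ← hφ]
  have h4 : a - b ≠ 0 := sub_ne_zero.mpr hab
  have h5 : b - a ≠ 0 := sub_ne_zero.mpr hab.symm
  have h6 : b - a = -(a - b) := by ring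
  rw [h6, div_neg]
  field_simp
  ring

end Pool.Agent.H302R2
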