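import Mathlib
import Pool.Agent.H302R2.Deg2B

/-!
# The determinant of a Heilbronn function of degree two
-/

set_option autoImplicit false

namespace Pool.Agent.H302R2

universe u

/-- If a degree two function is a sum of two linear characters, its local determinant is
multiplicative. -/
lemma dd_of_sum {G : Type u} [Group G] {θ : G → ℂ} {ψ φ : G →* ℂˣ}
    (h : ∀ g, θ g = (ψ g : ℂˣ) + (φ g : ℂˣ)) (g : G) :
    dd θ g = ((ψ g : ℂˣ) : ℂ) * ((φ g : ℂˣ) : ℂ) := by
  unfold dd
  rw [h, h, map_pow, map_pow]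
  push_cast
  ring

lemma two_pgroup {p : ℕ} [Fact p.Prime] : ∀ (N : ℕ) (P : Type u) [Group P] [Finite P],
    Nat.card P = N → IsPGroup p P → ∀ (θ : P → ℂ) (_ : IsHeilbronn θ) (_ : θ 1 = 2),
      ∀ g h, dd θ (g * h) = dd θ g * dd θ h := by
  intro N
  induction N using Nat.strong_induction_on with
  | _ N ih =>
    intro P _ _ hPN hP θ hθ h1 g₀ h₀
    by_cases hnc : ∀ a b : P, a * b = b * a
    · exact hθ.dd_mul h1 (hnc g₀ h₀)
    by_cases hA : ∃ c ∈ Subgroup.center P, c ≠ 1 ∧ θ c = 2
    · -- descend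
      obtain ⟨c, hcz, hc1, hc⟩ := hA
      have hN := zpowers_normal_of_center hcz
      have hZθ : ∀ y : P, ∀ n ∈ Subgroup.zpowers c, θ (y * n) = θ y := by
        rintro y _ ⟨k, rfl⟩
        have hcomm : Commute y c := Subgroup.mem_center_iff.mp hcz y
        obtain ⟨m, hm⟩ : ∃ m : ℕ, c ^ k = c ^ m := by
          have : c ^ k ∈ Submonoid.powers c := by
            rw [mem_powers_iff_mem_zpowers]; exact ⟨k, rfl⟩
          obtain ⟨m, hm⟩ := this
          exact ⟨m, hm.symm⟩
        simp only
        rw [hm]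
        exact hθ.mul_of_comm (hcomm.pow_right m).eq (hθ.pow_of_eq (by rw [hc, h1]) m)
      have hdd : ∀ g : P, dd (descend (Subgroup.zpowers c) θ) (g : P ⧸ Subgroup.zpowers c)
          = dd θ g := by
        intro g
        unfold dd
        rw [← QuotientGroup.mk_pow, descend_mk hZθ, descend_mk hZθ]
      have key := ih _ (by rw [← hPN]; exact card_quotient_zpowers_lt hc1)
        (P ⧸ Subgroup.zpowers c)
        rfl (hP.to_quotient _) (descend _ θ) (hθ.descend _ hZθ)
        (by rw [← QuotientGroup.mk_one, descend_mk hZθ, h1]) (g₀ : P ⧸ Subgroup.zpowers c) h₀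
      rwa [← QuotientGroup.mk_mul, hdd, hdd, hdd] at key
    by_cases hB : ∃ c ∈ Subgroup.center P, ∃ a b : ℂ, a ≠ b ∧ θ c = a + b ∧ dd θ c = a * b
    · obtain ⟨c, hcz, a, b, hab, hs, hp⟩ := hB
      obtain ⟨ψ, φ, h, -⟩ := hθ.split h1 (Subgroup.mem_center_iff.mp hcz) hab hs hp
      rw [dd_of_sum h, dd_of_sum h, dd_of_sum h, map_mul, map_mul]
      push_cast; ring
    push Not at hA hB
    have hC : ∀ c ∈ Subgroup.center P, ∃ ζ : ℂ, ‖ζ‖ = 1 ∧ θ c = 2 * ζ := by
      intro c hc
      obtain ⟨a, b, ha, hb, hp, hs, -⟩ := hθ.two_eig h1 c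
      have hab : a = b := by
        by_contra hab
        exact hB c hc a b hab hs hp
      exact ⟨a, ha, by rw [hs, hab]; ring⟩
    obtain ⟨x, ⟨y₀, hy₀⟩, hx⟩ := exists_second_center hP hnc
    -- θ is invariant
    have hconjx : ∀ h : P, θ (x * (x⁻¹ * h⁻¹ * x * h)) = θ x := by
      intro h
      have : x * (x⁻¹ * h⁻¹ * x * h) = h⁻¹ * x * (h⁻¹)⁻¹ := by group
      rw [this, hθ.conj]
    set c := x⁻¹ * y₀⁻¹ * x * y₀ with hc
    have hcz : c ∈ Subgroup.center P := hx y₀
    have hc1 : c ≠ 1 := by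
      intro h
      apply hy₀
      rw [hc, mul_assoc, mul_eq_one_iff_eq_inv, ← mul_inv_rev] at h
      have := congrArg (·⁻¹) h
      simp only [inv_inv] at this
      exact this.symm
    have hscal : ∀ e ∈ Subgroup.center P, ∀ ζ : ℂ, ‖ζ‖ = 1 → θ e = 2 * ζ →
        ∀ g : P, θ (g * e) = ζ * θ g := by
      intro e he ζ hζ h g
      exact hθ.two_scalar h1 (Subgroup.mem_center_iff.mp he g) hζ h
    obtain ⟨ζ, hζ, hζc⟩ := hC c hcz
    have hζ1 : ζ ≠ 1 := by
      rintro rfl
      exact hA c hcz hc1 (by rw [hζc]; ring)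
    have hθx : θ x = 0 := by
      have h2 := hconjx y₀
      rw [← hc, hscal c hcz ζ hζ hζc] at h2
      have : (ζ - 1) * θ x = 0 := by linear_combination h2
      rcases mul_eq_zero.mp this with h | h
      · exact absurd (sub_eq_zero.mp h) hζ1
      · exact h
    obtain ⟨α, β, hα, hβ, hαβ, hαβs, hpow⟩ := hθ.two_eig h1 x
    have hβα : β = -α := by rw [hθx] at hαβs; linear_combination -hαβs
    subst hβα
    have hα0 : α ≠ 0 := by rw [← norm_ne_zero_iff, hα]; norm_num
    have hx2 : θ (x ^ 2) = 2 * α ^ 2 := by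
      have := hpow 2
      rw [show (x ^ (2 : ℤ)) = x ^ 2 by norm_cast] at this
      rw [this]
      norm_cast
      ring
    -- squares of commutators vanish
    have hcomm2 : ∀ h : P, x⁻¹ * h⁻¹ * x * h ≠ 1 → θ (x⁻¹ * h⁻¹ * x * h) = -2 ∧
        (x⁻¹ * h⁻¹ * x * h) ^ 2 = 1 := by
      intro h hne
      set e := x⁻¹ * h⁻¹ * x * h with he
      have hez := hx h
      rw [← he] at hez
      obtain ⟨η, hη, hηe⟩ := hC e hez
      have hη1 : η ≠ 1 := by
        rintro rfl
        exact hA e hez hne (by rw [hηe]; ring)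
      have hec : Commute x e := Subgroup.mem_center_iff.mp hez x
      have h3 : θ (x ^ 2 * e ^ 2) = θ (x ^ 2) := by
        have : x ^ 2 * e ^ 2 = h⁻¹ * x ^ 2 * (h⁻¹)⁻¹ := by
          rw [← hec.mul_pow, he]
          rw [sq, sq]; group
        rw [this, hθ.conj]
      have h4 : θ (x ^ 2 * e ^ 2) = η ^ 2 * θ (x ^ 2) := by
        rw [sq e, ← mul_assoc, hscal e hez η hη hηe, hscal e hez η hη hηe]; ring
      rw [h3, hx2] at h4
      have h5 : (η ^ 2 - 1) * (2 * α ^ 2) = 0 := by linear_combination -h4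
      have h6 : η ^ 2 = 1 := by
        rcases mul_eq_zero.mp h5 with h7 | h7
        · exact sub_eq_zero.mp h7
        · exfalso
          have : α ^ 2 ≠ 0 := pow_ne_zero 2 hα0
          apply this
          linear_combination h7 / 2
      have h7 : η = -1 := by
        have h8 : (η - 1) * (η + 1) = 0 := by linear_combination h6
        rcases mul_eq_zero.mp h8 with h | h
        · exact absurd (sub_eq_zero.mp h) hη1
        · exact eq_neg_of_add_eq_zero_left h
      refine ⟨by rw [hηe, h7]; ring, ?_⟩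
      by_contra hne2
      apply hA (e ^ 2) (Subgroup.pow_mem _ hez 2) hne2
      rw [sq, hscal e hez η hη hηe, hηe, h7]; ring
    obtain ⟨hθc, hc2⟩ := hcomm2 y₀ hc1
    rw [← hc] at hθc hc2
    have hscalc : ∀ g : P, θ (g * c) = - θ g := by
      intro g
      rw [hscal c hcz (-1) (by simp) (by rw [hθc]; ring)]; ring
    have hcommc : ∀ h : P, x⁻¹ * h⁻¹ * x * h ≠ 1 → x⁻¹ * h⁻¹ * x * h = c := by
      intro h hne
      obtain ⟨h3, h4⟩ := hcomm2 h hne
      set e := x⁻¹ * h⁻¹ * x * h with he
      have hez := hx h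
      rw [← he] at hez
      have h5 : e * c = 1 := by
        by_contra hne2
        apply hA (e * c) (Subgroup.mul_mem _ hez hcz) hne2
        rw [hscalc, h3]; ring
      rw [eq_inv_of_mul_eq_one_left h5]
      rw [inv_eq_iff_mul_eq_one, ← sq]; exact hc2
    have hcg : ∀ g : P, g * c = c * g := Subgroup.mem_center_iff.mp hcz
    have hcc : c * c = 1 := by rw [← sq]; exact hc2
    -- the centralizer of x
    set A := Subgroup.centralizer ({x} : Set P) with hAdef
    have hmemA : ∀ g : P, g ∈ A ↔ x * g = g * x := by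
      intro g
      rw [hAdef, Subgroup.mem_centralizer_iff]
      simp
    have hnotA : ∀ g : P, g ∉ A → x * g = g * x * c := by
      intro g hg
      have hne : x⁻¹ * g⁻¹ * x * g ≠ 1 := by
        intro h
        apply hg
        rw [hmemA]
        rw [mul_assoc, mul_eq_one_iff_eq_inv, ← mul_inv_rev] at h
        have := congrArg (·⁻¹) h
        simp only [inv_inv] at this
        exact this.symm
      rw [← hcommc g hne]; group
    have hnotA' : ∀ g : P, x * g = g * x * c → g ∉ A := by
      intro g hg hgA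
      rw [hmemA] at hgA
      rw [hgA] at hg
      apply hc1
      exact (mul_eq_left.mp hg.symm)
    have hxA : x ∈ A := (hmemA x).mpr rfl
    obtain ⟨ψ, φ, hsum, hψ⟩ := (hθ.comp A.subtype).split (z := ⟨x, hxA⟩) (by simpa using h1)
      (by
        rintro ⟨g, hg⟩
        apply Subtype.ext
        exact ((hmemA g).mp hg).symm) (a := α) (b := -α)
      (by
        intro h
        apply hα0
        linear_combination h / 2)
      (by simpa using hαβs)
      (by
        have : dd (fun e : A => θ (A.subtype e)) ⟨x, hxA⟩ = dd θ x := rfl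
        rw [this]; exact hαβ)
    simp only [Subgroup.coe_subtype, Subgroup.coe_mul] at hsum hψ
    have hφ : ∀ g : A, ((φ g : ℂˣ) : ℂ) = (α * θ g - θ (g * x)) / (α - -α) := by
      intro g
      have h2 := hsum g
      rw [hψ] at h2
      have h3 : α - -α ≠ 0 := by
        intro h
        apply hα0
        linear_combination h / 2
      field_simp at h2 ⊢
      linear_combination -h2
    have hddA : ∀ g : A, dd θ g = ((ψ g : ℂˣ) : ℂ) * ((φ g : ℂˣ) : ℂ) := by
      intro g
      exact dd_of_sum (θ := fun e : A => θ (A.subtype e)) hsum g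
    -- conjugation by elements outside A
    have hconjA : ∀ y : P, y ∉ A → ∀ a ∈ A, y⁻¹ * a * y ∈ A := by
      intro y hy a ha
      rw [hmemA] at ha ⊢
      have h2 := hnotA y hy
      have h3 : x * y⁻¹ = y⁻¹ * x * c := by
        have h4 : y * x = x * y * c := by
          rw [h2, mul_assoc (y * x), hcc, mul_one]
        calc x * y⁻¹ = y⁻¹ * (y * x) * y⁻¹ := by group
          _ = y⁻¹ * (x * y * c) * y⁻¹ := by rw [h4]
          _ = y⁻¹ * x * (y * c * y⁻¹) := by group
          _ = y⁻¹ * x * c := by rw [hcg y]; group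
      calc x * (y⁻¹ * a * y) = (x * y⁻¹) * a * y := by group
        _ = y⁻¹ * x * (c * a) * y := by rw [h3]; group
        _ = y⁻¹ * (x * a) * (c * y) := by rw [← hcg a]; group
        _ = y⁻¹ * a * (x * y) * c := by rw [ha, ← hcg y]; group
        _ = y⁻¹ * a * y * x * (c * c) := by rw [h2]; group
        _ = y⁻¹ * a * y * x := by rw [hcc, mul_one]
    have hψconj : ∀ (y : P) (hy : y ∉ A) (a : P) (ha : a ∈ A),
        ((ψ ⟨y⁻¹ * a * y, hconjA y hy a ha⟩ : ℂˣ) : ℂ) = ((φ ⟨a, ha⟩ : ℂˣ) : ℂ) := by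
      intro y hy a ha
      rw [hψ, hφ]
      have h2 := hnotA y hy
      have h4 : y * x = x * y * c := by
        rw [h2, mul_assoc (y * x), hcc, mul_one]
      have h5 : θ (y⁻¹ * a * y) = θ a := by
        have := hθ.conj a y⁻¹
        rwa [inv_inv] at this
      have h6 : θ (y⁻¹ * a * y * x) = - θ (a * x) := by
        have : y⁻¹ * a * y * x = y⁻¹ * (a * x * c) * (y⁻¹)⁻¹ := by
          rw [inv_inv]
          calc y⁻¹ * a * y * x = y⁻¹ * a * (y * x) := by group
            _ = y⁻¹ * a * (x * y * c) := by rw [h4]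
            _ = y⁻¹ * (a * x) * (y * c) := by group
            _ = y⁻¹ * (a * x * c) * y := by rw [hcg y]; group
        rw [this, hθ.conj, hscalc]
      simp only
      rw [h5, h6]; ring
    have hsqA : ∀ y : P, y ∉ A → y * y ∈ A := by
      intro y hy
      rw [hmemA]
      have h2 := hnotA y hy
      calc x * (y * y) = (x * y) * y := by group
        _ = y * x * (c * y) := by rw [h2]; group
        _ = y * (x * y) * c := by rw [← hcg y]; group
        _ = y * y * x * (c * c) := by rw [h2]; group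
        _ = y * y * x := by rw [hcc, mul_one]
    have hθnotA : ∀ y : P, y ∉ A → θ y = 0 := by
      intro y hy
      have h2 := hnotA y hy
      have h3 : θ (y * c) = θ y := by
        have : y * c = x⁻¹ * (y) * (x⁻¹)⁻¹ := by
          rw [inv_inv]
          have h4 : y * x = x * y * c := by
            rw [h2, mul_assoc (y * x), hcc, mul_one]
          rw [mul_assoc x⁻¹, h4]; group
        rw [this, hθ.conj]
      rw [hscalc] at h3
      linear_combination -h3 / 2
    have hddnotA : ∀ (y : P) (hy : y ∉ A), dd θ y = - ((ψ ⟨y * y, hsqA y hy⟩ : ℂˣ) : ℂ) := by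
      intro y hy
      unfold dd
      rw [hθnotA y hy, sq y]
      have h2 := hsum ⟨y * y, hsqA y hy⟩
      have h3 := hψconj y hy (y * y) (hsqA y hy)
      have h4 : (⟨y⁻¹ * (y * y) * y, hconjA y hy _ (hsqA y hy)⟩ : A) = ⟨y * y, hsqA y hy⟩ := by
        apply Subtype.ext
        simp
      rw [h4] at h3
      simp only at h2
      rw [h2, ← h3]; ring
    have case1 : ∀ y : P, y ∉ A → ∀ a ∈ A, dd θ (y * a) = dd θ y * dd θ a := by
      intro y hy a ha
      have hya : y * a ∉ A := by
        intro h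
        exact hy ((Subgroup.mul_mem_cancel_right A ha).mp h)
      rw [hddnotA _ hya, hddnotA y hy, hddA ⟨a, ha⟩, ← hψconj y hy a ha]
      have : (⟨y * a * (y * a), hsqA _ hya⟩ : A)
          = ⟨y * y, hsqA y hy⟩ * ⟨y⁻¹ * a * y, hconjA y hy a ha⟩ * ⟨a, ha⟩ := by
        apply Subtype.ext
        simp only [Subgroup.coe_mul]
        group
      rw [this, map_mul, map_mul]
      push_cast
      ring
    have case2 : ∀ y : P, y ∉ A → ∀ a ∈ A, dd θ (a * y) = dd θ a * dd θ y := by
      intro y hy a ha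
      have h2 : a * y = y * (y⁻¹ * a * y) := by group
      rw [h2, case1 y hy _ (hconjA y hy a ha)]
      have h3 := hθ.dd_conj a y⁻¹
      rw [inv_inv] at h3
      rw [h3, mul_comm]
    by_cases hg : g₀ ∈ A
    · by_cases hh : h₀ ∈ A
      · have h2 := hddA (⟨g₀, hg⟩ * ⟨h₀, hh⟩)
        rw [map_mul, map_mul] at h2
        simp only [Subgroup.coe_mul] at h2
        rw [h2, hddA ⟨g₀, hg⟩, hddA ⟨h₀, hh⟩]
        push_cast; ring
      · exact case2 h₀ hh g₀ hg
    · by_cases hh : h₀ ∈ A
      · exact case1 g₀ hg h₀ hh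
      · have hgh : g₀ * h₀ ∈ A := by
          rw [hmemA]
          have h2 := hnotA g₀ hg
          have h3 := hnotA h₀ hh
          calc x * (g₀ * h₀) = (x * g₀) * h₀ := by group
            _ = g₀ * x * (c * h₀) := by rw [h2]; group
            _ = g₀ * (x * h₀) * c := by rw [← hcg h₀]; group
            _ = g₀ * h₀ * x * (c * c) := by rw [h3]; group
            _ = g₀ * h₀ * x := by rw [hcc, mul_one]
        have hh' : h₀⁻¹ ∉ A := fun h => hh ((Subgroup.inv_mem_iff A).mp h)
        have h4 := case2 h₀⁻¹ hh' (g₀ * h₀) hgh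
        rw [mul_inv_cancel_right] at h4
        have h5 : dd θ h₀⁻¹ * dd θ h₀ = 1 := by
          rw [← hθ.dd_mul h1 (by simp), inv_mul_cancel, dd_one h1]
        rw [h4, mul_assoc, h5, mul_one]

/-- The determinant of a Heilbronn function of degree two is a linear character. -/
theorem IsHeilbronn.exists_det {G : Type u} [Group G] [Finite G] {θ : G → ℂ}
    (hθ : IsHeilbronn θ) (h1 : θ 1 = 2) : ∃ D : G →* ℂˣ, ∀ g, ((D g : ℂˣ) : ℂ) = dd θ g := by
  have hne : ∀ g, dd θ g ≠ 0 := fun g => by
    rw [← norm_ne_zero_iff, hθ.dd_norm h1]; norm_num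
  let f : G → ℂˣ := fun g => Units.mk0 (dd θ g) (hne g)
  have hf : ∀ g h, f (g * h) = f g * f h := by
    apply mul_of_pgroups
    · intro g h
      apply Units.ext
      exact hθ.dd_conj g h
    · intro g n
      induction n with
      | zero => apply Units.ext; simp [f, dd_one h1]
      | succ n ih =>
        rw [pow_succ, pow_succ, ← ih]
        apply Units.ext
        exact hθ.dd_mul h1 ((Commute.refl g).pow_left n).eq
    · intro p hp P hP x hx y hy
      have : Fact p.Prime := ⟨hp⟩
      apply Units.ext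
      exact two_pgroup (p := p) (Nat.card P) P rfl hP (fun x => θ x) (hθ.comp P.subtype)
        h1 ⟨x, hx⟩ ⟨y, hy⟩
  refine ⟨{ toFun := f, map_one' := ?_, map_mul' := hf }, fun g => rfl⟩
  apply Units.ext
  exact dd_one h1

end Pool.Agent.H302R2
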