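import Mathlib
import Pool.Agent.H302R2.Deg2C
import Pool.Agent.H302R2.Average

/-!
# Parity of the multiplicity of the trivial character on hyperelementary groups
-/

set_option autoImplicit false

namespace Pool.Agent.H302R2

universe u

/-- `2`-hyperelementary groups: a normal cyclic subgroup of odd order with quotient a `2`-group -/
def Hyp (U : Type*) [Group U] : Prop :=
  ∃ c : U, Odd (orderOf c) ∧ (∀ u : U, u * c * u⁻¹ ∈ Subgroup.zpowers c) ∧
    ∀ u : U, ∃ k : ℕ, u ^ (2 ^ k) ∈ Subgroup.zpowers c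

lemma conj_zpowers {U : Type*} [Group U] {c : U} (h : ∀ u : U, u * c * u⁻¹ ∈ Subgroup.zpowers c)
    (u : U) {x : U} (hx : x ∈ Subgroup.zpowers c) : u * x * u⁻¹ ∈ Subgroup.zpowers c := by
  obtain ⟨k, rfl⟩ := hx
  simp only
  rw [← conj_zpow]
  exact Subgroup.zpow_mem _ (h u) k

lemma Hyp.of_injective {W V : Type*} [Group W] [Group V] (f : W →* V)
    (hf : Function.Injective f) (hV : Hyp V) : Hyp W := by
  obtain ⟨c, hodd, hn, hp⟩ := hV
  have hcyc : IsCyclic ((Subgroup.zpowers c).comap f) := by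
    apply isCyclic_of_injective (f.subgroupComap (Subgroup.zpowers c))
    rintro ⟨x, hx⟩ ⟨y, hy⟩ hxy
    apply Subtype.ext
    apply hf
    exact congrArg Subtype.val hxy
  obtain ⟨⟨c', hc'⟩, hgen⟩ := hcyc.exists_generator
  have hz : ∀ x : W, f x ∈ Subgroup.zpowers c → x ∈ Subgroup.zpowers c' := by
    intro x hx
    obtain ⟨k, hk⟩ := hgen ⟨x, hx⟩
    exact ⟨k, congrArg Subtype.val hk⟩
  refine ⟨c', ?_, fun u => ?_, fun u => ?_⟩
  · have h1 : orderOf c' = orderOf (f c') := (orderOf_injective f hf c').symm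
    have h2 : orderOf (f c') ∣ orderOf c := orderOf_dvd_of_mem_zpowers hc'
    rw [h1]
    exact Odd.of_dvd_nat hodd h2
  · apply hz
    rw [map_mul, map_mul, map_inv]
    exact conj_zpowers hn (f u) hc'
  · obtain ⟨k, hk⟩ := hp (f u)
    refine ⟨k, hz _ ?_⟩
    rw [map_pow]; exact hk

lemma Hyp.of_surjective {W V : Type*} [Group W] [Group V] (f : W →* V)
    (hf : Function.Surjective f) (hW : Hyp W) : Hyp V := by
  obtain ⟨c, hodd, hn, hp⟩ := hW
  have hz : ∀ x : W, x ∈ Subgroup.zpowers c → f x ∈ Subgroup.zpowers (f c) := by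
    rintro _ ⟨k, rfl⟩
    exact ⟨k, by simp⟩
  refine ⟨f c, ?_, fun v => ?_, fun v => ?_⟩
  · exact Odd.of_dvd_nat hodd (orderOf_map_dvd f c)
  · obtain ⟨u, rfl⟩ := hf v
    rw [← map_inv, ← map_mul, ← map_mul]
    exact hz _ (hn u)
  · obtain ⟨u, rfl⟩ := hf v
    obtain ⟨k, hk⟩ := hp u
    exact ⟨k, by rw [← map_pow]; exact hz _ hk⟩

/-- A nontrivial `2`-hyperelementary group has a normal subgroup of prime order. -/
lemma Hyp.exists_prime {U : Type u} [Group U] [Finite U] [Nontrivial U] (hU : Hyp U) :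
    ∃ z : U, (orderOf z).Prime ∧ ∀ u : U, u * z * u⁻¹ ∈ Subgroup.zpowers z := by
  obtain ⟨c, hodd, hn, hp⟩ := hU
  by_cases hc : c = 1
  · subst hc
    have h2 : IsPGroup 2 U := by
      intro u
      obtain ⟨k, hk⟩ := hp u
      refine ⟨k, ?_⟩
      simpa using hk
    have : Fact (Nat.Prime 2) := ⟨Nat.prime_two⟩
    have hne : (⊤ : Subgroup U) ≠ ⊥ := by
      intro h
      exact not_subsingleton U (Subgroup.subsingleton_iff.mp
        (subsingleton_of_bot_eq_top h.symm))
    obtain ⟨z, -, hz1, hzc⟩ := exists_central h2 ⊤ hne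
    obtain ⟨j, hj⟩ := (IsPGroup.iff_orderOf.mp h2) z
    have hj0 : j ≠ 0 := by
      rintro rfl
      rw [pow_zero, orderOf_eq_one_iff] at hj
      exact hz1 hj
    obtain ⟨i, rfl⟩ := Nat.exists_eq_succ_of_ne_zero hj0
    refine ⟨z ^ (2 ^ i), ?_, fun u => ?_⟩
    · rw [orderOf_pow_of_dvd (by positivity) (by rw [hj]; exact pow_dvd_pow 2 (Nat.le_succ i)), hj,
        Nat.succ_eq_add_one, pow_succ, Nat.mul_div_cancel_left _ (by positivity)]
      exact Nat.prime_two
    · have : Commute u (z ^ (2 ^ i)) := (show Commute u z from hzc u).pow_right _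
      rw [this.eq, mul_inv_cancel_right]
      exact Subgroup.mem_zpowers _
  · have hm : orderOf c ≠ 1 := by rwa [ne_eq, orderOf_eq_one_iff]
    obtain ⟨q, hq, m, hm⟩ := Nat.exists_prime_and_dvd hm
    have hpos : 0 < orderOf c := orderOf_pos c
    have hm0 : 0 < m := by
      rcases Nat.eq_zero_or_pos m with h | h
      · rw [h, mul_zero] at hm; omega
      · exact h
    refine ⟨c ^ m, ?_, fun u => ?_⟩
    · rw [orderOf_pow_of_dvd hm0.ne' ⟨q, by rw [hm, mul_comm]⟩, hm, Nat.mul_div_cancel _ hm0]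
      exact hq
    · obtain ⟨i, hi⟩ := hn u
      simp only at hi
      refine ⟨i, ?_⟩
      simp only
      rw [← conj_pow, ← hi, ← zpow_natCast, ← zpow_natCast, ← zpow_mul, ← zpow_mul, mul_comm]

/-- If a Heilbronn function is trivial on a normal subgroup of prime order, it is constant on
its cosets. -/
lemma IsHeilbronn.const_cosets {U : Type*} [Group U] [Finite U] {θ : U → ℂ} (hθ : IsHeilbronn θ)
    {z : U} (hz : (orderOf z).Prime) (hn : ∀ u : U, u * z * u⁻¹ ∈ Subgroup.zpowers z)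
    (hzθ : ∀ w ∈ Subgroup.zpowers z, θ w = θ 1) (x : U) {w : U} (hw : w ∈ Subgroup.zpowers z) :
    θ (x * w) = θ x := by
  by_cases hxz : x * z = z * x
  · obtain ⟨l, rfl⟩ := hw
    exact hθ.mul_of_comm ((show Commute x z from hxz).zpow_right l).eq (hzθ _ ⟨l, rfl⟩)
  · obtain ⟨l, rfl⟩ := hw
    obtain ⟨i, hi⟩ := hn x⁻¹
    simp only [inv_inv] at hi
    -- x⁻¹ z x = z ^ i
    have h1 : z ^ (1 - i) ≠ 1 := by
      intro h
      apply hxz
      have h2 : z = z ^ i := by
        rw [zpow_sub, zpow_one, mul_inv_eq_one] at h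
        exact h
      rw [← h2] at hi
      calc x * z = x * (x⁻¹ * z * x) := by rw [← hi]
        _ = z * x := by group
    have h2 : ¬ ((orderOf z : ℤ) ∣ 1 - i) := by
      rwa [orderOf_dvd_iff_zpow_eq_one]
    have h3 : IsCoprime (orderOf z : ℤ) (1 - i) :=
      (Prime.coprime_iff_not_dvd (Nat.prime_iff_prime_int.mp hz)).mpr h2
    obtain ⟨a, b, hab⟩ := h3
    -- choose j = l * b
    have h4 : z ^ l = z ^ ((l * b) * (1 - i)) := by
      have : l = (l * b) * (1 - i) + (orderOf z : ℤ) * (l * a) := by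
        linear_combination -l * hab
      conv_lhs => rw [this]
      rw [zpow_add, zpow_mul z (orderOf z : ℤ), zpow_natCast, pow_orderOf_eq_one, one_zpow,
        mul_one]
    have h5 : x * z ^ ((l * b) * (1 - i)) = (z ^ (l * b))⁻¹ * x * ((z ^ (l * b))⁻¹)⁻¹ := by
      have h6 : x⁻¹ * z ^ (l * b) * x = z ^ (i * (l * b)) := by
        have h7 : x⁻¹ * z ^ (l * b) * x⁻¹⁻¹ = (x⁻¹ * z * x⁻¹⁻¹) ^ (l * b) := conj_zpow.symm
        rw [inv_inv] at h7
        rw [h7, ← hi, ← zpow_mul]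
      have h8 : (z ^ (l * b))⁻¹ * x = x * (z ^ (i * (l * b)))⁻¹ := by
        rw [← h6]; group
      rw [h8, inv_inv, ← zpow_neg, mul_assoc x, ← zpow_add]
      congr 2
      ring
    simp only
    rw [h4, h5, hθ.conj]

lemma sum_zpowers_eq_zero {E : Type*} [Group E] [Finite E] (ψ : E →* ℂˣ) {w₀ : E}
    (h : ψ w₀ ≠ 1) : ∑ᶠ w : E, ((ψ w : ℂˣ) : ℂ) = 0 := by
  have h1 : ∑ᶠ w : E, ((ψ w : ℂˣ) : ℂ) = ∑ᶠ w : E, ((ψ (w * w₀) : ℂˣ) : ℂ) :=
    (finsum_comp_equiv (Equiv.mulRight w₀) (f := fun w => ((ψ w : ℂˣ) : ℂ))).symm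
  have h2 : ∑ᶠ w : E, ((ψ (w * w₀) : ℂˣ) : ℂ)
      = ((ψ w₀ : ℂˣ) : ℂ) * ∑ᶠ w : E, ((ψ w : ℂˣ) : ℂ) := by
    rw [mul_finsum]
    refine finsum_congr fun w => ?_
    rw [map_mul]; push_cast; ring
  have h3 : ((ψ w₀ : ℂˣ) : ℂ) ≠ 1 := by
    rwa [ne_eq, Units.val_eq_one]
  have h4 : (1 - ((ψ w₀ : ℂˣ) : ℂ)) * ∑ᶠ w : E, ((ψ w : ℂˣ) : ℂ) = 0 := by
    rw [sub_mul, one_mul, ← h2, ← h1, sub_self]
  rcases mul_eq_zero.mp h4 with h5 | h5
  · exact absurd (sub_eq_zero.mp h5).symm h3
  · exact h5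

/-- The parity statement. -/
lemma even_of_hyp : ∀ (N : ℕ) (U : Type u) [Group U] [Finite U], Nat.card U = N → Hyp U →
    ∀ (θ : U → ℂ) (_ : IsHeilbronn θ) (_ : θ 1 = 2) (_ : ∀ g, dd θ g = 1),
      ∃ k : ℕ, ∑ᶠ u : U, θ u = 2 * k * Nat.card U := by
  intro N
  induction N using Nat.strong_induction_on with
  | _ N ih =>
    intro U _ _ hUN hU θ hθ h1 hd
    classical
    rcases subsingleton_or_nontrivial U with hs | hnt
    · refine ⟨1, ?_⟩
      have : Unique U := ⟨⟨1⟩, fun a => Subsingleton.elim _ _⟩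
      rw [finsum_unique, Nat.card_unique, Subsingleton.elim (default : U) 1, h1]
      push_cast; ring
    obtain ⟨z, hz, hn⟩ := hU.exists_prime
    set Q := Subgroup.zpowers z with hQ
    have hQn : Q.Normal := ⟨fun x hx u => conj_zpowers hn u hx⟩
    obtain ⟨ψ, φ, h⟩ := (hθ.comp Q.subtype).comm_two (zpowers_comm z) (by simpa using h1)
    have hprod : ∀ w : Q, ((ψ w : ℂˣ) : ℂ) * ((φ w : ℂˣ) : ℂ) = 1 := by
      intro w
      rw [← dd_of_sum h w]
      exact hd w
    by_cases hψ : ψ ⟨z, Subgroup.mem_zpowers z⟩ = 1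
    · -- trivial on Q
      have hψ' : ∀ w : Q, ψ w = 1 := by
        rintro ⟨_, k, rfl⟩
        have : (⟨z ^ k, ⟨k, rfl⟩⟩ : Q) = ⟨z, Subgroup.mem_zpowers z⟩ ^ k := by
          apply Subtype.ext; simp
        simp only
        rw [this, map_zpow, hψ, one_zpow]
      have hzθ : ∀ w ∈ Q, θ w = θ 1 := by
        intro w hw
        have h2 := h ⟨w, hw⟩
        have h3 := hprod ⟨w, hw⟩
        rw [hψ', Units.val_one, one_mul] at h3
        rw [hψ', h3] at h2
        simp only [Subgroup.coe_subtype] at h2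
        rw [h2, h1, Units.val_one]; norm_num
      have hZθ : ∀ y : U, ∀ n ∈ Q, θ (y * n) = θ y := fun y n hn' =>
        hθ.const_cosets hz hn hzθ y hn'
      have hdd : ∀ g : U ⧸ Q, dd (descend Q θ) g = 1 := by
        intro g
        induction g using QuotientGroup.induction_on with | _ g => ?_
        have := hd g
        unfold dd at this ⊢
        rw [← QuotientGroup.mk_pow, descend_mk hZθ, descend_mk hZθ]
        exact this
      have hz1 : z ≠ 1 := by
        rintro rfl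
        rw [orderOf_one] at hz
        exact Nat.not_prime_one hz
      obtain ⟨k, hk⟩ := ih _ (by rw [← hUN]; exact card_quotient_zpowers_lt hz1)
        (U ⧸ Q) rfl (hU.of_surjective (QuotientGroup.mk' Q) (QuotientGroup.mk'_surjective Q))
        (descend Q θ) (hθ.descend Q hZθ)
        (by rw [← QuotientGroup.mk_one, descend_mk hZθ, h1]) hdd
      refine ⟨k, ?_⟩
      have : Fintype U := Fintype.ofFinite _
      have : Fintype (U ⧸ Q) := Fintype.ofFinite _
      rw [finsum_eq_sum_of_fintype] at hk ⊢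
      have h5 := sum_comp_surj (QuotientGroup.mk' Q) (QuotientGroup.mk'_surjective Q)
        (descend Q θ)
      rw [QuotientGroup.ker_mk', hk] at h5
      have h6 : ∀ g : U, descend Q θ (QuotientGroup.mk' Q g) = θ g := fun g => descend_mk hZθ g
      rw [Finset.sum_congr rfl (fun g _ => h6 g)] at h5
      rw [h5, Subgroup.card_eq_card_quotient_mul_card_subgroup Q]
      push_cast; ring
    · refine ⟨0, ?_⟩
      have hφ : φ ⟨z, Subgroup.mem_zpowers z⟩ ≠ 1 := by
        intro h2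
        apply hψ
        have h3 := hprod ⟨z, Subgroup.mem_zpowers z⟩
        rw [h2, Units.val_one, mul_one] at h3
        exact Units.ext h3
      have hzero : ∑ᶠ w : Q, θ w = 0 := by
        have h2 : ∀ w : Q, θ w = (ψ w : ℂˣ) + (φ w : ℂˣ) := h
        rw [finsum_congr h2, finsum_add_distrib (Set.toFinite _) (Set.toFinite _),
          sum_zpowers_eq_zero ψ hψ, sum_zpowers_eq_zero φ hφ, add_zero]
      rw [sum_avg Q θ]
      have h3 : ∀ q : U ⧸ Q, avg Q θ q = 0 := by
        intro q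
        induction q using QuotientGroup.induction_on with | _ g => ?_
        rw [avg_mk, hθ.avg_zero Q hzero, mul_zero]
      rw [finsum_congr h3]
      simp

end Pool.Agent.H302R2
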