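import Mathlib
import Pool.Agent.H302R2.Even

/-!
# The parity theorem
-/

set_option autoImplicit false

namespace Pool.Agent.H302R2

universe u

open MulAction

/-- fixed-point counts of finite `G`-sets with hyperelementary stabilizers -/
def HypCount {G : Type u} [Group G] (f : G → ℕ) : Prop :=
  ∃ (X : Type u) (_ : MulAction G X) (_ : Finite X),
    (∀ x : X, Hyp (stabilizer G x)) ∧ ∀ g : G, f g = Nat.card {x : X // g • x = x}

section

variable {G : Type u} [Group G]

lemma HypCount.add {f f' : G → ℕ} (hf : HypCount f) (hf' : HypCount f') :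
    HypCount (fun g => f g + f' g) := by
  obtain ⟨X, _, _, h1, h2⟩ := hf
  obtain ⟨X', _, _, h1', h2'⟩ := hf'
  refine ⟨X ⊕ X', inferInstance, inferInstance, ?_, fun g => ?_⟩
  · rintro (x | x)
    · have hle : stabilizer G (Sum.inl x : X ⊕ X') ≤ stabilizer G x := by
        intro g hg
        rw [mem_stabilizer_iff] at hg ⊢
        exact Sum.inl_injective hg
      exact Hyp.of_injective (Subgroup.inclusion hle) (Subgroup.inclusion_injective hle) (h1 x)
    · have hle : stabilizer G (Sum.inr x : X ⊕ X') ≤ stabilizer G x := by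
        intro g hg
        rw [mem_stabilizer_iff] at hg ⊢
        exact Sum.inr_injective hg
      exact Hyp.of_injective (Subgroup.inclusion hle) (Subgroup.inclusion_injective hle) (h1' x)
  · rw [Nat.card_congr (Equiv.subtypeSum (α := X) (β := X') (p := fun c => g • c = c)),
      Nat.card_sum]
    simp only
    rw [h2, h2']
    congr 1
    · refine Nat.card_congr (Equiv.subtypeEquivRight fun x => ?_)
      exact ⟨fun h => by rw [Sum.smul_inl, h], fun h => Sum.inl_injective h⟩
    · refine Nat.card_congr (Equiv.subtypeEquivRight fun x => ?_)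
      exact ⟨fun h => by rw [Sum.smul_inr, h], fun h => Sum.inr_injective h⟩

lemma HypCount.mul {f f' : G → ℕ} (hf : HypCount f) (hf' : HypCount f') :
    HypCount (fun g => f g * f' g) := by
  obtain ⟨X, _, _, h1, h2⟩ := hf
  obtain ⟨X', _, _, h1', h2'⟩ := hf'
  refine ⟨X × X', inferInstance, inferInstance, ?_, fun g => ?_⟩
  · rintro ⟨x, y⟩
    have hle : stabilizer G ((x, y) : X × X') ≤ stabilizer G x := by
      intro g hg
      rw [mem_stabilizer_iff] at hg ⊢
      exact congrArg Prod.fst hg
    exact Hyp.of_injective (Subgroup.inclusion hle) (Subgroup.inclusion_injective hle) (h1 x)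
  · simp only
    rw [h2, h2', ← Nat.card_prod]
    refine Nat.card_congr (Equiv.trans (Equiv.subtypeProdEquivProd).symm
      (Equiv.subtypeEquivRight fun x => ?_))
    rw [Prod.ext_iff]
    rfl

lemma HypCount.pow {f : G → ℕ} (hf : HypCount f) (n : ℕ) : HypCount (fun g => f g ^ (n + 1)) := by
  induction n with
  | zero => simpa using hf
  | succ n ih =>
    have := ih.mul hf
    simpa [pow_succ] using this

end

section

variable {G : Type u} [Group G] [Finite G] {θ : G → ℂ}

/-- multiplicities against permutation characters with hyperelementary stabilizers are even -/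
lemma IsHeilbronn.sum_count (hθ : IsHeilbronn θ) (h1 : θ 1 = 2) (hd : ∀ g, dd θ g = 1)
    {f : G → ℕ} (hf : HypCount f) : ∃ k : ℕ, ∑ᶠ g : G, θ g * (f g : ℂ) = 2 * k * Nat.card G := by
  classical
  obtain ⟨X, _, _, hX, hfX⟩ := hf
  have : Fintype G := Fintype.ofFinite _
  have : Fintype X := Fintype.ofFinite _
  let F : X → ℂ := fun x => ∑ g : G, if g • x = x then θ g else 0
  have hstab : ∀ x : X, ∃ k : ℕ, F x = 2 * k * Nat.card (stabilizer G x) := by
    intro x
    obtain ⟨k, hk⟩ := even_of_hyp (Nat.card (stabilizer G x)) (stabilizer G x) rfl (hX x)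
      (fun g => θ g) (hθ.comp (stabilizer G x).subtype) h1 (fun g => hd g)
    refine ⟨k, ?_⟩
    rw [← hk, finsum_eq_sum_of_fintype]
    change (∑ g : G, if g • x = x then θ g else 0) = _
    rw [← Finset.sum_filter]
    exact Finset.sum_subtype _ (by simp) θ
  choose k hk using hstab
  have hinv : ∀ (h : G) (x : X), F (h • x) = F x := by
    intro h x
    change ∑ g : G, (if g • h • x = h • x then θ g else 0) = ∑ g : G, if g • x = x then θ g else 0
    rw [← Equiv.sum_comp (MulAut.conj h).toEquiv
      (fun g => if g • h • x = h • x then θ g else 0)]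
    refine Finset.sum_congr rfl fun g _ => ?_
    have e1 : (MulAut.conj h).toEquiv g = h * g * h⁻¹ := rfl
    rw [e1, hθ.conj]
    have e2 : ((h * g * h⁻¹) • h • x = h • x) ↔ (g • x = x) := by
      rw [smul_smul, inv_mul_cancel_right, mul_smul]
      exact smul_left_cancel_iff h
    by_cases hgx : g • x = x
    · rw [if_pos hgx, if_pos (e2.mpr hgx)]
    · rw [if_neg hgx, if_neg (fun h => hgx (e2.mp h))]
  have hsum : ∑ᶠ g : G, θ g * (f g : ℂ) = ∑ x : X, F x := by
    rw [finsum_eq_sum_of_fintype, Finset.sum_comm]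
    refine Finset.sum_congr rfl fun g _ => ?_
    rw [hfX, ← Finset.sum_filter, Finset.sum_const, nsmul_eq_mul, mul_comm,
      Nat.card_eq_fintype_card, Fintype.card_subtype]
  let mk : X → Quotient (orbitRel G X) := Quotient.mk _
  refine ⟨∑ ω : Quotient (orbitRel G X), k ω.out, ?_⟩
  rw [hsum, ← Finset.sum_fiberwise_of_maps_to (s := Finset.univ) (t := Finset.univ)
    (g := mk) (fun _ _ => Finset.mem_univ _)]
  push_cast
  rw [Finset.mul_sum, Finset.sum_mul]
  refine Finset.sum_congr rfl fun ω _ => ?_
  have hconst : ∀ x ∈ Finset.univ.filter (fun x => mk x = ω), F x = F ω.out := by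
    intro x hx
    have h2 := (Finset.mem_filter.mp hx).2
    have h3 : mk x = mk ω.out := by
      rw [h2]; exact (Quotient.out_eq ω).symm
    have h4 := Quotient.exact h3
    obtain ⟨h, hh⟩ := orbitRel_apply.mp h4
    rw [← hh, hinv]
  rw [Finset.sum_congr rfl hconst, Finset.sum_const, nsmul_eq_mul, hk]
  have hcard : (Finset.univ.filter (fun x => mk x = ω)).card
      * Nat.card (stabilizer G ω.out) = Nat.card G := by
    have : Fintype (orbit G ω.out) := Fintype.ofFinite _
    have : Fintype (stabilizer G ω.out) := Fintype.ofFinite _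
    have h5 := card_orbit_mul_card_stabilizer_eq_card_group G ω.out
    rw [Nat.card_eq_fintype_card, Nat.card_eq_fintype_card, ← h5]
    congr 1
    rw [← Fintype.card_subtype]
    refine Fintype.card_congr (Equiv.subtypeEquivRight fun x => ?_)
    constructor
    · intro h2
      have h3 : mk x = mk ω.out := by
        rw [h2]; exact (Quotient.out_eq ω).symm
      exact orbitRel_apply.mp (Quotient.exact h3)
    · intro h2
      have h3 : mk x = mk ω.out := Quotient.sound (orbitRel_apply.mpr h2)
      rw [h3]; exact Quotient.out_eq ω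
  rw [← hcard]
  push_cast
  ring

end

/-- the subgroup of elements normalizing the cyclic subgroup generated by `c` -/
def nrm {G : Type u} [Group G] (c : G) : Subgroup G where
  carrier := {x | x * c * x⁻¹ ∈ Subgroup.zpowers c ∧ x⁻¹ * c * x ∈ Subgroup.zpowers c}
  one_mem' := by simp
  mul_mem' := by
    have key : ∀ x w : G, x * c * x⁻¹ ∈ Subgroup.zpowers c → w ∈ Subgroup.zpowers c →
        x * w * x⁻¹ ∈ Subgroup.zpowers c := by
      rintro x _ hx ⟨k, rfl⟩
      simp only
      rw [← conj_zpow]
      exact Subgroup.zpow_mem _ hx k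
    intro x y hx hy
    refine ⟨?_, ?_⟩
    · have : x * y * c * (x * y)⁻¹ = x * (y * c * y⁻¹) * x⁻¹ := by group
      rw [this]
      exact key x _ hx.1 hy.1
    · have : (x * y)⁻¹ * c * (x * y) = y⁻¹ * (x⁻¹ * c * x) * (y⁻¹)⁻¹ := by group
      rw [this]
      exact key y⁻¹ _ (by rw [inv_inv]; exact hy.2) hx.2
  inv_mem' := by
    intro x hx
    refine ⟨?_, ?_⟩
    · rw [inv_inv]; exact hx.2
    · rw [inv_inv]; exact hx.1

/-- For every `g` there is a hyperelementary subgroup such that `g` has an odd number of fixed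
points on the cosets. -/
lemma exists_odd {G : Type u} [Group G] [Finite G] (g : G) :
    ∃ f : G → ℕ, HypCount f ∧ Odd (f g) := by
  classical
  have : Fact (Nat.Prime 2) := ⟨Nat.prime_two⟩
  have hpos : 0 < orderOf g := orderOf_pos g
  obtain ⟨a, m, hm, ham⟩ := Nat.exists_eq_two_pow_mul_odd hpos.ne'
  set c := g ^ (2 ^ a) with hc
  have hco : orderOf c = m := by
    rw [hc, orderOf_pow_of_dvd (by positivity) ⟨m, ham⟩, ham,
      Nat.mul_div_cancel_left _ (by positivity)]
  set M := nrm c with hM
  have hcM : c ∈ M := by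
    refine ⟨?_, ?_⟩
    · rw [mul_inv_cancel_right]; exact Subgroup.mem_zpowers c
    · rw [inv_mul_cancel, one_mul]; exact Subgroup.mem_zpowers c
  let C' : Subgroup M := Subgroup.zpowers ⟨c, hcM⟩
  have hC' : ∀ x : M, x ∈ C' ↔ (x : G) ∈ Subgroup.zpowers c := by
    intro x
    constructor
    · rintro ⟨k, rfl⟩
      exact ⟨k, by simp⟩
    · rintro ⟨k, hk⟩
      exact ⟨k, Subtype.ext (by simpa using hk)⟩
  have hC'n : C'.Normal := by
    refine ⟨fun x hx u => ?_⟩
    obtain ⟨k, rfl⟩ := hx
    simp only
    rw [← conj_zpow]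
    apply Subgroup.zpow_mem
    rw [hC']
    exact u.2.1
  obtain ⟨P⟩ : Nonempty (Sylow 2 (M ⧸ C')) := inferInstance
  let U' : Subgroup M := (P : Subgroup (M ⧸ C')).comap (QuotientGroup.mk' C')
  let U : Subgroup G := U'.map M.subtype
  have hUM : ∀ x : G, x ∈ U ↔ ∃ hx : x ∈ M, (⟨x, hx⟩ : M) ∈ U' := by
    intro x
    constructor
    · rintro ⟨y, hy, rfl⟩
      exact ⟨y.2, hy⟩
    · rintro ⟨hx, hy⟩
      exact ⟨⟨x, hx⟩, hy, rfl⟩
  have hCU' : C' ≤ U' := by
    intro x hx
    rw [Subgroup.mem_comap]
    have : (QuotientGroup.mk' C') x = 1 := (QuotientGroup.eq_one_iff x).mpr hx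
    rw [this]; exact one_mem _
  have hCU : ∀ x ∈ Subgroup.zpowers c, x ∈ U := by
    intro x hx
    have hxM : x ∈ M := by
      obtain ⟨k, rfl⟩ := hx
      exact Subgroup.zpow_mem _ hcM k
    exact (hUM x).mpr ⟨hxM, hCU' ((hC' _).mpr hx)⟩
  have hUpow : ∀ x ∈ U, ∃ k : ℕ, x ^ (2 ^ k) ∈ Subgroup.zpowers c := by
    intro x hx
    obtain ⟨hxM, hxU⟩ := (hUM x).mp hx
    obtain ⟨k, hk⟩ := P.isPGroup' ⟨_, hxU⟩
    refine ⟨k, ?_⟩
    have h2 : ((QuotientGroup.mk' C') ⟨x, hxM⟩) ^ (2 ^ k) = 1 := congrArg Subtype.val hk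
    rw [← map_pow] at h2
    have h3 : (⟨x, hxM⟩ : M) ^ (2 ^ k) ∈ C' := (QuotientGroup.eq_one_iff _).mp h2
    rw [hC'] at h3
    simpa using h3
  have hcU : c ∈ U := hCU c (Subgroup.mem_zpowers c)
  have hHyp : Hyp U := by
    refine ⟨⟨c, hcU⟩, ?_, fun u => ?_, fun u => ?_⟩
    · rw [Subgroup.orderOf_mk, hco]; exact hm
    · obtain ⟨hx, -⟩ := (hUM u).mp u.2
      obtain ⟨k, hk⟩ := hx.1
      exact ⟨k, Subtype.ext (by simpa using hk)⟩
    · obtain ⟨k, j, hj⟩ := hUpow u u.2
      exact ⟨k, j, Subtype.ext (by simpa using hj)⟩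
  -- the G-set
  refine ⟨fun h => Nat.card {x : G ⧸ U // h • x = x}, ⟨G ⧸ U, inferInstance, inferInstance, ?_,
    fun h => rfl⟩, ?_⟩
  · intro q
    induction q using QuotientGroup.induction_on with | _ x => ?_
    let f : stabilizer G ((x : G) : G ⧸ U) →* U :=
      { toFun := fun y => ⟨x⁻¹ * y * x, by
          have h2 := y.2
          rw [mem_stabilizer_iff] at h2
          have h3 : ((↑((y : G) * x) : G ⧸ U)) = x := h2
          rw [QuotientGroup.eq] at h3
          have h4 := U.inv_mem h3
          have : (((y : G) * x)⁻¹ * x)⁻¹ = x⁻¹ * y * x := by group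
          rwa [this] at h4⟩
        map_one' := by apply Subtype.ext; simp
        map_mul' := by
          intro y z
          apply Subtype.ext
          simp only [Subgroup.coe_mul]
          group }
    refine hHyp.of_injective f ?_
    intro y z hyz
    apply Subtype.ext
    have h2 := congrArg Subtype.val hyz
    change x⁻¹ * (y : G) * x = x⁻¹ * (z : G) * x at h2
    exact mul_left_cancel (mul_right_cancel h2)
  · -- count
    simp only
    let Y : Set (G ⧸ U) := {x | c • x = x}
    have hY : ∀ x : G, (x : G ⧸ U) ∈ Y ↔ x ∈ M := by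
      intro x
      have h1 : (x : G ⧸ U) ∈ Y ↔ x⁻¹ * c * x ∈ U := by
        change ((↑(c * x) : G ⧸ U) = x) ↔ _
        rw [QuotientGroup.eq, ← U.inv_mem_iff]
        have : ((c * x)⁻¹ * x)⁻¹ = x⁻¹ * c * x := by group
        rw [this]
      rw [h1]
      constructor
      · intro h2
        have hord : orderOf (x⁻¹ * c * x) = m := by
          have : x⁻¹ * c * x = MulAut.conj x⁻¹ c := by simp
          rw [this, MulEquiv.orderOf_eq, hco]
        obtain ⟨k, hk⟩ := hUpow _ h2
        have h3 : x⁻¹ * c * x ∈ Subgroup.zpowers c := by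
          -- odd order
          have hcop : Nat.Coprime (2 ^ k) m := Nat.Coprime.pow_left k
            (Nat.coprime_two_left.mpr hm)
          obtain ⟨j, hj⟩ := exists_pow_eq_self_of_coprime
            (n := 2 ^ k) (x := x⁻¹ * c * x) (by rw [hord]; exact hcop)
          rw [← hj]
          exact Subgroup.pow_mem _ hk j
        refine ⟨?_, h3⟩
        -- c ∈ zpowers (x⁻¹ c x)
        have h4 : Subgroup.zpowers (x⁻¹ * c * x) = Subgroup.zpowers c := by
          apply Subgroup.eq_of_le_of_card_ge (Subgroup.zpowers_le.mpr h3)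
          rw [Nat.card_zpowers, Nat.card_zpowers, hord, hco]
        have h5 : c ∈ Subgroup.zpowers (x⁻¹ * c * x) := by
          rw [h4]; exact Subgroup.mem_zpowers c
        obtain ⟨j, hj⟩ := h5
        refine ⟨j, ?_⟩
        simp only at hj ⊢
        have h6 : (x⁻¹ * c * x) ^ j = x⁻¹ * c ^ j * x := by
          have := conj_zpow (i := j) (a := x⁻¹) (b := c)
          rw [inv_inv] at this
          exact this
        rw [h6] at hj
        have h7 : c ^ j = x * (x⁻¹ * c ^ j * x) * x⁻¹ := by group
        rw [h7, hj]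
      · intro h2
        exact hCU _ h2.2
    have hYset : (QuotientGroup.mk ⁻¹' Y : Set G) = (M : Set G) := by
      ext x
      exact hY x
    have hcardY : Nat.card M = Nat.card U * Nat.card Y := by
      rw [← Nat.card_prod, ← Nat.card_congr (QuotientGroup.preimageMkEquivSubgroupProdSet U Y)]
      rw [hYset]
      rfl
    have hYodd : Odd (Nat.card Y) := by
      have h2 : Nat.card M = Nat.card U' * U'.index := (Subgroup.card_mul_index U').symm
      have h3 : Nat.card U = Nat.card U' :=
        (Nat.card_congr (U'.equivMapOfInjective M.subtype M.subtype_injective).toEquiv).symm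
      have h4 : U'.index = (P : Subgroup (M ⧸ C')).index :=
        Subgroup.index_comap_of_surjective _ (QuotientGroup.mk'_surjective C')
      have h5 : ¬ 2 ∣ (P : Subgroup (M ⧸ C')).index := P.not_dvd_index
      rw [h2, h3] at hcardY
      have h6 := Nat.eq_of_mul_eq_mul_left Nat.card_pos hcardY
      rw [← h6, h4]
      rw [← Nat.not_even_iff_odd, even_iff_two_dvd]
      exact h5
    -- action of g on Y
    have hgY : ∀ y : Y, g • (y : G ⧸ U) ∈ Y := by
      intro y
      change c • g • (y : G ⧸ U) = g • (y : G ⧸ U)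
      rw [smul_smul, show c * g = g * c by rw [hc]; exact (Commute.self_pow g _).symm.eq,
        mul_smul, y.2]
    let π : Function.End Y := fun y => ⟨g • (y : G ⧸ U), hgY y⟩
    have hπ : ∀ (n : ℕ) (y : Y), (((π ^ n) y : Y) : G ⧸ U) = g ^ n • (y : G ⧸ U) := by
      intro n
      induction n with
      | zero => intro y; rw [pow_zero, pow_zero, one_smul]; rfl
      | succ n ih =>
        intro y
        rw [pow_succ', pow_succ', mul_smul, ← ih]
        rfl
    have hπ2 : π ^ 2 ^ a = 1 := by
      funext y
      apply Subtype.ext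
      rw [hπ]
      exact y.2
    have : Fintype Y := Fintype.ofFinite _
    have hmod := Equiv.Perm.card_fixedPoints_modEq hπ2
    have hodd2 : Odd (Fintype.card (Function.fixedPoints π)) := by
      rw [Nat.card_eq_fintype_card] at hYodd
      rw [Nat.odd_iff] at hYodd ⊢
      rw [← hYodd]
      exact hmod.symm
    have heq : Nat.card {x : G ⧸ U // g • x = x} = Fintype.card (Function.fixedPoints π) := by
      rw [← Nat.card_eq_fintype_card]
      refine Nat.card_congr ⟨fun x => ⟨⟨x.1, ?_⟩, ?_⟩, fun y => ⟨y.1.1, ?_⟩, ?_, ?_⟩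
      · change c • x.1 = x.1
        have h2 : ∀ n : ℕ, g ^ n • x.1 = x.1 := by
          intro n
          induction n with
          | zero => simp
          | succ n ih => rw [pow_succ, mul_smul, x.2, ih]
        rw [hc]; exact h2 _
      · apply Subtype.ext
        exact x.2
      · exact congrArg Subtype.val y.2
      · intro x; rfl
      · intro y; rfl
    rw [heq]; exact hodd2

end Pool.Agent.H302R2
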