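import Mathlib
import Pool.Agent.H302R2.Parity

/-!
# Heilbronn functions of degree two containing a linear character
-/

set_option autoImplicit false

namespace Pool.Agent.H302R2

universe u

lemma odd_pow_two_pow (a : ℕ) (ha : Odd a) (N : ℕ) : ∃ e : ℕ, a ^ (2 ^ N) = 1 + 2 ^ (N + 1) * e := by
  induction N with
  | zero =>
    obtain ⟨k, hk⟩ := ha
    exact ⟨k, by rw [hk]; ring⟩
  | succ N ih =>
    obtain ⟨e, he⟩ := ih
    refine ⟨e + 2 ^ N * e ^ 2, ?_⟩
    rw [pow_succ 2 N, pow_mul, he]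
    ring

lemma exists_all_odd {G : Type u} [Group G] [Finite G] :
    ∃ F : G → ℕ, HypCount F ∧ ∀ g, Odd (F g) := by
  classical
  have : Fintype G := Fintype.ofFinite _
  have key : ∀ T : Finset G, ∃ F : G → ℕ, HypCount F ∧ ∀ g ∈ T, Odd (F g) := by
    intro T
    induction T using Finset.induction_on with
    | empty =>
      obtain ⟨f, hf, -⟩ := exists_odd (1 : G)
      exact ⟨f, hf, by simp⟩
    | insert g T _ ih =>
      obtain ⟨F, hF, hF'⟩ := ih
      obtain ⟨f, hf, hf'⟩ := exists_odd g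
      refine ⟨_, (hF.add hf).add (hF.mul hf), ?_⟩
      intro x hx
      rcases Finset.mem_insert.mp hx with rfl | hx
      · have h1 : F x + f x + F x * f x = f x + F x * (f x + 1) := by ring
        rw [h1]
        exact hf'.add_even (Even.mul_left (hf'.add_one) _)
      · have h1 : F x + f x + F x * f x = F x + f x * (F x + 1) := by ring
        rw [h1]
        exact (hF' x hx).add_even (Even.mul_left ((hF' x hx).add_one) _)
  obtain ⟨F, hF, hF'⟩ := key Finset.univ
  exact ⟨F, hF, fun g => hF' g (Finset.mem_univ g)⟩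

lemma isIntegral_char {E : Type*} [Group E] [Finite E] (ψ : E →* ℂˣ) (e : E) :
    IsIntegral ℤ ((ψ e : ℂˣ) : ℂ) := by
  have h1 : ((ψ e : ℂˣ) : ℂ) ^ (Nat.card E) = 1 := by
    rw [← Units.val_pow_eq_pow_val, ← map_pow, pow_card_eq_one', map_one, Units.val_one]
  apply IsIntegral.of_pow (Nat.card_pos (α := E))
  rw [h1]
  exact isIntegral_one

lemma IsHeilbronn.isIntegral_two {G : Type u} [Group G] [Finite G] {θ : G → ℂ}
    (hθ : IsHeilbronn θ) (h1 : θ 1 = 2) (g : G) : IsIntegral ℤ (θ g) := by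
  obtain ⟨H, ψ, φ, hx, hy, h⟩ := hθ.pair_two h1 (x := g) (y := g) rfl
  have h2 := h ⟨g, hx⟩
  simp only at h2
  rw [h2]
  exact (isIntegral_char ψ _).add (isIntegral_char φ _)

/-- The parity theorem. -/
theorem IsHeilbronn.parity {G : Type u} [Group G] [Finite G] {θ : G → ℂ}
    (hθ : IsHeilbronn θ) (h1 : θ 1 = 2) (hd : ∀ g, dd θ g = 1) {n : ℕ}
    (hn : ∑ᶠ g : G, θ g = n * Nat.card G) : Even n := by
  classical
  have : Fintype G := Fintype.ofFinite _
  obtain ⟨F, hF, hodd⟩ := exists_all_odd (G := G)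
  set N := Nat.card G with hN
  have hpow : HypCount (fun g => F g ^ (2 ^ N)) := by
    have := hF.pow (2 ^ N - 1)
    rwa [Nat.sub_add_cancel Nat.one_le_two_pow] at this
  obtain ⟨k, hk⟩ := hθ.sum_count h1 hd hpow
  choose e he using fun g => odd_pow_two_pow (F g) (hodd g) N
  set T : ℂ := ∑ g : G, θ g * (e g : ℂ) with hT
  have hTint : IsIntegral ℤ T := by
    apply IsIntegral.sum
    intro g _
    apply IsIntegral.mul (hθ.isIntegral_two h1 g)
    have : ((e g : ℕ) : ℂ) = algebraMap ℤ ℂ (e g : ℤ) := by simp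
    rw [this]
    exact isIntegral_algebraMap
  have hrel : (2 * k * N : ℂ) = n * N + 2 ^ (N + 1) * T := by
    rw [← hk, ← hn, finsum_eq_sum_of_fintype, finsum_eq_sum_of_fintype, hT, Finset.mul_sum,
      ← Finset.sum_add_distrib]
    refine Finset.sum_congr rfl fun g _ => ?_
    rw [he]
    push_cast
    ring
  have hT2 : T = (((((2 * k : ℤ) - n) * N : ℤ) / (2 : ℚ) ^ (N + 1) : ℚ) : ℂ) := by
    have h2 : (2 : ℂ) ^ (N + 1) ≠ 0 := pow_ne_zero _ two_ne_zero
    push_cast
    rw [eq_div_iff h2]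
    linear_combination -hrel
  rw [hT2] at hTint
  have h3 : IsIntegral ℤ ((((2 * k : ℤ) - n) * N : ℤ) / (2 : ℚ) ^ (N + 1) : ℚ) := by
    have h4 : ((((((2 * k : ℤ) - n) * N : ℤ) / (2 : ℚ) ^ (N + 1) : ℚ)) : ℂ)
        = algebraMap ℚ ℂ ((((2 * k : ℤ) - n) * N : ℤ) / (2 : ℚ) ^ (N + 1) : ℚ) := rfl
    rw [h4] at hTint
    exact (isIntegral_algebraMap_iff (algebraMap ℚ ℂ).injective).mp hTint
  obtain ⟨t, ht⟩ := IsIntegrallyClosed.isIntegral_iff.mp h3
  have h5 : ((2 * k : ℤ) - n) * N = 2 ^ (N + 1) * t := by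
    have h6 : (2 : ℚ) ^ (N + 1) ≠ 0 := by positivity
    rw [eq_div_iff h6] at ht
    have h7 : ((((2 * k : ℤ) - n) * N : ℤ) : ℚ) = ((2 ^ (N + 1) * t : ℤ) : ℚ) := by
      rw [← ht]; push_cast; simp only [eq_intCast]; ring
    exact_mod_cast h7
  by_contra hne
  have hnodd : Odd n := Nat.not_even_iff_odd.mp hne
  have h8 : IsCoprime ((2 : ℤ) ^ (N + 1)) ((2 * k : ℤ) - n) := by
    apply IsCoprime.pow_left
    rw [Int.isCoprime_iff_gcd_eq_one]
    have h9 : Odd ((2 * k : ℤ) - n) := by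
      apply Even.sub_odd
      · exact even_two_mul _
      · exact_mod_cast hnodd
    rw [Int.gcd_eq_natAbs]
    have h10 : Odd ((2 * k : ℤ) - n).natAbs := Int.natAbs_odd.mpr h9
    exact Nat.coprime_two_left.mpr h10
  have h9 : (2 : ℤ) ^ (N + 1) ∣ (N : ℤ) := by
    apply h8.dvd_of_dvd_mul_left
    exact ⟨t, h5⟩
  have h10 : 2 ^ (N + 1) ∣ N := by exact_mod_cast h9
  have h11 := Nat.le_of_dvd Nat.card_pos h10
  have h12 : N < 2 ^ N := Nat.lt_two_pow_self
  have h13 : 2 ^ N ≤ 2 ^ (N + 1) := Nat.pow_le_pow_right (by norm_num) (Nat.le_succ N)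
  omega

/-- If the average of a Heilbronn function is its degree, it is constant. -/
lemma IsHeilbronn.const_of_sum {G : Type u} [Group G] [Finite G] {θ : G → ℂ}
    (hθ : IsHeilbronn θ) (h : ∑ᶠ g : G, θ g = θ 1 * Nat.card G) (g : G) : θ g = θ 1 := by
  classical
  have : Fintype G := Fintype.ofFinite _
  obtain ⟨r, hr⟩ := hθ.exists_deg
  rw [finsum_eq_sum_of_fintype, hr] at h
  apply hθ.eq_deg_of_re
  rw [hr, Complex.natCast_re]
  have hnn : ∀ x ∈ (Finset.univ : Finset G), (0 : ℝ) ≤ r - (θ x).re := by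
    intro x _
    have := (Complex.re_le_norm _).trans (hθ.norm_le x)
    rw [hr, Complex.natCast_re] at this
    linarith
  have hzero : ∑ x : G, ((r : ℝ) - (θ x).re) = 0 := by
    have h2 := congrArg Complex.re h
    rw [Complex.re_sum] at h2
    rw [Finset.sum_sub_distrib, h2, Finset.sum_const, Finset.card_univ, nsmul_eq_mul,
      ← Nat.card_eq_fintype_card]
    simp
    ring
  have := (Finset.sum_eq_zero_iff_of_nonneg hnn).mp hzero g (Finset.mem_univ g)
  linarith

end Pool.Agent.H302R2
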