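import Mathlib
import Pool.Agent.H302R2.Basic

/-!
# Heilbronn functions on alternating groups: from one involution to everything
-/

set_option autoImplicit false

namespace Pool.Agent.H302R2

open Equiv Equiv.Perm

section cycles

variable {α : Type*} [Fintype α] [DecidableEq α]

/-- parametrisation of a cycle -/
lemma exists_param {c : Perm α} (hc : c.IsCycle) :
    ∃ f : ZMod c.support.card ↪ α, (∀ k, c (f k) = f (k + 1)) ∧
      (∀ x, x ∈ c.support ↔ ∃ k, f k = x) := by
  classical
  obtain ⟨x₀, hx₀, -⟩ := id hc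
  set N := c.support.card with hN
  have hNpos : 0 < N := by
    rw [hN, Finset.card_pos]; exact ⟨x₀, mem_support.mpr hx₀⟩
  have : NeZero N := ⟨hNpos.ne'⟩
  have hord : orderOf c = N := hc.orderOf
  have hmod : ∀ a b : ℕ, a ≡ b [MOD N] → (c ^ a) x₀ = (c ^ b) x₀ := by
    intro a b hab
    have : c ^ a = c ^ b := by rw [pow_eq_pow_iff_modEq, hord]; exact hab
    rw [this]
  have hinj : Function.Injective (fun k : ZMod N => (c ^ k.val) x₀) := by
    intro k l hkl
    have h1 : c ^ k.val = c ^ l.val := hc.pow_eq_pow_iff.mpr ⟨x₀, hx₀, hkl⟩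
    rw [pow_eq_pow_iff_modEq, hord] at h1
    have h2 : ((k.val : ℕ) : ZMod N) = ((l.val : ℕ) : ZMod N) :=
      (ZMod.natCast_eq_natCast_iff _ _ _).mpr h1
    simpa using h2
  refine ⟨⟨_, hinj⟩, fun k => ?_, fun x => ?_⟩
  · change c ((c ^ k.val) x₀) = (c ^ (k + 1).val) x₀
    rw [← Perm.mul_apply, ← pow_succ']
    apply hmod
    rw [← ZMod.natCast_eq_natCast_iff]
    simp
  · constructor
    · intro hx
      have himg : Finset.univ.image (fun k : ZMod N => (c ^ k.val) x₀) = c.support := by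
        apply Finset.eq_of_subset_of_card_le
        · intro y hy
          obtain ⟨k, -, rfl⟩ := Finset.mem_image.mp hy
          exact pow_apply_mem_support.mpr (mem_support.mpr hx₀)
        · rw [Finset.card_image_of_injective _ hinj, Finset.card_univ, ZMod.card]
      rw [← himg] at hx
      obtain ⟨k, -, hk⟩ := Finset.mem_image.mp hx
      exact ⟨k, hk⟩
    · rintro ⟨k, rfl⟩
      exact pow_apply_mem_support.mpr (mem_support.mpr hx₀)

lemma viaEmb_apply {β : Type*} (f : β ↪ α) (π : Perm β) (x : β) :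
    viaEmbeddingHom f π (f x) = f (π x) := viaEmbedding_apply π f x

lemma viaEmb_notMem {β : Type*} (f : β ↪ α) (π : Perm β) {y : α} (hy : ∀ x, f x ≠ y) :
    viaEmbeddingHom f π y = y :=
  viaEmbedding_apply_of_notMem π f y (fun ⟨x, hx⟩ => hy x hx)

lemma viaEmb_sign {β : Type*} [Fintype β] [DecidableEq β] (f : β ↪ α) (π : Perm β) :
    sign (viaEmbeddingHom f π) = sign π := by
  classical
  rw [viaEmbeddingHom_apply, viaEmbedding, sign_extendDomain]

/-- reflection of a cycle -/
lemma exists_reflection {c : Perm α} (hc : c.IsCycle) :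
    ∃ s : Perm α, s * s = 1 ∧ s * c * s = c⁻¹ ∧ s.support ⊆ c.support := by
  classical
  obtain ⟨f, hf, hsupp⟩ := exists_param hc
  let s := viaEmbeddingHom f (Equiv.neg (ZMod c.support.card))
  have hs : ∀ k, s (f k) = f (-k) := fun k => viaEmb_apply f _ k
  have hs' : ∀ y, y ∉ c.support → s y = y := fun y hy =>
    viaEmb_notMem f _ (fun x hx => hy ((hsupp y).mpr ⟨x, hx⟩))
  have hss : s * s = 1 := by
    ext y
    by_cases hy : y ∈ c.support
    · obtain ⟨k, rfl⟩ := (hsupp y).mp hy
      simp [hs]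
    · simp [hs' y hy]
  refine ⟨s, hss, ?_, ?_⟩
  · rw [eq_inv_iff_mul_eq_one]
    ext y
    by_cases hy : y ∈ c.support
    · obtain ⟨k, rfl⟩ := (hsupp y).mp hy
      simp only [Perm.mul_apply, hf, hs, Perm.one_apply]
      congr 1; ring
    · have hcy : c y = y := by simpa using hy
      simp [hs' y hy, hcy]
  · intro y hy
    by_contra hcon
    exact (mem_support.mp hy) (hs' y hcon)

end cycles

section inK

variable {α : Type*} [Fintype α] [DecidableEq α]

/-- membership in the kernel of `θ` -/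
def InK (θ : alternatingGroup α → ℂ) (g : Perm α) : Prop :=
  ∃ h : g ∈ alternatingGroup α, θ ⟨g, h⟩ = θ 1

variable {θ : alternatingGroup α → ℂ}

lemma InK.sign {g : Perm α} (h : InK θ g) : sign g = 1 := mem_alternatingGroup.mp h.1

lemma InK.one : InK θ 1 := ⟨one_mem _, rfl⟩

lemma InK.mul (hθ : IsHeilbronn θ) {x y : Perm α} (hx : InK θ x) (hy : InK θ y)
    (hxy : x * y = y * x) : InK θ (x * y) := by
  obtain ⟨h1, h2⟩ := hx
  obtain ⟨h3, h4⟩ := hy
  refine ⟨mul_mem h1 h3, ?_⟩
  have := hθ.mul_of_comm (x := ⟨x, h1⟩) (y := ⟨y, h3⟩) (Subtype.ext hxy) h4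
  rw [← h2, ← this]; rfl

lemma InK.conj (hθ : IsHeilbronn θ) {x c : Perm α} (hx : InK θ x) (hc : Perm.sign c = 1) :
    InK θ (c * x * c⁻¹) := by
  obtain ⟨h1, h2⟩ := hx
  have hc' : c ∈ alternatingGroup α := mem_alternatingGroup.mpr hc
  refine ⟨mul_mem (mul_mem hc' h1) (inv_mem hc'), ?_⟩
  have := hθ.conj ⟨x, h1⟩ ⟨c, hc'⟩
  rw [h2] at this
  rw [← this]; rfl

lemma InK.mul_invol (hθ : IsHeilbronn θ) {x y : Perm α} (hx : InK θ x) (hy : InK θ y)
    (hx2 : x * x = 1) (hy2 : y * y = 1) : InK θ (x * y) := by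
  obtain ⟨h1, h2⟩ := hx
  obtain ⟨h3, h4⟩ := hy
  refine ⟨mul_mem h1 h3, ?_⟩
  have := hθ.mul_of_invol (x := ⟨x, h1⟩) (y := ⟨y, h3⟩) (Subtype.ext hx2) (Subtype.ext hy2) h2 h4
  rw [← this]; rfl

/-- Kernel lemma transported to permutations, with a general linear character -/
lemma InK.kernel (hθ : IsHeilbronn θ) {E : Type*} [Group E] [Finite E]
    (φ : E →* Perm α) (hφ : ∀ e, Perm.sign (φ e) = 1) (χ : E →* ℂˣ) {e₀ : E} (he₀ : χ e₀ ≠ 1)
    (h : ∀ e, χ e ≠ 1 → InK θ (φ e)) (e : E) : InK θ (φ e) := by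
  let φ' : E →* alternatingGroup α :=
    φ.codRestrict (alternatingGroup α) (fun e => mem_alternatingGroup.mpr (hφ e))
  refine ⟨mem_alternatingGroup.mpr (hφ e), ?_⟩
  exact hθ.kernel_lemma φ' χ he₀ (fun e he => (h e he).2) e

/-- one even involution in the kernel gives all products of two disjoint transpositions -/
lemma InK.double_swap_of_invol (hθ : IsHeilbronn θ) {x : Perm α} (hx : InK θ x) (hx2 : x * x = 1)
    (hx1 : x ≠ 1) :
    ∃ a b c d : α, a ≠ b ∧ a ≠ c ∧ a ≠ d ∧ b ≠ c ∧ b ≠ d ∧ c ≠ d ∧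
      InK θ (swap a d * swap b c) := by
  classical
  have hinv : ∀ y, x (x y) = y := fun y => by
    rw [← Perm.mul_apply, hx2, Perm.one_apply]
  obtain ⟨a, ha⟩ : ∃ a, x a ≠ a := by
    by_contra hcon
    push Not at hcon
    exact hx1 (Equiv.ext hcon)
  obtain ⟨c, hc, hca, hcb⟩ : ∃ c, x c ≠ c ∧ c ≠ a ∧ c ≠ x a := by
    by_contra hcon
    push Not at hcon
    have hx' : x = swap a (x a) := by
      ext y
      by_cases hya : y = a
      · rw [hya, swap_apply_left]
      · by_cases hyb : y = x a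
        · rw [hyb, swap_apply_right, hinv]
        · rw [swap_apply_of_ne_of_ne hya hyb]
          by_contra hy
          exact hyb (hcon y hy hya)
    have h1 := hx.sign
    rw [hx', sign_swap ha.symm] at h1
    exact absurd h1 (by decide)
  set b := x a with hb
  set d := x c with hd
  have hab : a ≠ b := ha.symm
  have hcd : c ≠ d := hc.symm
  have had : a ≠ d := fun h => hcb (by rw [hb, h, hd, hinv])
  have hbd : b ≠ d := fun h => hca (x.injective (by rw [← hd, ← h]))
  have hxb : x b = a := hinv a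
  have hxd : x d = c := hinv c
  set c3 := swap b c * swap c d with hc3
  have hc3s : Perm.sign c3 = 1 := by
    rw [hc3, Perm.sign_mul, sign_swap hcb.symm, sign_swap hcd]; rfl
  have e1 : c3 a = a := by
    rw [hc3, Perm.mul_apply, swap_apply_of_ne_of_ne hca.symm had, swap_apply_of_ne_of_ne hab hca.symm]
  have e2 : c3 b = c := by
    rw [hc3, Perm.mul_apply, swap_apply_of_ne_of_ne hcb.symm hbd, swap_apply_left]
  have e3 : c3 c = d := by
    rw [hc3, Perm.mul_apply, swap_apply_left, swap_apply_of_ne_of_ne hbd.symm hcd.symm]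
  have e4 : c3 d = b := by
    rw [hc3, Perm.mul_apply, swap_apply_right, swap_apply_right]
  have e5 : ∀ z, z ≠ b → z ≠ c → z ≠ d → c3 z = z := by
    intro z h1 h2 h3
    rw [hc3, Perm.mul_apply, swap_apply_of_ne_of_ne h2 h3, swap_apply_of_ne_of_ne h1 h2]
  set y := c3 * x * c3⁻¹ with hy
  have hyK : InK θ y := hx.conj hθ hc3s
  have f1 : y a = c := by
    rw [hy, Perm.mul_apply, Perm.mul_apply, (inv_eq_iff_eq.mpr e1.symm), ← hb, e2]
  have f2 : y b = d := by
    rw [hy, Perm.mul_apply, Perm.mul_apply, (inv_eq_iff_eq.mpr e4.symm), hxd, e3]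
  have f3 : y c = a := by
    rw [hy, Perm.mul_apply, Perm.mul_apply, (inv_eq_iff_eq.mpr e2.symm), hxb, e1]
  have f4 : y d = b := by
    rw [hy, Perm.mul_apply, Perm.mul_apply, (inv_eq_iff_eq.mpr e3.symm), ← hd, e4]
  have f5 : ∀ z, z ≠ a → z ≠ b → z ≠ c → z ≠ d → y z = x z := by
    intro z h1 h2 h3 h4
    rw [hy, Perm.mul_apply, Perm.mul_apply, (inv_eq_iff_eq.mpr (e5 z h2 h3 h4).symm)]
    apply e5
    · intro h; apply h1; rw [← hxb, ← h, hinv]
    · intro h; apply h4; rw [hd, ← h, hinv]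
    · intro h; apply h3; rw [← hxd, ← h, hinv]
  have hkey : ∀ z, x (y z) = (swap a d * swap b c) z := by
    intro z
    by_cases h1 : z = a
    · rw [h1, f1, Perm.mul_apply, swap_apply_of_ne_of_ne hab hca.symm, swap_apply_left]
    by_cases h2 : z = b
    · rw [h2, f2, hxd, Perm.mul_apply, swap_apply_left, swap_apply_of_ne_of_ne hca hcd]
    by_cases h3 : z = c
    · rw [h3, f3, Perm.mul_apply, swap_apply_right, swap_apply_of_ne_of_ne hab.symm hbd]
    by_cases h4 : z = d
    · rw [h4, f4, hxb, Perm.mul_apply, swap_apply_of_ne_of_ne hbd.symm hcd.symm, swap_apply_right]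
    rw [f5 z h1 h2 h3 h4, hinv, Perm.mul_apply, swap_apply_of_ne_of_ne h2 h3,
      swap_apply_of_ne_of_ne h1 h4]
  have hkey2 : ∀ z, y (x z) = x (y z) := by
    intro z
    by_cases h1 : z = a
    · rw [h1, f1, ← hb, f2]
    by_cases h2 : z = b
    · rw [h2, f2, hxd, hxb, f1]
    by_cases h3 : z = c
    · rw [h3, f3, ← hd, f4]
    by_cases h4 : z = d
    · rw [h4, f4, hxb, hxd, f3]
    rw [f5 z h1 h2 h3 h4, hinv, f5 (x z), hinv]
    · intro h; apply h2; rw [hb, ← h, hinv]
    · intro h; apply h1; rw [← hxb, ← h, hinv]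
    · intro h; apply h4; rw [hd, ← h, hinv]
    · intro h; apply h3; rw [← hxd, ← h, hinv]
  refine ⟨a, b, c, d, hab, hca.symm, had, hcb.symm, hbd, hcd, ?_⟩
  have h1 : x * y = swap a d * swap b c := Equiv.ext hkey
  rw [← h1]
  exact hx.mul hθ hyK (Equiv.ext fun z => (hkey2 z).symm)

lemma cycleType_double_swap {a b c d : α} (hab : a ≠ b) (hac : a ≠ c) (had : a ≠ d)
    (hbc : b ≠ c) (hbd : b ≠ d) (hcd : c ≠ d) :
    (swap a b * swap c d).cycleType = {2, 2} := by
  have hdis : Disjoint (swap a b) (swap c d) := by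
    rw [disjoint_iff_disjoint_support, support_swap hab, support_swap hcd]
    simp only [Finset.disjoint_insert_left, Finset.mem_insert, Finset.mem_singleton,
      Finset.disjoint_singleton_left, not_or]
    exact ⟨⟨hac, had⟩, ⟨hbc, hbd⟩⟩
  have h1 : (swap a b).cycleType = {2} := by
    rw [← isSwap_iff_cycleType]; exact ⟨a, b, hab, rfl⟩
  have h2 : (swap c d).cycleType = {2} := by
    rw [← isSwap_iff_cycleType]; exact ⟨c, d, hcd, rfl⟩
  rw [hdis.cycleType_mul, h1, h2]
  rfl

/-- all double transpositions are in the kernel -/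
lemma InK.double_swap (hθ : IsHeilbronn θ) {x : Perm α} (hx : InK θ x) (hx2 : x * x = 1)
    (hx1 : x ≠ 1) {a b c d : α} (hab : a ≠ b) (hac : a ≠ c) (had : a ≠ d)
    (hbc : b ≠ c) (hbd : b ≠ d) (hcd : c ≠ d) : InK θ (swap a b * swap c d) := by
  obtain ⟨a', b', c', d', h1, h2, h3, h4, h5, h6, hK⟩ := hx.double_swap_of_invol hθ hx2 hx1
  have hconj : IsConj (swap a' d' * swap b' c') (swap a b * swap c d) := by
    rw [isConj_iff_cycleType_eq, cycleType_double_swap h3 h1 h2 h5.symm h6.symm h4,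
      cycleType_double_swap hab hac had hbc hbd hcd]
  obtain ⟨g, hg⟩ := isConj_iff.mp hconj
  rcases Int.units_eq_one_or (Perm.sign g) with hs | hs
  · rw [← hg]; exact hK.conj hθ hs
  · -- multiply by swap a' d'
    have hs' : Perm.sign (g * swap a' d') = 1 := by
      rw [Perm.sign_mul, hs, sign_swap h3]; rfl
    have hcomm : swap a' d' * (swap a' d' * swap b' c') * (swap a' d')⁻¹
        = swap a' d' * swap b' c' := by
      have hdis : Disjoint (swap a' d') (swap b' c') := by
        rw [disjoint_iff_disjoint_support, support_swap h3, support_swap h4]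
        simp only [Finset.disjoint_insert_left, Finset.mem_insert, Finset.mem_singleton,
          Finset.disjoint_singleton_left, not_or]
        exact ⟨⟨h1, h2⟩, ⟨h5.symm, h6.symm⟩⟩
      rw [mul_assoc, mul_assoc, ← hdis.commute.inv_left.eq, ← mul_assoc (swap a' d') (swap a' d')⁻¹,
        mul_inv_cancel, one_mul]
    have : (g * swap a' d') * (swap a' d' * swap b' c') * (g * swap a' d')⁻¹
        = swap a b * swap c d := by
      rw [← hg, mul_inv_rev]
      conv_rhs => rw [← hcomm]
      group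
    rw [← this]; exact hK.conj hθ hs'

end inK

end Pool.Agent.H302R2
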