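import Mathlib
import Pool.Agent.H302R2.SymB

/-!
# Heilbronn functions on alternating groups: long cycles
-/

set_option autoImplicit false

namespace Pool.Agent.H302R2

open Equiv Equiv.Perm

section long

variable {α : Type*} [Fintype α] [DecidableEq α] {θ : alternatingGroup α → ℂ}

omit [Fintype α] [DecidableEq α] in
lemma perm_mul_inv_apply (π : Perm α) (x : α) : π (π⁻¹ x) = x := by
  rw [← Perm.mul_apply, mul_inv_cancel, Perm.one_apply]

omit [Fintype α] [DecidableEq α] in
lemma perm_inv_mul_apply (π : Perm α) (x : α) : π⁻¹ (π x) = x := by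
  rw [← Perm.mul_apply, inv_mul_cancel, Perm.one_apply]

/-- affine permutations of `ZMod p` which are even -/
def affineEven (p : ℕ) [NeZero p] : Subgroup (Perm (ZMod p) × (ZMod p)ˣ) where
  carrier := {e | (∀ x y, e.1 x - e.1 y = (e.2 : ZMod p) * (x - y)) ∧ Perm.sign e.1 = 1}
  mul_mem' := by
    rintro ⟨π, a⟩ ⟨ρ, b⟩ ⟨h1, h2⟩ ⟨h3, h4⟩
    refine ⟨fun x y => ?_, ?_⟩
    · simp only [Prod.fst_mul, Prod.snd_mul, Perm.mul_apply, Units.val_mul]
      simp only at h1 h3
      rw [h1, h3, mul_assoc]
    · simp only [Prod.fst_mul, Perm.sign_mul]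
      simp only at h2 h4
      rw [h2, h4, one_mul]
  one_mem' := ⟨fun x y => by simp, by simp⟩
  inv_mem' := by
    rintro ⟨π, a⟩ ⟨h1, h2⟩
    refine ⟨fun x y => ?_, ?_⟩
    · simp only [Prod.fst_inv, Prod.snd_inv]
      simp only at h1
      have := h1 (π⁻¹ x) (π⁻¹ y)
      simp only [perm_mul_inv_apply] at this
      rw [this, ← mul_assoc, Units.inv_mul, one_mul]
    · simp only [Prod.fst_inv, Perm.sign_inv]
      exact h2

lemma odd_card_of_cycle {g : Perm α} (hc : g.IsCycle) (hs : Perm.sign g = 1) :
    Odd g.support.card := by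
  rw [hc.sign] at hs
  by_contra hcon
  rw [Nat.not_odd_iff_even] at hcon
  rw [hcon.neg_one_pow] at hs
  exact absurd hs (by decide)

lemma InK.of_long_prime (hθ : IsHeilbronn θ) (hD : HasDoubleSwaps θ) {p : ℕ} [hp : Fact p.Prime]
    (hp5 : 5 ≤ p) (f : ZMod p ↪ α) : InK θ (viaEmbeddingHom f (Equiv.addRight (1 : ZMod p))) := by
  classical
  have hpodd : Odd p := hp.out.odd_of_ne_two (by omega)
  have h2 : (2 : ZMod p) ≠ 0 := by
    intro h
    have : ((2 : ℕ) : ZMod p) = 0 := by exact_mod_cast h
    rw [ZMod.natCast_eq_zero_iff] at this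
    exact absurd (Nat.le_of_dvd (by norm_num) this) (by omega)
  have h3 : (3 : ZMod p) ≠ 0 := by
    intro h
    have : ((3 : ℕ) : ZMod p) = 0 := by exact_mod_cast h
    rw [ZMod.natCast_eq_zero_iff] at this
    exact absurd (Nat.le_of_dvd (by norm_num) this) (by omega)
  let u : (ZMod p)ˣ := Units.mk0 2 h2
  have huu : u * u ≠ 1 := by
    intro h
    have h4 : ((u * u : (ZMod p)ˣ) : ZMod p) = 1 := by rw [h]; rfl
    have h5 : (2 : ZMod p) * 2 = 1 := h4
    apply h3
    linear_combination h5
  obtain ⟨lam, hlam⟩ := CommGroup.exists_apply_ne_one_of_hasEnoughRootsOfUnity (ZMod p)ˣ ℂ huu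
  let φ : affineEven p →* Perm α :=
    (viaEmbeddingHom f).comp ((MonoidHom.fst _ _).comp (affineEven p).subtype)
  let χ : affineEven p →* ℂˣ := lam.comp ((MonoidHom.snd _ _).comp (affineEven p).subtype)
  have hφs : ∀ e, Perm.sign (φ e) = 1 := by
    rintro ⟨⟨π, a⟩, h1, h2⟩
    simp only [φ, MonoidHom.comp_apply, Subgroup.coe_subtype, MonoidHom.coe_fst]
    rw [viaEmb_sign]; exact h2
  let e₀ : affineEven p := ⟨(Units.mulLeft u * Units.mulLeft u, u * u), by
    refine ⟨fun x y => ?_, ?_⟩
    · simp only [Perm.mul_apply, Units.mulLeft_apply, Units.val_mul]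
      ring
    · simp only [Perm.sign_mul]; exact Int.units_mul_self _⟩
  let e₁ : affineEven p := ⟨(Equiv.addRight (1 : ZMod p), 1), by
    refine ⟨fun x y => ?_, ?_⟩
    · simp
    · -- (x ↦ x + 1) has odd order
      have h5 : (Equiv.addRight (1 : ZMod p)) ^ p = 1 := by
        ext x
        have : ∀ k : ℕ, ((Equiv.addRight (1 : ZMod p)) ^ k) x = x + k := by
          intro k
          induction k with
          | zero => simp
          | succ k ih =>
            rw [pow_succ', Perm.mul_apply, ih]
            simp only [Equiv.coe_addRight, Nat.cast_add, Nat.cast_one]; ring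
        rw [this]; simp
      have h6 := congrArg Perm.sign h5
      rw [map_pow, map_one] at h6
      rcases Int.units_eq_one_or (Perm.sign (Equiv.addRight (1 : ZMod p))) with h7 | h7
      · exact h7
      · rw [h7, hpodd.neg_one_pow] at h6
        exact absurd h6 (by decide)⟩
  have key := InK.kernel hθ φ hφs χ (e₀ := e₀) hlam ?_ e₁
  · exact key
  · rintro ⟨⟨π, a⟩, h1, hs⟩ hχ
    have ha : a ≠ 1 := by
      rintro rfl
      apply hχ
      simp [χ]
    simp only at h1 hs
    -- fixed point
    have ha' : (1 : ZMod p) - a ≠ 0 := by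
      intro h
      apply ha
      rw [← Units.val_eq_one]
      exact (sub_eq_zero.mp h).symm
    have hfix : π (π 0 / (1 - a)) = π 0 / (1 - a) := by
      have h5 := h1 (π 0 / (1 - a)) 0
      rw [sub_zero] at h5
      have h6 : π (π 0 / (1 - a)) = a * (π 0 / (1 - a)) + π 0 := by
        linear_combination h5
      rw [h6]
      field_simp
      ring
    apply InK.of_not_long hθ hD (hφs _)
    intro hcyc
    have hodd := odd_card_of_cycle hcyc (hφs _)
    set g := φ ⟨(π, a), h1, hs⟩ with hg
    have hgf : ∀ x, g (f x) = f (π x) := fun x => viaEmb_apply f π x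
    have hgn : ∀ y, (∀ x, f x ≠ y) → g y = y := fun y hy => viaEmb_notMem f π hy
    have hsub : g.support ⊆ (Finset.univ.erase (π 0 / (1 - a))).map f := by
      intro y hy
      rw [mem_support] at hy
      by_cases hex : ∃ x, f x = y
      · obtain ⟨x, rfl⟩ := hex
        rw [Finset.mem_map' f, Finset.mem_erase]
        refine ⟨?_, Finset.mem_univ _⟩
        intro hx
        apply hy
        rw [hgf, hx, hfix]
      · push Not at hex
        exact absurd (hgn y hex) hy
    have h5 := Finset.card_le_card hsub
    rw [Finset.card_map, Finset.card_erase_of_mem (Finset.mem_univ _), Finset.card_univ,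
      ZMod.card] at h5
    have h6 : p ≤ Fintype.card α := by
      have := Fintype.card_le_of_embedding f
      rwa [ZMod.card] at this
    obtain ⟨k, hk⟩ := hodd
    obtain ⟨l, hl⟩ := hpodd
    omega

/-- block-preserving even permutations of `ZMod N` -/
def blockEven (N a : ℕ) [NeZero N] [NeZero a] (h : a ∣ N) :
    Subgroup (Perm (ZMod N) × Perm (ZMod a)) where
  carrier := {e | (∀ x, ZMod.castHom h (ZMod a) (e.1 x) = e.2 (ZMod.castHom h (ZMod a) x)) ∧
    Perm.sign e.1 = 1}
  mul_mem' := by
    rintro ⟨π, σ⟩ ⟨ρ, τ⟩ ⟨h1, h2⟩ ⟨h3, h4⟩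
    refine ⟨fun x => ?_, ?_⟩
    · simp only [Prod.fst_mul, Prod.snd_mul, Perm.mul_apply]
      simp only at h1 h3
      rw [h1, h3]
    · simp only [Prod.fst_mul, Perm.sign_mul]
      simp only at h2 h4
      rw [h2, h4, one_mul]
  one_mem' := ⟨fun x => by simp, by simp⟩
  inv_mem' := by
    rintro ⟨π, σ⟩ ⟨h1, h2⟩
    refine ⟨fun x => ?_, ?_⟩
    · simp only [Prod.fst_inv, Prod.snd_inv]
      simp only at h1
      have := h1 (π⁻¹ x)
      rw [perm_mul_inv_apply] at this
      rw [this, perm_inv_mul_apply]
    · simp only [Prod.fst_inv, Perm.sign_inv]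
      exact h2

lemma InK.of_long_composite (hθ : IsHeilbronn θ) (hD : HasDoubleSwaps θ) {N a : ℕ} [NeZero N]
    [NeZero a] (haN : a ∣ N) (ha3 : 3 ≤ a) (haN' : a < N) (hNodd : Odd N) (f : ZMod N ↪ α) :
    InK θ (viaEmbeddingHom f (Equiv.addRight (1 : ZMod N))) := by
  classical
  have : Fact (1 < a) := ⟨by omega⟩
  set q := ZMod.castHom haN (ZMod a) with hq
  have hqs : Function.Surjective q := ZMod.castHom_surjective haN
  let φ : blockEven N a haN →* Perm α :=
    (viaEmbeddingHom f).comp ((MonoidHom.fst _ _).comp (blockEven N a haN).subtype)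
  let χ : blockEven N a haN →* ℤˣ :=
    Perm.sign.comp ((MonoidHom.snd _ _).comp (blockEven N a haN).subtype)
  have hφs : ∀ e, Perm.sign (φ e) = 1 := by
    rintro ⟨⟨π, a⟩, h1, h2⟩
    simp only [φ, MonoidHom.comp_apply, Subgroup.coe_subtype, MonoidHom.coe_fst]
    rw [viaEmb_sign]; exact h2
  have h01 : (0 : ZMod a) ≠ 1 := zero_ne_one
  -- an element exchanging two blocks
  obtain ⟨π₀, hπ₀⟩ : ∃ π₀ : Perm (ZMod N), ∀ x, q (π₀ x) = swap (0 : ZMod a) 1 (q x) := by
    let F : ZMod N → ZMod N := fun x => if q x = 0 then x + 1 else if q x = 1 then x - 1 else x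
    have hF : ∀ x, q (F x) = swap (0 : ZMod a) 1 (q x) := by
      intro x
      by_cases h0 : q x = 0
      · simp only [F, h0, if_true, map_add, map_one, swap_apply_left, zero_add]
      · by_cases h1 : q x = 1
        · simp only [F, h1, map_sub, map_one, swap_apply_right, h01.symm, if_false, if_true,
            sub_self]
        · simp only [F, h0, h1, if_false, swap_apply_of_ne_of_ne h0 h1]
    have hFF : ∀ x, F (F x) = x := by
      intro x
      by_cases h0 : q x = 0
      · have e1 : F x = x + 1 := by simp [F, h0]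
        have e2 : q (x + 1) = 1 := by rw [map_add, map_one, h0, zero_add]
        rw [e1]
        simp [F, e2, h01.symm]
      · by_cases h1 : q x = 1
        · have e1 : F x = x - 1 := by simp [F, h1, h01.symm]
          have e2 : q (x - 1) = 0 := by rw [map_sub, map_one, h1, sub_self]
          rw [e1]
          simp [F, e2]
        · have e1 : F x = x := by simp [F, h0, h1]
          rw [e1, e1]
    exact ⟨⟨F, F, hFF, hFF⟩, hF⟩
  -- a transposition inside one block
  let π₁ : Perm (ZMod N) := swap (0 : ZMod N) (a : ZMod N)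
  have ha0 : (0 : ZMod N) ≠ (a : ZMod N) := by
    intro h
    have := h.symm
    rw [ZMod.natCast_eq_zero_iff] at this
    exact absurd (Nat.le_of_dvd (by omega) this) (by omega)
  have hπ₁s : Perm.sign π₁ = -1 := sign_swap ha0
  have hqa : q (a : ZMod N) = 0 := by rw [map_natCast]; simp
  have hπ₁ : ∀ x, q (π₁ x) = q x := by
    intro x
    by_cases h0 : x = 0
    · rw [h0]; simp only [π₁, swap_apply_left, hqa, map_zero]
    · by_cases h1 : x = (a : ZMod N)
      · rw [h1]; simp only [π₁, swap_apply_right, hqa, map_zero]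
      · simp only [π₁, swap_apply_of_ne_of_ne h0 h1]
  obtain ⟨e₀, he₀⟩ : ∃ e₀ : blockEven N a haN, χ e₀ = -1 := by
    rcases Int.units_eq_one_or (Perm.sign π₀) with hs | hs
    · refine ⟨⟨(π₀, swap 0 1), hπ₀, hs⟩, ?_⟩
      simp only [χ, MonoidHom.comp_apply, Subgroup.coe_subtype, MonoidHom.coe_snd]
      exact sign_swap h01
    · refine ⟨⟨(π₀ * π₁, swap 0 1), fun x => ?_, ?_⟩, ?_⟩
      · simp only [Perm.mul_apply]
        rw [hπ₀, hπ₁]
      · simp only [Perm.sign_mul]
        rw [hs, hπ₁s]; rfl
      · simp only [χ, MonoidHom.comp_apply, Subgroup.coe_subtype, MonoidHom.coe_snd]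
        exact sign_swap h01
  let e₁ : blockEven N a haN := ⟨(Equiv.addRight (1 : ZMod N), Equiv.addRight (1 : ZMod a)), by
    refine ⟨fun x => ?_, ?_⟩
    · simp only [Equiv.coe_addRight, map_add, map_one]
    · have h5 : (Equiv.addRight (1 : ZMod N)) ^ N = 1 := by
        ext x
        have : ∀ k : ℕ, ((Equiv.addRight (1 : ZMod N)) ^ k) x = x + k := by
          intro k
          induction k with
          | zero => simp
          | succ k ih =>
            rw [pow_succ', Perm.mul_apply, ih]
            simp only [Equiv.coe_addRight, Nat.cast_add, Nat.cast_one]; ring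
        rw [this]; simp
      have h6 := congrArg Perm.sign h5
      rw [map_pow, map_one] at h6
      rcases Int.units_eq_one_or (Perm.sign (Equiv.addRight (1 : ZMod N))) with h7 | h7
      · exact h7
      · rw [h7, hNodd.neg_one_pow] at h6
        exact absurd h6 (by decide)⟩
  have key := InK.kernel hθ φ hφs (signToC.comp χ) (e₀ := e₀)
    (by rw [MonoidHom.comp_apply, signToC_ne_one_iff]; exact he₀) ?_ e₁
  · exact key
  · intro e hχ
    rw [MonoidHom.comp_apply, signToC_ne_one_iff] at hχ
    apply InK.of_not_long hθ hD (hφs _)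
    intro hcyc
    exfalso
    have hodd := odd_card_of_cycle hcyc (hφs _)
    have hord : orderOf (φ e) = (φ e).support.card := hcyc.orderOf
    obtain ⟨⟨π, σ⟩, h1, hs⟩ := e
    simp only at h1 hs
    set g := φ ⟨(π, σ), h1, hs⟩ with hg
    set L := g.support.card with hL
    have hpow : g ^ L = 1 := by rw [← hord]; exact pow_orderOf_eq_one _
    have hπL : π ^ L = 1 := by
      apply viaEmbeddingHom_injective f
      rw [map_pow, map_one]; exact hpow
    have hcomp : ∀ (k : ℕ) (x : ZMod N), q ((π ^ k) x) = (σ ^ k) (q x) := by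
      intro k
      induction k with
      | zero => intro x; simp
      | succ k ih =>
        intro x
        rw [pow_succ', pow_succ', Perm.mul_apply, Perm.mul_apply, ← ih]
        exact h1 _
    have hσL : σ ^ L = 1 := by
      ext y
      obtain ⟨x, rfl⟩ := hqs y
      rw [← hcomp, hπL]; rfl
    have h6 := congrArg Perm.sign hσL
    rw [map_pow, map_one] at h6
    have h7 : Perm.sign σ = -1 := hχ
    rw [h7, hodd.neg_one_pow] at h6
    exact absurd h6 (by decide)

/-- All even permutations are in the kernel once the products of two transpositions are. -/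
theorem InK.all (hθ : IsHeilbronn θ) (hD : HasDoubleSwaps θ) (hcard : 5 ≤ Fintype.card α)
    {g : Perm α} (hg : Perm.sign g = 1) : InK θ g := by
  classical
  by_cases hlong : g.IsCycle → g.support.card + 2 ≤ Fintype.card α
  · exact InK.of_not_long hθ hD hg hlong
  push Not at hlong
  obtain ⟨hcyc, hlen⟩ := hlong
  have hodd := odd_card_of_cycle hcyc hg
  obtain ⟨f, hf, hsupp⟩ := exists_param hcyc
  have hN5 : 5 ≤ g.support.card := by
    obtain ⟨k, hk⟩ := hodd
    omega
  have : NeZero g.support.card := ⟨by omega⟩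
  have hgf : g = viaEmbeddingHom f (Equiv.addRight (1 : ZMod g.support.card)) := by
    ext y
    by_cases hy : y ∈ g.support
    · obtain ⟨k, rfl⟩ := (hsupp y).mp hy
      rw [hf, viaEmb_apply]; rfl
    · rw [viaEmb_notMem f _ (fun x hx => hy ((hsupp y).mpr ⟨x, hx⟩))]
      simpa using hy
  have hgoal : InK θ (viaEmbeddingHom f (Equiv.addRight (1 : ZMod g.support.card))) := by
    by_cases hprime : g.support.card.Prime
    · have : Fact g.support.card.Prime := ⟨hprime⟩
      exact InK.of_long_prime hθ hD hN5 f
    · have haprime : g.support.card.minFac.Prime := Nat.minFac_prime (by omega)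
      have haN : g.support.card.minFac ∣ g.support.card := Nat.minFac_dvd _
      have ha2 : g.support.card.minFac ≠ 2 := by
        intro h
        have : 2 ∣ g.support.card := h ▸ haN
        obtain ⟨k, hk⟩ := hodd
        omega
      have ha3 : 3 ≤ g.support.card.minFac := by
        have := haprime.two_le
        omega
      have haN' : g.support.card.minFac < g.support.card := by
        rcases lt_or_eq_of_le (Nat.le_of_dvd (by omega) haN) with h | h
        · exact h
        · exact absurd (h ▸ haprime) hprime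
      have : NeZero g.support.card.minFac := ⟨by omega⟩
      exact InK.of_long_composite hθ hD haN ha3 haN' hodd f
  rwa [← hgf] at hgoal

end long

end Pool.Agent.H302R2
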