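import Mathlib
import Pool.Agent.H302R2.SymC

/-!
# Heilbronn functions on alternating groups: the degree bound gives an involution in the kernel
-/

set_option autoImplicit false

namespace Pool.Agent.H302R2

open Equiv Equiv.Perm

section count

variable {F : Type*} [Field F] [Fintype F] [DecidableEq F] {m : ℕ}

/-- the weight of a vector -/
def wt (z : Fin m → F) : ℕ := (Finset.univ.filter fun i => z i ≠ 0).card

lemma card_support_eq (S : Finset (Fin m)) :
    (Finset.univ.filter fun z : Fin m → F => (Finset.univ.filter fun i => z i ≠ 0) = S).card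
      = (Fintype.card F - 1) ^ S.card := by
  classical
  have h1 : (Finset.univ.filter fun z : Fin m → F => (Finset.univ.filter fun i => z i ≠ 0) = S)
      = Fintype.piFinset (fun i => if i ∈ S then (Finset.univ.erase (0 : F)) else {0}) := by
    ext z
    simp only [Finset.mem_filter, Finset.mem_univ, true_and, Fintype.mem_piFinset]
    constructor
    · intro h i
      by_cases hi : i ∈ S
      · rw [if_pos hi, Finset.mem_erase]
        refine ⟨?_, Finset.mem_univ _⟩
        rw [← h] at hi
        simpa using hi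
      · rw [if_neg hi, Finset.mem_singleton]
        rw [← h] at hi
        simpa using hi
    · intro h
      ext i
      simp only [Finset.mem_filter, Finset.mem_univ, true_and]
      have hi' := h i
      by_cases hi : i ∈ S
      · rw [if_pos hi, Finset.mem_erase] at hi'
        simp [hi, hi'.1]
      · rw [if_neg hi, Finset.mem_singleton] at hi'
        simp [hi, hi']
  rw [h1, Fintype.card_piFinset]
  have h2 : ∀ i, (if i ∈ S then (Finset.univ.erase (0 : F)) else {0} : Finset F).card
      = if i ∈ S then (Fintype.card F - 1) else 1 := by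
    intro i
    split_ifs
    · rw [Finset.card_erase_of_mem (Finset.mem_univ _), Finset.card_univ]
    · rfl
  rw [Finset.prod_congr rfl (fun i _ => h2 i), Finset.prod_ite_mem, Finset.prod_const,
    Finset.univ_inter]

lemma card_wt_eq (j : ℕ) :
    (Finset.univ.filter fun z : Fin m → F => wt z = j).card
      = m.choose j * (Fintype.card F - 1) ^ j := by
  classical
  rw [Finset.card_eq_sum_card_fiberwise (f := fun z : Fin m → F =>
    (Finset.univ.filter fun i => z i ≠ 0)) (t := Finset.powersetCard j Finset.univ)]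
  · rw [Finset.sum_congr rfl (g := fun _ => (Fintype.card F - 1) ^ j)]
    · rw [Finset.sum_const, Finset.card_powersetCard, Finset.card_univ, Fintype.card_fin,
        smul_eq_mul]
    · intro S hS
      rw [← (Finset.mem_powersetCard.mp hS).2, ← card_support_eq S]
      congr 1
      ext z
      simp only [Finset.mem_filter, Finset.mem_univ, true_and, and_iff_right_iff_imp]
      intro h
      rw [wt, h]
  · intro z hz
    have hz' := (Finset.mem_filter.mp (Finset.mem_coe.mp hz)).2
    rw [Finset.mem_coe, Finset.mem_powersetCard]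
    exact ⟨Finset.subset_univ _, hz'⟩

lemma pow_ge_self (b j : ℕ) (hb : 2 ≤ b) (hj : 1 ≤ j) : j ≤ b ^ (j - 1) := by
  obtain ⟨k, rfl⟩ := Nat.exists_eq_add_of_le' hj
  simp only [Nat.add_sub_cancel]
  exact Nat.succ_le_of_lt (Nat.lt_pow_self (by omega))

lemma card_wt_ge (hF : 3 ≤ Fintype.card F) {j : ℕ} (hj : 1 ≤ j) (hjm : j ≤ m) :
    (Fintype.card F - 1) * m ≤ (Finset.univ.filter fun z : Fin m → F => wt z = j).card := by
  rw [card_wt_eq]
  set b := Fintype.card F - 1 with hb
  have hb2 : 2 ≤ b := by omega
  obtain ⟨k, rfl⟩ := Nat.exists_eq_add_of_le' hj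
  obtain ⟨l, rfl⟩ := Nat.exists_eq_add_of_le' (hj.trans hjm)
  have h1 : (l + 1) * Nat.choose l k = Nat.choose (l + 1) (k + 1) * (k + 1) :=
    Nat.add_one_mul_choose_eq l k
  have h2 : 1 ≤ Nat.choose l k := Nat.choose_pos (by omega)
  have h3 : l + 1 ≤ Nat.choose (l + 1) (k + 1) * (k + 1) := by
    rw [← h1]; exact Nat.le_mul_of_pos_right _ h2
  have h4 : k + 1 ≤ b ^ k := by
    have := pow_ge_self b (k + 1) hb2 (by omega)
    simpa using this
  calc b * (l + 1) ≤ b * (Nat.choose (l + 1) (k + 1) * (k + 1)) := Nat.mul_le_mul_left _ h3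
    _ ≤ b * (Nat.choose (l + 1) (k + 1) * b ^ k) :=
        Nat.mul_le_mul_left _ (Nat.mul_le_mul_left _ h4)
    _ = Nat.choose (l + 1) (k + 1) * b ^ (k + 1) := by ring

lemma exists_monomial {y z : Fin m → F} (h : wt y = wt z) :
    ∃ (u : Fin m → Fˣ) (σ : Perm (Fin m)), ∀ i, z i = (u i : F) * y (σ i) := by
  classical
  have hcard : Fintype.card {i // z i ≠ 0} = Fintype.card {i // y i ≠ 0} := by
    rw [Fintype.card_subtype, Fintype.card_subtype]; exact h.symm
  let e : {i // z i ≠ 0} ≃ {i // y i ≠ 0} := Fintype.equivOfCardEq hcard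
  let σ := e.extendSubtype
  have hσ1 : ∀ i, z i ≠ 0 → y (σ i) ≠ 0 := fun i hi => e.extendSubtype_mem i hi
  have hσ2 : ∀ i, z i = 0 → y (σ i) = 0 := fun i hi => by
    have := e.extendSubtype_not_mem i (by simpa using hi)
    simpa using this
  refine ⟨fun i => if hi : z i = 0 then 1 else Units.mk0 (z i / y (σ i)) (div_ne_zero hi (hσ1 i hi)),
    σ, fun i => ?_⟩
  by_cases hi : z i = 0
  · simp [hi, hσ2 i hi]
  · simp only [hi, dif_neg, not_false_eq_true, Units.val_mk0]
    rw [div_mul_cancel₀ _ (hσ1 i hi)]

end count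

section blocks

variable {F : Type*} [Field F] [Fintype F] [DecidableEq F] {m : ℕ}

/-- translations -/
def trans (m : ℕ) (F : Type*) [Field F] : Multiplicative (Fin m → F) →* Perm (Fin m × F) where
  toFun a := Equiv.prodCongrRight (fun i => Equiv.addRight (Multiplicative.toAdd a i))
  map_one' := by ext x <;> simp
  map_mul' a b := by
    ext ⟨i, x⟩
    · simp
    · simp only [prodCongrRight_apply, coe_addRight, toAdd_mul, Pi.add_apply, Perm.mul_apply]
      ring

/-- monomial transformations -/
def mono (u : Fin m → Fˣ) (σ : Perm (Fin m)) : Perm (Fin m × F) :=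
  Equiv.prodShear σ (fun i => Units.mulLeft (u i))

lemma sign_odd_pow {β : Type*} [Fintype β] [DecidableEq β] {π : Perm β} {k : ℕ} (hk : Odd k)
    (h : π ^ k = 1) : Perm.sign π = 1 := by
  have h6 := congrArg Perm.sign h
  rw [map_pow, map_one] at h6
  rcases Int.units_eq_one_or (Perm.sign π) with h7 | h7
  · exact h7
  · rw [h7, hk.neg_one_pow] at h6
    exact absurd h6 (by decide)

lemma sign_mulLeft (hF : Even (Fintype.card F)) (u : Fˣ) : Perm.sign (Units.mulLeft u) = 1 := by
  have hodd : Odd (Fintype.card F - 1) := by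
    obtain ⟨k, hk⟩ := hF
    have : 0 < Fintype.card F := Fintype.card_pos
    exact ⟨k - 1, by omega⟩
  refine sign_odd_pow hodd ?_
  have h1 : ∀ (k : ℕ) (x : F), ((Units.mulLeft u) ^ k) x = (u : F) ^ k * x := by
    intro k
    induction k with
    | zero => intro x; simp
    | succ k ih =>
      intro x
      rw [pow_succ', Perm.mul_apply, ih, Units.mulLeft_apply]; ring
  ext x
  rw [h1, ← Units.val_pow_eq_pow_val, ← Fintype.card_units, pow_card_eq_one, Units.val_one,
    one_mul, Perm.one_apply]

lemma sign_mono (hF : Even (Fintype.card F)) (u : Fin m → Fˣ) (σ : Perm (Fin m)) :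
    Perm.sign (mono u σ) = 1 := by
  have h1 : mono u σ = Equiv.prodCongrLeft (fun _ : F => σ) *
      Equiv.prodCongrRight (fun i => Units.mulLeft (u i)) := by
    ext x <;> simp [mono]
  rw [h1, Perm.sign_mul, sign_prodCongrLeft, sign_prodCongrRight, Finset.prod_const,
    Finset.card_univ]
  rw [Finset.prod_eq_one (fun i _ => sign_mulLeft hF (u i)), mul_one]
  obtain ⟨k, hk⟩ := hF
  rw [hk, ← two_mul, pow_mul, Int.units_sq, one_pow]

lemma sign_addRight (hF : 4 ≤ Fintype.card F) (x : F) :
    Perm.sign (Equiv.addRight x) = 1 := by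
  -- choose y outside {0, x, -x}
  by_cases hx : x = 0
  · subst hx; simp
  have hconj : ∀ y : F, y ≠ 0 → Perm.sign (Equiv.addRight y) = Perm.sign (Equiv.addRight x) := by
    intro y hy
    let u : Fˣ := Units.mk0 (y / x) (div_ne_zero hy hx)
    have h1 : Equiv.addRight y = Units.mulLeft u * Equiv.addRight x * (Units.mulLeft u)⁻¹ := by
      rw [eq_mul_inv_iff_mul_eq]
      ext z
      simp only [Perm.mul_apply, Units.mulLeft_apply, coe_addRight]
      have : ((u : Fˣ) : F) = y / x := rfl
      rw [this]
      field_simp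
    rw [h1, Perm.sign_mul, Perm.sign_mul, Perm.sign_inv, mul_right_comm, Int.units_mul_self,
      one_mul]
  obtain ⟨y, hy⟩ : ∃ y : F, y ∉ ({0, x, -x} : Finset F) := by
    by_contra hcon
    push Not at hcon
    have h1 : (Finset.univ : Finset F) ⊆ {0, x, -x} := fun y _ => hcon y
    have h2 := Finset.card_le_card h1
    have h3 := Finset.card_le_three (a := (0 : F)) (b := x) (c := -x)
    rw [Finset.card_univ] at h2
    omega
  simp only [Finset.mem_insert, Finset.mem_singleton, not_or] at hy
  obtain ⟨hy0, hyx, hyx'⟩ := hy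
  have h1 : Equiv.addRight (x + y) = Equiv.addRight y * Equiv.addRight x := by
    ext z; simp only [Perm.mul_apply, coe_addRight]; ring
  have h2 := congrArg Perm.sign h1
  rw [Perm.sign_mul, hconj y hy0, hconj (x + y) (fun h => hyx' (by
    rw [eq_neg_iff_add_eq_zero, add_comm]; exact h)), Int.units_mul_self] at h2
  exact h2

lemma sign_trans (hF : 4 ≤ Fintype.card F) (a : Multiplicative (Fin m → F)) :
    Perm.sign (trans m F a) = 1 := by
  change Perm.sign (Equiv.prodCongrRight (fun i => Equiv.addRight (Multiplicative.toAdd a i))) = 1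
  rw [sign_prodCongrRight]
  exact Finset.prod_eq_one (fun i _ => sign_addRight hF _)

lemma mono_conj (u : Fin m → Fˣ) (σ : Perm (Fin m)) (a : Fin m → F) :
    mono u σ * trans m F (Multiplicative.ofAdd (fun i => ((u i)⁻¹ : Fˣ) * a (σ i))) * (mono u σ)⁻¹
      = trans m F (Multiplicative.ofAdd a) := by
  rw [mul_inv_eq_iff_eq_mul]
  ext ⟨i, x⟩
  · simp [mono, trans]
  · simp only [mono, trans, Perm.mul_apply, MonoidHom.coe_mk, OneHom.coe_mk, prodCongrRight_apply,
      toAdd_ofAdd, coe_addRight, prodShear_apply, Units.mulLeft_apply, mul_add,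
      Units.mul_inv_cancel_left]

end blocks

section main

lemma addChar_sum {F : Type*} [AddCommMonoid F] (e : AddChar F ℂ) {ι : Type*} (s : Finset ι)
    (g : ι → F) : e (∑ i ∈ s, g i) = ∏ i ∈ s, e (g i) := by
  classical
  induction s using Finset.induction_on with
  | empty => simp
  | insert i s hi ih => rw [Finset.sum_insert hi, Finset.prod_insert hi, AddChar.map_add_eq_mul, ih]

variable {α : Type*} [Fintype α] [DecidableEq α] {θ : alternatingGroup α → ℂ}
variable {F : Type} [Field F] [Fintype F] [DecidableEq F] {m : ℕ}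

/-- the translations of the blocks, as a homomorphism to the alternating group -/
noncomputable def blockHom (hF : 4 ≤ Fintype.card F) (f : Fin m × F ↪ α) :
    Multiplicative (Fin m → F) →* alternatingGroup α :=
  ((viaEmbeddingHom f).comp (trans m F)).codRestrict (alternatingGroup α) (fun a => by
    rw [mem_alternatingGroup, MonoidHom.comp_apply, viaEmb_sign, sign_trans hF])

lemma blockHom_mono (hθ : IsHeilbronn θ) (hF : 4 ≤ Fintype.card F) (hFe : Even (Fintype.card F))
    (f : Fin m × F ↪ α) (u : Fin m → Fˣ) (σ : Perm (Fin m)) (a : Fin m → F) :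
    θ (blockHom hF f (Multiplicative.ofAdd (fun i => ((u i)⁻¹ : Fˣ) * a (σ i))))
      = θ (blockHom hF f (Multiplicative.ofAdd a)) := by
  have h1 : viaEmbeddingHom f (mono u σ) ∈ alternatingGroup α := by
    rw [mem_alternatingGroup, viaEmb_sign, sign_mono hFe]
  have h2 := hθ.conj (blockHom hF f (Multiplicative.ofAdd (fun i => ((u i)⁻¹ : Fˣ) * a (σ i))))
    ⟨_, h1⟩
  rw [← h2]
  congr 1
  apply Subtype.ext
  change viaEmbeddingHom f (mono u σ) * viaEmbeddingHom f (trans m F _) *
    (viaEmbeddingHom f (mono u σ))⁻¹ = viaEmbeddingHom f (trans m F _)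
  rw [← map_inv, ← map_mul, ← map_mul, mono_conj]

/-- The degree bound forces all the block translations into the kernel. -/
theorem block_kernel (hθ : IsHeilbronn θ) (hF : 4 ≤ Fintype.card F)
    (hFe : Even (Fintype.card F)) (f : Fin m × F ↪ α) {r : ℕ} (hr : θ 1 = r)
    (hlt : r < (Fintype.card F - 1) * m) (a : Fin m → F) :
    θ (blockHom hF f (Multiplicative.ofAdd a)) = θ 1 := by
  classical
  set t : (Fin m → F) → ℂ := fun a => θ (blockHom hF f (Multiplicative.ofAdd a)) with ht
  -- additive character
  set e : AddChar F ℂ := AddChar.FiniteField.primitiveChar_to_Complex F with he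
  have heprim : e.IsPrimitive := AddChar.FiniteField.primitiveChar_to_Complex_isPrimitive F
  let χ : (Fin m → F) → Multiplicative (Fin m → F) →* ℂˣ := fun y =>
    MonoidHom.toHomUnits
      { toFun := fun a => e (∑ i, y i * Multiplicative.toAdd a i)
        map_one' := by simp
        map_mul' := fun a b => by
          rw [← AddChar.map_add_eq_mul, ← Finset.sum_add_distrib]
          congr 1
          refine Finset.sum_congr rfl fun i _ => ?_
          rw [toAdd_mul, Pi.add_apply, mul_add] }
  have hχ : ∀ y a, ((χ y (Multiplicative.ofAdd a) : ℂˣ) : ℂ) = e (∑ i, y i * a i) :=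
    fun y a => rfl
  have hm := fun y => hθ.mult_hom (blockHom hF f) (χ y)
  choose n hn using hm
  have hcardV : (Nat.card (Multiplicative (Fin m → F)) : ℂ) = (Fintype.card F : ℂ) ^ m := by
    rw [Nat.card_eq_fintype_card, Fintype.card_multiplicative, Fintype.card_fun, Fintype.card_fin]
    push_cast; rfl
  have hn' : ∀ y, ∑ a : Fin m → F, t a * e (-∑ i, y i * a i) = n y * (Fintype.card F : ℂ) ^ m := by
    intro y
    rw [← hcardV, ← hn y, ← Multiplicative.ofAdd.sum_comp]
    refine Finset.sum_congr rfl fun a _ => ?_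
    rw [Units.val_inv_eq_inv_val, hχ, AddChar.map_neg_eq_inv]
  have hq : ((Fintype.card F : ℂ) ^ m) ≠ 0 := pow_ne_zero _ (by
    exact_mod_cast Fintype.card_ne_zero)
  -- invariance of n
  have hinv : ∀ y z : Fin m → F, wt y = wt z → n y = n z := by
    intro y z hyz
    obtain ⟨u, σ, huσ⟩ := exists_monomial hyz
    have h1 : ∑ a : Fin m → F, t a * e (-∑ i, y i * a i)
        = ∑ a : Fin m → F, t a * e (-∑ i, z i * a i) := by
      -- substitution a ↦ (i ↦ (u i)⁻¹ * a (σ i)) in the second sum
      let T : (Fin m → F) ≃ (Fin m → F) :=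
        { toFun := fun a i => ((u i)⁻¹ : Fˣ) * a (σ i)
          invFun := fun a i => (u (σ⁻¹ i) : F) * a (σ⁻¹ i)
          left_inv := fun a => by
            ext i
            simp only [perm_mul_inv_apply, Units.mul_inv_cancel_left]
          right_inv := fun a => by
            ext i
            simp only [perm_inv_mul_apply, Units.inv_mul_cancel_left] }
      rw [← T.sum_comp (fun a => t a * e (-∑ i, z i * a i))]
      refine Finset.sum_congr rfl fun a _ => ?_
      have h2 : t (T a) = t a := blockHom_mono hθ hF hFe f u σ a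
      have h3 : ∑ i, z i * (T a) i = ∑ i, y i * a i := by
        rw [← Equiv.sum_comp σ (fun i => y i * a i)]
        refine Finset.sum_congr rfl fun i _ => ?_
        change z i * (((u i)⁻¹ : Fˣ) * a (σ i)) = _
        rw [huσ i]
        have : (u i : F) * (((u i)⁻¹ : Fˣ) : F) = 1 := Units.mul_inv _
        calc (u i : F) * y (σ i) * ((((u i)⁻¹ : Fˣ) : F) * a (σ i))
            = ((u i : F) * (((u i)⁻¹ : Fˣ) : F)) * (y (σ i) * a (σ i)) := by ring
          _ = y (σ i) * a (σ i) := by rw [this, one_mul]
      rw [h2, h3]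
    rw [hn', hn'] at h1
    exact_mod_cast mul_right_cancel₀ hq h1
  -- total multiplicity
  have htot : ∑ y, n y = r := by
    have h1 : ∑ y : Fin m → F, ∑ a : Fin m → F, t a * e (-∑ i, y i * a i)
        = (∑ y, (n y : ℂ)) * (Fintype.card F : ℂ) ^ m := by
      rw [Finset.sum_congr rfl (fun y _ => hn' y), Finset.sum_mul]
    rw [Finset.sum_comm] at h1
    have h2 : ∀ a : Fin m → F, ∑ y : Fin m → F, t a * e (-∑ i, y i * a i)
        = if a = 0 then t 0 * (Fintype.card F : ℂ) ^ m else 0 := by
      intro a
      rw [← Finset.mul_sum]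
      have h3 : ∀ y : Fin m → F, e (-∑ i, y i * a i) = ∏ i, e (y i * (-a i)) := by
        intro y
        rw [← Finset.sum_neg_distrib]
        rw [addChar_sum]
        refine Finset.prod_congr rfl fun i _ => by rw [mul_neg]
      rw [Finset.sum_congr rfl (fun y _ => h3 y)]
      have h4 := Finset.prod_univ_sum (fun _ : Fin m => (Finset.univ : Finset F))
        (fun i x => e (x * (-a i)))
      rw [Fintype.piFinset_univ] at h4
      rw [← h4]
      by_cases ha : a = 0
      · subst ha
        simp
      · rw [if_neg ha]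
        obtain ⟨i, hi⟩ := Function.ne_iff.mp ha
        have h5 : ∑ x : F, e (x * (-a i)) = 0 := by
          rw [AddChar.sum_mulShift _ heprim, if_neg (by simpa using hi)]
          simp
        rw [Finset.prod_eq_zero (Finset.mem_univ i) h5, mul_zero]
    rw [Finset.sum_congr rfl (fun a _ => h2 a)] at h1
    simp only [Finset.sum_ite_eq', Finset.mem_univ, if_true] at h1
    have h6 := mul_right_cancel₀ hq h1
    have h7 : t 0 = r := by
      rw [← hr, ht]
      simp only [ofAdd_zero, map_one]
    rw [h7] at h6
    exact_mod_cast h6.symm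
  -- all nontrivial multiplicities vanish
  have hzero : ∀ y : Fin m → F, y ≠ 0 → n y = 0 := by
    intro y hy
    by_contra hcon
    have hwt1 : 1 ≤ wt y := by
      obtain ⟨i, hi⟩ := Function.ne_iff.mp hy
      rw [wt, Nat.one_le_iff_ne_zero, Finset.card_ne_zero]
      exact ⟨i, by simpa using hi⟩
    have hwtm : wt y ≤ m := by
      rw [wt]
      exact (Finset.card_filter_le _ _).trans (by simp)
    have h1 := card_wt_ge (F := F) (by omega) hwt1 hwtm
    have h2 : (Finset.univ.filter fun z : Fin m → F => wt z = wt y).card ≤ ∑ z, n z := by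
      calc (Finset.univ.filter fun z : Fin m → F => wt z = wt y).card
          = ∑ z ∈ Finset.univ.filter (fun z : Fin m → F => wt z = wt y), 1 := by simp
        _ ≤ ∑ z ∈ Finset.univ.filter (fun z : Fin m → F => wt z = wt y), n z := by
            refine Finset.sum_le_sum fun z hz => ?_
            have := hinv y z (Finset.mem_filter.mp hz).2.symm
            omega
        _ ≤ ∑ z, n z := Finset.sum_le_sum_of_subset (Finset.filter_subset _ _)
    rw [htot] at h2
    omega
  -- conclusion
  have hn0 : (n 0 : ℂ) = r := by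
    have : ∑ y, n y = n 0 := Finset.sum_eq_single 0 (fun y _ hy => hzero y hy) (by simp)
    rw [htot] at this
    exact_mod_cast this.symm
  have hsum := hn' 0
  simp only [Pi.zero_apply, zero_mul, Finset.sum_const_zero, neg_zero, AddChar.map_zero_eq_one,
    mul_one] at hsum
  rw [hn0] at hsum
  have hnn : ∀ b ∈ (Finset.univ : Finset (Fin m → F)), (0 : ℝ) ≤ r - (t b).re := by
    intro b _
    have := (Complex.re_le_norm _).trans (hθ.norm_le (blockHom hF f (Multiplicative.ofAdd b)))
    rw [hr, Complex.natCast_re] at this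
    simp only [ht]; linarith
  have hsum0 : ∑ b : Fin m → F, ((r : ℝ) - (t b).re) = 0 := by
    have h1 := congrArg Complex.re hsum
    rw [Complex.re_sum] at h1
    rw [Finset.sum_sub_distrib, h1, Finset.sum_const, Finset.card_univ, Fintype.card_fun,
      Fintype.card_fin, nsmul_eq_mul]
    have : ((r : ℂ) * (Fintype.card F : ℂ) ^ m).re = r * (Fintype.card F : ℝ) ^ m := by
      have h8 : ((r : ℂ) * (Fintype.card F : ℂ) ^ m) = ((r * (Fintype.card F : ℝ) ^ m : ℝ) : ℂ) := by
        push_cast; rfl
      rw [h8, Complex.ofReal_re]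
    rw [this]
    push_cast; ring
  have h5 := (Finset.sum_eq_zero_iff_of_nonneg hnn).mp hsum0 a (Finset.mem_univ _)
  apply hθ.eq_deg_of_re
  rw [hr, Complex.natCast_re]
  simp only [ht] at h5
  linarith

end main

end Pool.Agent.H302R2
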