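import Mathlib
import Pool.Agent.H302R2.Transfer

/-!
# A weak form of Alperin's fusion theorem, and stable characters
-/

set_option autoImplicit false

namespace Pool.Agent.H302R2

open Subgroup

variable {G : Type*} [Group G] [Finite G] {p : ℕ} [Fact p.Prime]

/-- every `p`-subgroup of the normalizer of `Q` can be conjugated into `P` inside the
normalizer of `Q` -/
def Full (P : Sylow p G) (Q : Subgroup G) : Prop :=
  ∀ R : Subgroup G, IsPGroup p R → R ≤ normalizer (Q : Set G) →
    ∃ n ∈ normalizer (Q : Set G), ∀ r ∈ R, n * r * n⁻¹ ∈ P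

lemma full_self (P : Sylow p G) : Full P (P : Subgroup G) := by
  intro R hR hRN
  refine ⟨1, one_mem _, fun r hr => ?_⟩
  rw [one_mul, inv_one, mul_one]
  have h1 : IsPGroup p (R ⊔ (P : Subgroup G) : Subgroup G) :=
    hR.to_sup_of_normal_right' P.isPGroup' hRN
  have h2 := P.is_maximal' h1 le_sup_right
  have h3 : r ∈ R ⊔ (P : Subgroup G) := mem_sup_left hr
  rw [h2] at h3
  exact h3

/-- the conjugate of a subgroup -/
def cj (x : G) (A : Subgroup G) : Subgroup G := A.map (MulAut.conj x).toMonoidHom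

omit [Finite G] in
lemma mem_cj {x : G} {A : Subgroup G} {y : G} : y ∈ cj x A ↔ x⁻¹ * y * x ∈ A := by
  constructor
  · rintro ⟨a, ha, rfl⟩
    have : x⁻¹ * ((MulAut.conj x).toMonoidHom a) * x = a := by
      simp [mul_assoc]
    rw [this]; exact ha
  · intro h
    refine ⟨x⁻¹ * y * x, h, ?_⟩
    simp [mul_assoc]

omit [Finite G] in
lemma conj_mem_cj {x : G} {A : Subgroup G} {a : G} (ha : a ∈ A) : x * a * x⁻¹ ∈ cj x A := by
  rw [mem_cj]
  have : x⁻¹ * (x * a * x⁻¹) * x = a := by group
  rwa [this]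

omit [Finite G] in
lemma card_cj (x : G) (A : Subgroup G) : Nat.card (cj x A) = Nat.card A :=
  (Nat.card_congr (A.equivMapOfInjective _ (MulAut.conj x).injective).toEquiv).symm

omit [Finite G] in
lemma cj_le_normalizer {x : G} {A B : Subgroup G} (h : B ≤ normalizer (A : Set G)) :
    cj x B ≤ normalizer (cj x A : Set G) := by
  rw [le_normalizer_iff] at h ⊢
  intro b hb a ha
  rw [mem_cj] at hb ha ⊢
  have := h _ hb _ ha
  have h2 : x⁻¹ * b * x * (x⁻¹ * a * x) * (x⁻¹ * b * x)⁻¹ = x⁻¹ * (b * a * b⁻¹) * x := by group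
  rwa [h2] at this

lemma exists_full (P : Sylow p G) (A : Subgroup G) (hA : A ≤ P) :
    ∃ x : G, (∀ a ∈ A, x * a * x⁻¹ ∈ P) ∧ Full P (cj x A) := by
  set NA := normalizer (A : Set G) with hNA
  have hAN : A ≤ NA := le_normalizer
  have hAp : IsPGroup p A := P.isPGroup'.to_le hA
  obtain ⟨T, hT⟩ := (hAp.comap_subtype (K := NA)).exists_le_sylow
  have hTG : IsPGroup p ((T : Subgroup NA).map NA.subtype) := T.isPGroup'.map _
  obtain ⟨Q, hQ⟩ := hTG.exists_le_sylow
  obtain ⟨x, hx⟩ := MulAction.exists_smul_eq G Q P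
  have hconj : ∀ q ∈ Q, x * q * x⁻¹ ∈ P := by
    intro q hq
    rw [← hx]
    exact Subgroup.smul_mem_pointwise_smul q (MulAut.conj x) (Q : Subgroup G) hq
  have hTP : ∀ t : NA, t ∈ T → x * t * x⁻¹ ∈ P := by
    intro t ht
    exact hconj _ (hQ ⟨t, ht, rfl⟩)
  refine ⟨x, fun a ha => ?_, ?_⟩
  · exact hTP ⟨a, hAN ha⟩ (hT (by rw [Subgroup.mem_comap]; exact ha))
  · intro R hR hRN
    -- pull back to NA
    have hR'N : ∀ r ∈ R, x⁻¹ * r * x ∈ NA := by
      intro r hr
      have h1 := hRN hr
      rw [mem_normalizer_iff] at h1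
      rw [hNA, mem_normalizer_iff]
      intro h
      have h2 := h1 (x * h * x⁻¹)
      rw [mem_cj, mem_cj] at h2
      have e1 : x⁻¹ * (x * h * x⁻¹) * x = h := by group
      have e2 : x⁻¹ * (r * (x * h * x⁻¹) * r⁻¹) * x
          = x⁻¹ * r * x * h * (x⁻¹ * r * x)⁻¹ := by group
      rwa [e1, e2] at h2
    have hR' : IsPGroup p ((cj x⁻¹ R).subgroupOf NA) := by
      apply IsPGroup.comap_subtype
      exact hR.map _
    obtain ⟨T', hT'⟩ := hR'.exists_le_sylow
    obtain ⟨m, hm⟩ := MulAction.exists_smul_eq NA T' T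
    have hmT : ∀ t ∈ T', m * t * m⁻¹ ∈ T := by
      intro t ht
      rw [← hm]
      exact Subgroup.smul_mem_pointwise_smul t (MulAut.conj m) (T' : Subgroup NA) ht
    refine ⟨x * m * x⁻¹, ?_, fun r hr => ?_⟩
    · have h1 : (m : G) ∈ normalizer (A : Set G) := m.2
      rw [mem_normalizer_iff] at h1
      rw [mem_normalizer_iff]
      intro h
      rw [mem_cj, mem_cj]
      have e2 : x⁻¹ * (x * m * x⁻¹ * h * (x * m * x⁻¹)⁻¹) * x
          = m * (x⁻¹ * h * x) * (m : G)⁻¹ := by group
      rw [e2]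
      exact h1 _
    · have h1 : (⟨x⁻¹ * r * x, hR'N r hr⟩ : NA) ∈ T' := by
        apply hT'
        rw [mem_subgroupOf, mem_cj]
        simp only [inv_inv]
        have : x * (x⁻¹ * r * x) * x⁻¹ = r := by group
        rwa [this]
      have h2 := hTP _ (hmT _ h1)
      have h3 : x * ((m * ⟨x⁻¹ * r * x, hR'N r hr⟩ * m⁻¹ : NA) : G) * x⁻¹
          = x * m * x⁻¹ * r * (x * m * x⁻¹)⁻¹ := by
        simp only [Subgroup.coe_mul, Subgroup.coe_inv]
        group
      rwa [h3] at h2

/-- A weak form of Alperin's fusion theorem. -/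
theorem alperin (P : Sylow p G) {X : Type*} (f : G → X)
    (hf : ∀ Q : Subgroup G, Q ≤ P → Full P Q → ∀ g ∈ normalizer (Q : Set G), ∀ x ∈ Q,
      f (g * x * g⁻¹) = f x) :
    ∀ (k : ℕ) (A : Subgroup G), Nat.card P - Nat.card A = k → A ≤ P →
      ∀ g : G, (∀ a ∈ A, g * a * g⁻¹ ∈ P) → ∀ a ∈ A, f (g * a * g⁻¹) = f a := by
  intro k
  induction k using Nat.strong_induction_on with
  | _ k ih =>
    -- conjugation to a full subgroup
    have claim : ∀ (A : Subgroup G), Nat.card P - Nat.card A = k → A ≤ P → ∀ x : G,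
        (∀ a ∈ A, x * a * x⁻¹ ∈ P) → Full P (cj x A) → ∀ a ∈ A, f (x * a * x⁻¹) = f a := by
      intro A hk hA x hx hfull a ha
      by_cases hAP : A = P
      · subst hAP
        have hxN : x ∈ normalizer ((P : Subgroup G) : Set G) := by
          rw [mem_normalizer_iff_map_conj_eq]
          apply eq_of_le_of_card_ge
          · rintro _ ⟨y, hy, rfl⟩
            exact hx y hy
          · exact (card_cj x (P : Subgroup G)).ge
        exact hf P le_rfl (full_self P) x hxN a ha
      · -- normalizers grow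
        have hnc : NormalizerCondition P := by
          have := P.isPGroup'.isNilpotent
          exact Group.normalizerCondition_of_isNilpotent
        have hlt : A.subgroupOf P < ⊤ := by
          rw [lt_top_iff_ne_top, ne_eq, subgroupOf_eq_top]
          intro h
          exact hAP (le_antisymm hA h)
        have h2 := hnc _ hlt
        rw [← subgroupOf_normalizer_eq hA] at h2
        obtain ⟨y, hy1, hy2⟩ := SetLike.exists_of_lt h2
        rw [mem_subgroupOf] at hy1 hy2
        set A' := normalizer (A : Set G) ⊓ P with hA'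
        have hAA' : A ≤ A' := le_inf le_normalizer hA
        have hcard : Nat.card A < Nat.card A' := by
          apply lt_of_le_of_ne (Nat.card_mono (Set.toFinite _) hAA')
          intro h
          have h3 := eq_of_le_of_card_ge hAA' h.ge
          apply hy2
          rw [h3]
          exact ⟨hy1, y.2⟩
        have hcard2 : Nat.card A' ≤ Nat.card P := Nat.card_mono (Set.toFinite _) inf_le_right
        have hRp : IsPGroup p (cj x A') := (P.isPGroup'.to_le inf_le_right).map _
        obtain ⟨n, hn, hnR⟩ := hfull (cj x A') hRp (cj_le_normalizer inf_le_left)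
        have h4 := ih (Nat.card P - Nat.card A') (by omega) A' rfl inf_le_right (n * x)
          (by
            intro a' ha'
            have := hnR _ (conj_mem_cj (x := x) ha')
            have e : n * x * a' * (n * x)⁻¹ = n * (x * a' * x⁻¹) * n⁻¹ := by group
            rwa [e]) a (hAA' ha)
        have h5 := hf (cj x A) (by
          intro y hy
          rw [mem_cj] at hy
          have := hx _ hy
          have e : x * (x⁻¹ * y * x) * x⁻¹ = y := by group
          rwa [e] at this) hfull n hn (x * a * x⁻¹) (conj_mem_cj ha)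
        have e : n * x * a * (n * x)⁻¹ = n * (x * a * x⁻¹) * n⁻¹ := by group
        rw [e, h5] at h4
        exact h4
    intro A hk hA g hg a ha
    obtain ⟨x, hx, hfull⟩ := exists_full P A hA
    have h1 := claim A hk hA x hx hfull a ha
    have hB : cj g A ≤ P := by
      intro y hy
      rw [mem_cj] at hy
      have := hg _ hy
      have e : g * (g⁻¹ * y * g) * g⁻¹ = y := by group
      rwa [e] at this
    have hcj : cj (x * g⁻¹) (cj g A) = cj x A := by
      ext y
      rw [mem_cj, mem_cj, mem_cj]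
      have e : g⁻¹ * ((x * g⁻¹)⁻¹ * y * (x * g⁻¹)) * g = x⁻¹ * y * x := by group
      rw [e]
    have h2 := claim (cj g A) (by rw [card_cj]; exact hk) hB (x * g⁻¹)
      (by
        intro b hb
        rw [mem_cj] at hb
        have := hx _ hb
        have e : x * (g⁻¹ * b * g) * x⁻¹ = x * g⁻¹ * b * (x * g⁻¹)⁻¹ := by group
        rwa [e] at this)
      (by rw [hcj]; exact hfull) (g * a * g⁻¹) (conj_mem_cj ha)
    have e : x * g⁻¹ * (g * a * g⁻¹) * (x * g⁻¹)⁻¹ = x * a * x⁻¹ := by group
    rw [e, h1] at h2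
    exact h2.symm

/-- Fusion form: a function on a Sylow subgroup which is locally stable is stable. -/
theorem stable_of_local (P : Sylow p G) {X : Type*} (f : G → X)
    (hf : ∀ Q : Subgroup G, Q ≤ P → Full P Q → ∀ g ∈ normalizer (Q : Set G), ∀ x ∈ Q,
      f (g * x * g⁻¹) = f x) {x g : G} (hx : x ∈ P) (hg : g * x * g⁻¹ ∈ P) :
    f (g * x * g⁻¹) = f x := by
  refine alperin P f hf _ (zpowers x) rfl (zpowers_le.mpr hx) g ?_ x (mem_zpowers x)
  rintro _ ⟨k, rfl⟩
  simp only
  rw [← conj_zpow]
  exact Subgroup.zpow_mem _ hg k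

/-- Extension of the power of a stable linear character of a Sylow subgroup by transfer. -/
theorem exists_transfer (P : Sylow p G) (f : G → ℂˣ)
    (hmul : ∀ x ∈ P, ∀ y ∈ P, f (x * y) = f x * f y)
    (hst : ∀ x ∈ P, ∀ g : G, g * x * g⁻¹ ∈ P → f (g * x * g⁻¹) = f x) :
    ∃ φ : G →* ℂˣ, (∀ x ∈ P, φ x = f x ^ (P : Subgroup G).index) ∧
      ∀ g, φ g ^ Nat.card P = 1 := by
  classical
  have hone : f 1 = 1 := by
    have := hmul 1 (one_mem _) 1 (one_mem _)
    rw [mul_one] at this
    exact (mul_eq_left.mp this.symm)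
  let ψ : (P : Subgroup G) →* ℂˣ :=
    { toFun := fun x => f x
      map_one' := hone
      map_mul' := fun x y => hmul x x.2 y y.2 }
  have hψ : ∀ (x : G) (hx : x ∈ (P : Subgroup G)), ψ ⟨x, hx⟩ = f x := fun _ _ => rfl
  have hpow : ∀ x ∈ P, ∀ n : ℕ, f (x ^ n) = f x ^ n := by
    intro x hx n
    have := map_pow ψ ⟨x, hx⟩ n
    exact this
  refine ⟨MonoidHom.transfer ψ, ?_, ?_⟩
  · intro g hg
    have : Fintype (Quotient (MulAction.orbitRel (zpowers g) (G ⧸ (P : Subgroup G)))) :=
      Fintype.ofFinite _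
    have : Fintype (G ⧸ (P : Subgroup G)) := Fintype.ofFinite _
    rw [MonoidHom.transfer_eq_prod_quotient_orbitRel_zpowers_quot,
      index_eq_sum_minimalPeriod (P : Subgroup G) g, ← Finset.prod_pow_eq_pow_sum]
    refine Finset.prod_congr rfl fun q _ => ?_
    rw [hψ]
    have h1 := hst (g ^ Function.minimalPeriod (g • ·) q.out) (pow_mem hg _) (q.out.out⁻¹)
    rw [inv_inv] at h1
    rw [h1 (QuotientGroup.out_conj_pow_minimalPeriod_mem (P : Subgroup G) g q.out), hpow g hg]
  · intro g
    have : Fintype (Quotient (MulAction.orbitRel (zpowers g) (G ⧸ (P : Subgroup G)))) :=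
      Fintype.ofFinite _
    rw [MonoidHom.transfer_eq_prod_quotient_orbitRel_zpowers_quot, ← Finset.prod_pow]
    refine Finset.prod_eq_one fun q _ => ?_
    rw [← map_pow]
    have : (⟨q.out.out⁻¹ * g ^ Function.minimalPeriod (g • ·) q.out * q.out.out,
      QuotientGroup.out_conj_pow_minimalPeriod_mem (P : Subgroup G) g q.out⟩ :
        (P : Subgroup G)) ^ Nat.card P = 1 := pow_card_eq_one'
    rw [this, map_one]

end Pool.Agent.H302R2
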