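import Mathlib
import Pool.Agent.H302R2.Deg2Final

/-!
# Heilbronn functions of degree at most two containing a linear character
-/

set_option autoImplicit false

namespace Pool.Agent.H302R2

universe u

open Complex in
lemma key_ineq {m : ℕ} (hm : 2 ≤ m) {a b : ℂ} (ha : a ^ m = 1)
    (hab : a * b = exp (2 * Real.pi * I / m)) :
    0 ≤ ((1 + exp (2 * Real.pi * I / m) - (a + b)) * exp (-(Real.pi * I / m))).re ∧
      (((1 + exp (2 * Real.pi * I / m) - (a + b)) * exp (-(Real.pi * I / m))).re = 0 →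
        a = 1 ∨ b = 1) := by
  have hm0 : (m : ℂ) ≠ 0 := by
    have : m ≠ 0 := by omega
    exact_mod_cast this
  have hmr : (0 : ℝ) < m := by
    have : 0 < m := by omega
    exact_mod_cast this
  have : NeZero m := ⟨by omega⟩
  have hprim := Complex.isPrimitiveRoot_exp m (by omega)
  obtain ⟨j, hj, hja⟩ := hprim.eq_pow_of_pow_eq_one ha
  have ha' : a = exp (j * (2 * Real.pi * I / m)) := by
    rw [← hja, ← Complex.exp_nat_mul]
  have hb' : b = exp ((1 - j) * (2 * Real.pi * I / m)) := by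
    have ha0 : a ≠ 0 := by rw [ha']; exact exp_ne_zero _
    apply mul_left_cancel₀ ha0
    rw [hab, ha', ← exp_add]
    congr 1; ring
  have hval : ((1 + exp (2 * Real.pi * I / m) - (a + b)) * exp (-(Real.pi * I / m))).re
      = 2 * Real.cos (Real.pi / m) - 2 * Real.cos ((2 * j - 1) * Real.pi / m) := by
    have h1 : (1 + exp (2 * Real.pi * I / m) - (a + b)) * exp (-(Real.pi * I / m))
        = exp (((-(Real.pi / m) : ℝ) : ℂ) * I) + exp (((Real.pi / m : ℝ) : ℂ) * I)
          - exp ((((2 * j - 1) * Real.pi / m : ℝ) : ℂ) * I)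
          - exp (((-((2 * j - 1) * Real.pi / m) : ℝ) : ℂ) * I) := by
      rw [ha', hb']
      rw [sub_mul, add_mul, add_mul, one_mul, ← exp_add, ← exp_add, ← exp_add]
      have e1 : -(Real.pi * I / m) = ((-(Real.pi / m) : ℝ) : ℂ) * I := by push_cast; ring
      have e2 : 2 * Real.pi * I / m + -(Real.pi * I / m) = ((Real.pi / m : ℝ) : ℂ) * I := by
        push_cast; ring
      have e3 : (j : ℂ) * (2 * Real.pi * I / m) + -(Real.pi * I / m)
          = (((2 * j - 1) * Real.pi / m : ℝ) : ℂ) * I := by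
        push_cast; ring
      have e4 : (1 - (j : ℂ)) * (2 * Real.pi * I / m) + -(Real.pi * I / m)
          = ((-((2 * j - 1) * Real.pi / m) : ℝ) : ℂ) * I := by
        push_cast; ring
      rw [e2, e3, e4, e1]; ring
    rw [h1, sub_re, sub_re, add_re, exp_ofReal_mul_I_re, exp_ofReal_mul_I_re,
      exp_ofReal_mul_I_re, exp_ofReal_mul_I_re, Real.cos_neg, Real.cos_neg]
    ring
  rw [hval]
  rcases Nat.lt_or_ge j 2 with hj2 | hj2
  · interval_cases j
    · refine ⟨?_, fun _ => Or.inl ?_⟩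
      · have : (2 * ((0 : ℕ) : ℝ) - 1) * Real.pi / m = -(Real.pi / m) := by push_cast; ring
        rw [this, Real.cos_neg]; simp
      · rw [← hja]; simp
    · refine ⟨?_, fun _ => Or.inr ?_⟩
      · have : (2 * ((1 : ℕ) : ℝ) - 1) * Real.pi / m = Real.pi / m := by push_cast; ring
        rw [this]; simp
      · rw [hb']; simp
  · have hx0 : 0 < Real.pi / m := div_pos Real.pi_pos hmr
    have hj2' : (2 : ℝ) ≤ j := by exact_mod_cast hj2
    have hjm : (j : ℝ) + 1 ≤ m := by exact_mod_cast hj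
    have hlt : Real.cos ((2 * j - 1) * Real.pi / m) < Real.cos (Real.pi / m) := by
      rcases le_or_gt ((2 * j - 1) * Real.pi / m) Real.pi with hle | hgt
      · apply Real.cos_lt_cos_of_nonneg_of_le_pi hx0.le hle
        apply div_lt_div_of_pos_right _ hmr
        nlinarith [Real.pi_pos]
      · rw [← Real.cos_two_pi_sub]
        apply Real.cos_lt_cos_of_nonneg_of_le_pi hx0.le
        · linarith
        · have : 2 * Real.pi - (2 * j - 1) * Real.pi / m = (2 * m - 2 * j + 1) * Real.pi / m := by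
            field_simp
            ring
          rw [this]
          apply div_lt_div_of_pos_right _ hmr
          nlinarith [Real.pi_pos]
    refine ⟨by linarith, fun h => ?_⟩
    exfalso
    linarith

lemma sum_multiset {Q ι : Type*} [Fintype Q] (s : Multiset ι) (f : ι → Q → ℂ) :
    ∑ q, (s.map (fun ψ => f ψ q)).sum = (s.map (fun ψ => ∑ q, f ψ q)).sum := by
  induction s using Multiset.induction_on with
  | empty => simp
  | cons a s ih => simp [Finset.sum_add_distrib, ih]

/-- nonvanishing multiplicity implies membership -/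
lemma mem_of_mult {Q : Type*} [Group Q] [Finite Q] (s : Multiset (Q →* ℂˣ)) (ρ : Q →* ℂˣ)
    (h : ∑ᶠ q : Q, (s.map (fun ψ => ((ψ q : ℂˣ) : ℂ))).sum * (((ρ q)⁻¹ : ℂˣ) : ℂ) ≠ 0) :
    ρ ∈ s := by
  classical
  have : Fintype Q := Fintype.ofFinite _
  by_contra hρ
  apply h
  rw [finsum_eq_sum_of_fintype]
  have h1 : ∀ q : Q, (s.map (fun ψ => ((ψ q : ℂˣ) : ℂ))).sum * (((ρ q)⁻¹ : ℂˣ) : ℂ)
      = (s.map (fun ψ => (((ψ * ρ⁻¹) q : ℂˣ) : ℂ))).sum := by
    intro q
    rw [← Multiset.sum_map_mul_right]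
    congr 1
  rw [Finset.sum_congr rfl (fun q _ => h1 q),
    sum_multiset s (fun ψ q => (((ψ * ρ⁻¹) q : ℂˣ) : ℂ))]
  apply Multiset.sum_eq_zero
  intro x hx
  obtain ⟨ψ, hψ, rfl⟩ := Multiset.mem_map.mp hx
  have hne : ψ * ρ⁻¹ ≠ 1 := by
    intro h2
    apply hρ
    have h3 : ψ = ρ := by
      ext q
      have h4 := DFunLike.congr_fun h2 q
      rw [MonoidHom.mul_apply, MonoidHom.inv_apply, MonoidHom.one_apply, mul_inv_eq_one] at h4
      rw [h4]
    rwa [← h3]
  obtain ⟨w₀, hw₀⟩ : ∃ w₀, (ψ * ρ⁻¹) w₀ ≠ 1 := by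
    by_contra hcon
    push Not at hcon
    exact hne (MonoidHom.ext hcon)
  have := sum_zpowers_eq_zero (ψ * ρ⁻¹) hw₀
  rwa [finsum_eq_sum_of_fintype] at this

lemma IsHeilbronn.inv_eq {G : Type u} [Group G] [Finite G] {θ : G → ℂ}
    (hθ : IsHeilbronn θ) (h1 : θ 1 = 2) {D : G →* ℂˣ} (hD : ∀ g, ((D g : ℂˣ) : ℂ) = dd θ g)
    (g : G) : θ g⁻¹ = θ g * (((D g)⁻¹ : ℂˣ) : ℂ) := by
  obtain ⟨a, b, ha, hb, hp, hs, hpow⟩ := hθ.two_eig h1 g
  have h2 := hpow (-1)
  rw [zpow_neg_one, zpow_neg_one, zpow_neg_one] at h2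
  have ha0 : a ≠ 0 := by rw [← norm_ne_zero_iff, ha]; norm_num
  have hb0 : b ≠ 0 := by rw [← norm_ne_zero_iff, hb]; norm_num
  rw [h2, Units.val_inv_eq_inv_val, hD, hp, hs]
  field_simp
  ring

lemma IsHeilbronn.norm_sum_le {G : Type u} [Group G] [Finite G] {θ : G → ℂ}
    (hθ : IsHeilbronn θ) : ‖∑ᶠ g : G, θ g‖ ≤ (θ 1).re * Nat.card G := by
  classical
  have : Fintype G := Fintype.ofFinite _
  rw [finsum_eq_sum_of_fintype]
  refine (_root_.norm_sum_le _ _).trans ?_
  refine (Finset.sum_le_sum fun g _ => hθ.norm_le g).trans ?_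
  rw [Finset.sum_const, Finset.card_univ, nsmul_eq_mul, Nat.card_eq_fintype_card, mul_comm]

theorem IsHeilbronn.two_contains_one {G : Type u} [Group G] [Finite G] {θ : G → ℂ}
    (hθ : IsHeilbronn θ) (h1 : θ 1 = 2) (hn : ∑ᶠ g : G, θ g ≠ 0) :
    ∃ D : G →* ℂˣ, ∀ g, θ g = 1 + ((D g : ℂˣ) : ℂ) := by
  classical
  have : Fintype G := Fintype.ofFinite _
  obtain ⟨D, hD⟩ := hθ.exists_det h1
  refine ⟨D, ?_⟩
  obtain ⟨n, hnn⟩ := hθ.mult_hom (MonoidHom.id G) 1
  simp only [MonoidHom.id_apply, MonoidHom.one_apply, inv_one, Units.val_one, mul_one] at hnn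
  rw [← finsum_eq_sum_of_fintype] at hnn
  have hGpos : (0 : ℝ) < Nat.card G := by exact_mod_cast Nat.card_pos
  by_cases hD1 : ∀ g, D g = 1
  · -- parity
    have heven := hθ.parity h1 (fun g => by rw [← hD, hD1, Units.val_one]) hnn
    have hn2 : n = 2 := by
      have h2 : n ≤ 2 := by
        have h3 := hθ.norm_sum_le
        rw [hnn, h1, norm_mul, Complex.norm_natCast, Complex.norm_natCast] at h3
        have h4 : (n : ℝ) ≤ 2 := by
          simp only [Complex.re_ofNat] at h3
          exact le_of_mul_le_mul_right h3 hGpos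
        exact_mod_cast h4
      have h3 : n ≠ 0 := by
        rintro rfl
        apply hn
        rw [hnn]; simp
      obtain ⟨k, hk⟩ := heven
      omega
    intro g
    rw [hθ.const_of_sum (by rw [hnn, hn2, h1]; push_cast; rfl) g, h1, hD1, Units.val_one]
    norm_num
  -- the quotient
  set N := D.ker with hN
  have hcomm : ∀ a b : G ⧸ N, a * b = b * a := by
    intro a b
    apply QuotientGroup.kerLift_injective D
    rw [map_mul, map_mul, mul_comm]
  have hNpos : (0 : ℝ) < Nat.card N := by exact_mod_cast Nat.card_pos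
  have hNcard : (Nat.card N : ℂ) ≠ 0 := by exact_mod_cast Nat.card_pos.ne'
  obtain ⟨s, hs⟩ := (hθ.avg N).comm_multiset hcomm
  let D' : G ⧸ N →* ℂˣ := QuotientGroup.kerLift D
  have hD' : ∀ g : G, D' (g : G ⧸ N) = D g := fun g => rfl
  have h1s : (1 : G ⧸ N →* ℂˣ) ∈ s := by
    apply mem_of_mult
    rw [finsum_congr (g := fun q => Pool.Agent.H302R2.avg N θ q)]
    · intro h2
      apply hn
      rw [sum_avg N θ, h2, mul_zero]
    · intro q
      rw [← hs q]; simp
  have hDs : D' ∈ s := by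
    apply mem_of_mult
    rw [finsum_congr (g := fun q => Pool.Agent.H302R2.avg N (fun g => θ g⁻¹) q)]
    · intro h2
      apply hn
      have h3 : ∑ᶠ g : G, θ g = ∑ᶠ g : G, θ g⁻¹ :=
        (finsum_comp_equiv (Equiv.inv G) (f := θ)).symm
      rw [h3, sum_avg N (fun g => θ g⁻¹), h2, mul_zero]
    · intro q
      rw [← hs q]
      induction q using QuotientGroup.induction_on with | _ g => ?_
      rw [avg_mk, avg_mk, mul_assoc]
      congr 1
      rw [finsum_mul]
      refine finsum_congr fun n => ?_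
      rw [hθ.inv_eq h1 hD, hD', map_mul, MonoidHom.mem_ker.mp n.2, mul_one]
  have hne : (1 : G ⧸ N →* ℂˣ) ≠ D' := by
    intro h2
    apply hD1
    intro g
    rw [← hD', ← h2]; rfl
  have hcard : Multiset.card s ≤ 2 := by
    have h2 := hs 1
    simp only [map_one, Units.val_one, Multiset.map_const', Multiset.sum_replicate, nsmul_eq_mul,
      mul_one] at h2
    rw [← QuotientGroup.mk_one, avg_mk] at h2
    simp only [one_mul] at h2
    have h3 := (hθ.comp N.subtype).norm_sum_le
    simp only [Subgroup.coe_subtype, OneMemClass.coe_one] at h3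
    have h4 : (Multiset.card s : ℝ) * Nat.card N ≤ 2 * Nat.card N := by
      have h5 : ∑ᶠ n : N, θ n = Multiset.card s * Nat.card N := by
        rw [← h2]; field_simp
      rw [h5, norm_mul, Complex.norm_natCast, Complex.norm_natCast, h1] at h3
      simpa using h3
    have h5 := le_of_mul_le_mul_right h4 hNpos
    exact_mod_cast h5
  have hs2 : s = {1, D'} := by
    obtain ⟨t, rfl⟩ := Multiset.exists_cons_of_mem h1s
    have h2 : D' ∈ t := by
      rcases Multiset.mem_cons.mp hDs with h3 | h3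
      · exact absurd h3.symm hne
      · exact h3
    obtain ⟨u, rfl⟩ := Multiset.exists_cons_of_mem h2
    rw [Multiset.card_cons, Multiset.card_cons] at hcard
    have h3 : u = 0 := by
      rw [← Multiset.card_eq_zero]; omega
    rw [h3]; rfl
  have hcoset : ∀ g : G, ∑ᶠ n : N, θ (g * n) = (1 + ((D g : ℂˣ) : ℂ)) * Nat.card N := by
    intro g
    have h2 := hs (g : G ⧸ N)
    rw [hs2, avg_mk] at h2
    simp only [Multiset.insert_eq_cons, Multiset.map_cons, Multiset.map_singleton,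
      Multiset.sum_cons, Multiset.sum_singleton, MonoidHom.one_apply, Units.val_one, hD'] at h2
    rw [← h2]
    field_simp
  have hker : ∀ x ∈ N, θ x = 2 := by
    intro x hx
    have h2 := (hθ.comp N.subtype).const_of_sum (by
      have h3 := hcoset 1
      simp only [one_mul, map_one, Units.val_one] at h3
      simp only [Subgroup.coe_subtype, OneMemClass.coe_one, h1]
      rw [h3]; norm_num) ⟨x, hx⟩
    simpa [h1] using h2
  -- eigenvalues are roots of unity
  have hroot : ∀ (x : G) (a b : ℂ), ‖a‖ = 1 → ‖b‖ = 1 → (∀ i : ℤ, θ (x ^ i) = a ^ i + b ^ i) →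
      ∀ m : ℕ, D x ^ m = 1 → a ^ m = 1 ∧ b ^ m = 1 := by
    intro x a b ha hb hpow m hm
    have h2 : x ^ m ∈ N := by
      rw [hN, MonoidHom.mem_ker, map_pow, hm]
    have h3 := hpow m
    rw [zpow_natCast, hker _ h2, zpow_natCast, zpow_natCast] at h3
    exact norm_avg_eq (ζ := 1) (by rw [norm_pow, ha, one_pow]) (by rw [norm_pow, hb, one_pow])
      (by simp) (by rw [← h3]; ring)
  -- the extremal cosets
  have hext : ∀ (m : ℕ), 2 ≤ m → ∀ x : G,
      ((D x : ℂˣ) : ℂ) = Complex.exp (2 * Real.pi * Complex.I / m) →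
      θ x = 1 + ((D x : ℂˣ) : ℂ) := by
    intro m hm x hx
    have hprim := Complex.isPrimitiveRoot_exp m (by omega)
    have hDm : D x ^ m = 1 := by
      apply Units.ext
      rw [Units.val_pow_eq_pow_val, hx, hprim.pow_eq_one, Units.val_one]
    have : Fintype N := Fintype.ofFinite _
    have hpt : ∀ n : N, ∃ a b : ℂ, a ^ m = 1 ∧
        a * b = Complex.exp (2 * Real.pi * Complex.I / m) ∧ θ (x * n) = a + b := by
      intro n
      obtain ⟨a, b, ha, hb, hp, hs', hpow⟩ := hθ.two_eig h1 (x * n)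
      have hDn : D (x * n) = D x := by rw [map_mul, MonoidHom.mem_ker.mp n.2, mul_one]
      refine ⟨a, b, (hroot _ a b ha hb hpow m (by rw [hDn, hDm])).1, ?_, hs'⟩
      rw [← hp, ← hD, hDn, hx]
    let f : N → ℝ := fun n =>
      ((1 + Complex.exp (2 * Real.pi * Complex.I / m) - θ (x * n)) *
        Complex.exp (-(Real.pi * Complex.I / m))).re
    have hf0 : ∀ n ∈ (Finset.univ : Finset N), 0 ≤ f n := by
      intro n _
      obtain ⟨a, b, ha, hab, hθn⟩ := hpt n
      simp only [f]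
      rw [hθn]
      exact (key_ineq hm ha hab).1
    have hfs : ∑ n : N, f n = 0 := by
      have h2 := hcoset x
      rw [finsum_eq_sum_of_fintype, hx] at h2
      have h3 : ∑ n : N, ((1 + Complex.exp (2 * Real.pi * Complex.I / m) - θ (x * n)) *
          Complex.exp (-(Real.pi * Complex.I / m))) = 0 := by
        rw [← Finset.sum_mul, Finset.sum_sub_distrib, h2, Finset.sum_const, Finset.card_univ,
          nsmul_eq_mul, Nat.card_eq_fintype_card]
        ring
      simp only [f]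
      rw [← Complex.re_sum, h3, Complex.zero_re]
    have h4 := (Finset.sum_eq_zero_iff_of_nonneg hf0).mp hfs 1 (Finset.mem_univ 1)
    obtain ⟨a, b, ha, hab, hθn⟩ := hpt 1
    simp only [f] at h4
    rw [hθn] at h4
    simp only [OneMemClass.coe_one, mul_one] at hθn
    rw [hθn, hx]
    rcases (key_ineq hm ha hab).2 h4 with rfl | rfl
    · rw [← hab]; ring
    · rw [← hab]; ring
  intro h
  have hord : 0 < orderOf (D h) := by
    have h2 : (D h) ^ (Nat.card G) = 1 := by rw [← map_pow, pow_card_eq_one', map_one]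
    exact orderOf_pos_iff.mpr (isOfFinOrder_iff_pow_eq_one.mpr ⟨_, Nat.card_pos, h2⟩)
  set m := orderOf (D h) with hm
  rcases Nat.lt_or_ge m 2 with hm2 | hm2
  · have h2 : m = 1 := by omega
    have h3 : D h = 1 := by rwa [← orderOf_eq_one_iff]
    rw [hker h (MonoidHom.mem_ker.mpr h3), h3, Units.val_one]; norm_num
  · have hprim : IsPrimitiveRoot ((D h : ℂˣ) : ℂ) m :=
      (IsPrimitiveRoot.coe_units_iff).mpr (IsPrimitiveRoot.orderOf (D h))
    have : NeZero m := ⟨by omega⟩
    have hprim2 := Complex.isPrimitiveRoot_exp m (by omega)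
    obtain ⟨j, hj, hjx⟩ := hprim.eq_pow_of_pow_eq_one hprim2.pow_eq_one
    have h2 : ((D (h ^ j) : ℂˣ) : ℂ) = Complex.exp (2 * Real.pi * Complex.I / m) := by
      rw [map_pow, Units.val_pow_eq_pow_val, hjx]
    have h3 := hext m hm2 (h ^ j) h2
    have hcop : j.Coprime m := by
      rw [← hprim.pow_iff_coprime (by omega)]
      rw [hjx]; exact hprim2
    obtain ⟨a, b, ha, hb, hp, hs', hpow⟩ := hθ.two_eig h1 h
    obtain ⟨ham, hbm⟩ := hroot h a b ha hb hpow m (pow_orderOf_eq_one _)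
    have h4 := hpow j
    rw [zpow_natCast, zpow_natCast, zpow_natCast, h3, map_pow, Units.val_pow_eq_pow_val, hD,
      hp] at h4
    have hone : ∀ c : ℂ, c ^ j = 1 → c ^ m = 1 → c = 1 := by
      intro c hc1 hc2
      rw [← orderOf_eq_one_iff]
      have e1 : orderOf c ∣ j := orderOf_dvd_of_pow_eq_one hc1
      have e2 : orderOf c ∣ m := orderOf_dvd_of_pow_eq_one hc2
      have e3 := Nat.dvd_gcd e1 e2
      rw [hcop.gcd_eq_one] at e3
      exact Nat.dvd_one.mp e3
    rcases pair_eq_of_sum_prod (a := 1) (b := (a * b) ^ j) h4.symm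
      (by rw [one_mul, mul_pow]) with ⟨h5, -⟩ | ⟨-, h5⟩
    · have h6 := hone a h5 ham
      rw [hs', hD, hp, h6]; ring
    · have h6 := hone b h5 hbm
      rw [hs', hD, hp, h6]; ring

/-- twisting by a linear character -/
lemma IsHeilbronn.twist {G : Type u} [Group G] [Finite G] {θ : G → ℂ}
    (hθ : IsHeilbronn θ) (ρ : G →* ℂˣ) : IsHeilbronn (fun g => θ g * (((ρ g)⁻¹ : ℂˣ) : ℂ)) where
  conj g h := by
    rw [hθ.conj, map_mul, map_mul, map_inv, mul_right_comm, mul_inv_cancel, one_mul]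
  mult H χ := by
    obtain ⟨n, hn⟩ := hθ.mult H (χ * ρ.comp H.subtype)
    refine ⟨n, ?_⟩
    rw [← hn]
    refine finsum_congr fun h => ?_
    rw [MonoidHom.mul_apply, mul_inv, MonoidHom.comp_apply, Subgroup.coe_subtype]
    push_cast
    ring

/-- A Heilbronn function of degree two containing the linear character `ρ` is a sum of `ρ` and
another linear character. -/
theorem IsHeilbronn.two_contains {G : Type u} [Group G] [Finite G] {θ : G → ℂ}
    (hθ : IsHeilbronn θ) (h1 : θ 1 = 2) (ρ : G →* ℂˣ)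
    (hn : ∑ᶠ g : G, θ g * (((ρ g)⁻¹ : ℂˣ) : ℂ) ≠ 0) :
    ∃ μ : G →* ℂˣ, ∀ g, θ g = ((ρ g : ℂˣ) : ℂ) + ((μ g : ℂˣ) : ℂ) := by
  obtain ⟨D, hD⟩ := (hθ.twist ρ).two_contains_one (by simpa using h1) hn
  refine ⟨ρ * D, fun g => ?_⟩
  have h2 := hD g
  have h3 : ((ρ g : ℂˣ) : ℂ) ≠ 0 := Units.ne_zero _
  rw [MonoidHom.mul_apply, Units.val_mul]
  calc θ g = (θ g * (((ρ g)⁻¹ : ℂˣ) : ℂ)) * ((ρ g : ℂˣ) : ℂ) := by
        push_cast; field_simp
    _ = _ := by rw [h2]; ring

end Pool.Agent.H302R2
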