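import Mathlib
import Pool.Agent.H302R2.Deg2Main

/-!
# Restriction of linear constituents of Heilbronn functions of degree at most two
-/

set_option autoImplicit false

namespace Pool.Agent.H302R2

universe u

/-- the multiplicity of a linear character in a multiset of linear characters -/
lemma count_mult {Q : Type*} [Group Q] [Finite Q] [DecidableEq (Q →* ℂˣ)]
    (s : Multiset (Q →* ℂˣ)) (ρ : Q →* ℂˣ) :
    ∑ᶠ q : Q, (s.map (fun ψ => ((ψ q : ℂˣ) : ℂ))).sum * (((ρ q)⁻¹ : ℂˣ) : ℂ)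
      = (Multiset.count ρ s : ℂ) * Nat.card Q := by
  classical
  induction s using Multiset.induction_on with
  | empty => simp
  | cons ψ s ih =>
    have h1 : ∀ q : Q, ((ψ ::ₘ s).map (fun ψ => ((ψ q : ℂˣ) : ℂ))).sum * (((ρ q)⁻¹ : ℂˣ) : ℂ)
        = (((ψ * ρ⁻¹) q : ℂˣ) : ℂ)
          + (s.map (fun ψ => ((ψ q : ℂˣ) : ℂ))).sum * (((ρ q)⁻¹ : ℂˣ) : ℂ) := by
      intro q
      rw [Multiset.map_cons, Multiset.sum_cons, add_mul, MonoidHom.mul_apply, MonoidHom.inv_apply,
        Units.val_mul]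
    rw [finsum_congr h1, finsum_add_distrib (Set.toFinite _) (Set.toFinite _), ih]
    by_cases hψ : ψ = ρ
    · subst hψ
      rw [Multiset.count_cons_self]
      have h2 : ∀ q : Q, (((ψ * ψ⁻¹) q : ℂˣ) : ℂ) = 1 := by
        intro q
        rw [MonoidHom.mul_apply, MonoidHom.inv_apply, mul_inv_cancel, Units.val_one]
      have : Fintype Q := Fintype.ofFinite _
      rw [finsum_congr h2, finsum_eq_sum_of_fintype, Finset.sum_const, Finset.card_univ,
        nsmul_eq_mul, Nat.card_eq_fintype_card]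
      push_cast; ring
    · rw [Multiset.count_cons_of_ne (fun h => hψ h.symm)]
      obtain ⟨w₀, hw₀⟩ : ∃ w₀, (ψ * ρ⁻¹) w₀ ≠ 1 := by
        by_contra hcon
        push Not at hcon
        apply hψ
        ext q
        have h4 := hcon q
        rw [MonoidHom.mul_apply, MonoidHom.inv_apply, mul_inv_eq_one] at h4
        rw [h4]
      rw [sum_zpowers_eq_zero _ hw₀, zero_add]

/-- A Heilbronn function of degree at most two which contains some linear character is a sum of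
linear characters. -/
theorem IsHeilbronn.sum_of_contains {G : Type u} [Group G] [Finite G] {θ : G → ℂ}
    (hθ : IsHeilbronn θ) (h2 : (θ 1).re ≤ 2) (ρ : G →* ℂˣ)
    (hn : ∑ᶠ g : G, θ g * (((ρ g)⁻¹ : ℂˣ) : ℂ) ≠ 0) :
    ∃ s : Multiset (G →* ℂˣ), ∀ g, θ g = (s.map (fun ψ => ((ψ g : ℂˣ) : ℂ))).sum := by
  obtain ⟨r, hr⟩ := hθ.exists_deg
  rw [hr, Complex.natCast_re] at h2
  have hr2 : r ≤ 2 := by exact_mod_cast h2
  interval_cases r
  · refine ⟨0, fun g => ?_⟩
    have := hθ.norm_le g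
    rw [hr] at this
    simp at this
    simp [this]
  · obtain ⟨ψ, hψ⟩ := hθ.deg_one (by rw [hr]; norm_num)
    exact ⟨{ψ}, fun g => by rw [hψ]; simp⟩
  · obtain ⟨μ, hμ⟩ := hθ.two_contains (by rw [hr]; norm_num) ρ hn
    exact ⟨{ρ, μ}, fun g => by rw [hμ]; simp⟩

theorem IsHeilbronn.mult_le {G : Type u} [Group G] [Finite G] {θ : G → ℂ}
    (hθ : IsHeilbronn θ) (h2 : (θ 1).re ≤ 2) (H : Subgroup G) (ρ : G →* ℂˣ) (a b : ℕ)
    (ha : ∑ᶠ g : G, θ g * (((ρ g)⁻¹ : ℂˣ) : ℂ) = a * Nat.card G)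
    (hb : ∑ᶠ h : H, θ h * (((ρ h)⁻¹ : ℂˣ) : ℂ) = b * Nat.card H) : a ≤ b := by
  classical
  rcases Nat.eq_zero_or_pos a with h0 | h0
  · rw [h0]; exact Nat.zero_le _
  have hG : (Nat.card G : ℂ) ≠ 0 := by exact_mod_cast Nat.card_pos.ne'
  have hH : (Nat.card H : ℂ) ≠ 0 := by exact_mod_cast Nat.card_pos.ne'
  obtain ⟨s, hs⟩ := hθ.sum_of_contains h2 ρ (by
    rw [ha]
    apply mul_ne_zero _ hG
    exact_mod_cast h0.ne')
  have h3 := count_mult s ρ
  rw [finsum_congr (g := fun g => θ g * (((ρ g)⁻¹ : ℂˣ) : ℂ)) (fun g => by rw [hs g]), ha] at h3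
  have ha' : a = Multiset.count ρ s := by
    have := mul_right_cancel₀ hG h3
    exact_mod_cast this
  have h4 := count_mult (s.map (fun ψ => ψ.comp H.subtype)) (ρ.comp H.subtype)
  rw [finsum_congr (g := fun h : H => θ h * (((ρ h)⁻¹ : ℂˣ) : ℂ)) (fun g => by
    rw [hs g, Multiset.map_map]; rfl), hb] at h4
  have hb' : b = Multiset.count (ρ.comp H.subtype) (s.map (fun ψ => ψ.comp H.subtype)) := by
    have := mul_right_cancel₀ hH h4
    exact_mod_cast this
  rw [ha', hb']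
  rw [Multiset.count_map, ← Multiset.card_replicate (Multiset.count ρ s) ρ]
  apply Multiset.card_le_card
  rw [Multiset.le_filter]
  refine ⟨Multiset.le_count_iff_replicate_le.mp le_rfl, fun ψ hψ => ?_⟩
  rw [Multiset.eq_of_mem_replicate hψ]

end Pool.Agent.H302R2
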