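import Mathlib
import Pool.Agent.H302R2.DedekindTwo

/-!
# Clifford theory for Heilbronn functions of degree two
-/

set_option autoImplicit false

namespace Pool.Agent.H302R2

universe u

/-- a sum of two linear characters -/
def Split {G : Type*} [Group G] (θ : G → ℂ) : Prop :=
  ∃ ψ φ : G →* ℂˣ, ∀ g, θ g = ((ψ g : ℂˣ) : ℂ) + ((φ g : ℂˣ) : ℂ)

lemma Split.comp {G H : Type*} [Group G] [Group H] {θ : G → ℂ} (h : Split θ) (f : H →* G) :
    Split (fun x => θ (f x)) := by
  obtain ⟨ψ, φ, h⟩ := h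
  exact ⟨ψ.comp f, φ.comp f, fun x => h (f x)⟩

section

variable {G : Type u} [Group G] [Finite G] {θ : G → ℂ}

/-- If a value is the degree for all elements of prime power order then it is everywhere. -/
lemma IsHeilbronn.const_of_prime_powers (hθ : IsHeilbronn θ)
    (h : ∀ (p : ℕ) (_ : p.Prime) (x : G) (k : ℕ), x ^ (p ^ k) = 1 → θ x = θ 1) (g : G) :
    θ g = θ 1 := by
  classical
  let A : AddSubgroup ℤ :=
    { carrier := {n | θ (g ^ n) = θ 1}
      zero_mem' := by simp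
      add_mem' := by
        intro a b ha hb
        simp only [Set.mem_setOf_eq] at *
        rw [zpow_add, hθ.mul_of_comm ((Commute.refl g).zpow_zpow a b).eq hb, ha]
      neg_mem' := by
        intro a ha
        simp only [Set.mem_setOf_eq] at *
        have h1 : θ ((g ^ a) ^ (orderOf (g ^ a) - 1)) = θ 1 := hθ.pow_of_eq ha _
        have h2 : (g ^ a) ^ (orderOf (g ^ a) - 1) = g ^ (-a) := by
          rw [zpow_neg]
          apply eq_inv_of_mul_eq_one_left
          rw [← pow_succ, Nat.sub_add_cancel (orderOf_pos (g ^ a)), pow_orderOf_eq_one]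
        rwa [h2] at h1 }
  obtain ⟨n, hn⟩ := Int.subgroup_cyclic A
  have hA : ∀ (p : ℕ) (_ : p.Prime), ∃ m : ℕ, (m : ℤ) ∈ A ∧ ¬ p ∣ m := by
    intro p hp
    have hpos : 0 < orderOf g := orderOf_pos g
    obtain ⟨e, m, hm, hem⟩ := Nat.exists_eq_pow_mul_and_not_dvd hpos.ne' p hp.ne_one
    refine ⟨m, ?_, hm⟩
    change θ (g ^ (m : ℤ)) = θ 1
    rw [zpow_natCast]
    apply h p hp _ e
    rw [← pow_mul, mul_comm, ← hem, pow_orderOf_eq_one]
  have hn1 : n.natAbs = 1 := by
    by_contra hne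
    obtain ⟨p, hp', hpn⟩ := Nat.exists_prime_and_dvd hne
    obtain ⟨m, hm, hpm⟩ := hA p hp'
    apply hpm
    rw [hn, AddSubgroup.mem_closure_singleton] at hm
    obtain ⟨k, hk⟩ := hm
    have h1 : (p : ℤ) ∣ n := Int.natCast_dvd.mpr hpn
    have h2 : n ∣ (m : ℤ) := ⟨k, by rw [← hk, smul_eq_mul, mul_comm]⟩
    exact Int.natCast_dvd_natCast.mp (h1.trans h2)
  have h1 : (1 : ℤ) ∈ A := by
    rw [hn, AddSubgroup.mem_closure_singleton]
    rcases Int.natAbs_eq n with h | h
    · exact ⟨1, by rw [h, hn1]; simp⟩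
    · exact ⟨-1, by rw [h, hn1]; simp⟩
  have : θ (g ^ (1 : ℤ)) = θ 1 := h1
  rwa [zpow_one] at this

/-- Abelian quotient lemma. -/
lemma IsHeilbronn.split_of_quotient (hθ : IsHeilbronn θ) (h1 : θ 1 = 2) (N : Subgroup G)
    [N.Normal] (hN : ∀ a b : G ⧸ N, a * b = b * a) (h : ∑ᶠ n : N, θ n ≠ 0) : Split θ := by
  classical
  obtain ⟨s, hs⟩ := (hθ.avg N).comm_multiset hN
  have hNcard : (Nat.card N : ℂ) ≠ 0 := by exact_mod_cast Nat.card_pos.ne'
  have hs0 : s ≠ 0 := by
    rintro rfl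
    have h2 := hs 1
    rw [← QuotientGroup.mk_one, avg_mk] at h2
    simp only [one_mul, Multiset.map_zero, Multiset.sum_zero, mul_eq_zero, inv_eq_zero] at h2
    rcases h2 with h2 | h2
    · exact hNcard h2
    · exact h h2
  obtain ⟨ψ, hψ⟩ := Multiset.exists_mem_of_ne_zero hs0
  have hcnt := count_mult s ψ
  have hne : ∑ᶠ q : G ⧸ N, Pool.Agent.H302R2.avg N θ q * (((ψ q)⁻¹ : ℂˣ) : ℂ) ≠ 0 := by
    rw [finsum_congr (fun q => by rw [hs q]), hcnt]
    apply mul_ne_zero
    · have := Multiset.count_pos.mpr hψ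
      exact_mod_cast this.ne'
    · exact_mod_cast Nat.card_pos.ne'
  let ρ : G →* ℂˣ := ψ.comp (QuotientGroup.mk' N)
  obtain ⟨μ, hμ⟩ := hθ.two_contains h1 ρ (by
    rw [sum_avg N (fun g => θ g * (((ρ g)⁻¹ : ℂˣ) : ℂ))]
    apply mul_ne_zero hNcard
    rw [finsum_congr (g := fun q => Pool.Agent.H302R2.avg N θ q * (((ψ q)⁻¹ : ℂˣ) : ℂ))]
    · exact hne
    · intro q
      induction q using QuotientGroup.induction_on with | _ g => ?_
      rw [avg_mk, avg_mk, mul_assoc]
      congr 1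
      rw [finsum_mul]
      refine finsum_congr fun n => ?_
      have h3 : ρ (g * n) = ψ (g : G ⧸ N) := by
        change ψ ((g * n : G) : G ⧸ N) = _
        rw [QuotientGroup.mk_mul, (QuotientGroup.eq_one_iff (n : G)).mpr n.2, mul_one]
      rw [h3])
  exact ⟨ρ, μ, hμ⟩

/-- A degree two Heilbronn function which is trivial on a normal subgroup is constant on its
cosets. -/
lemma IsHeilbronn.const_on_cosets (hθ : IsHeilbronn θ) (h1 : θ 1 = 2) (N : Subgroup G)
    [N.Normal] (hN : ∀ n ∈ N, θ n = 2) (g : G) {n : G} (hn : n ∈ N) : θ (g * n) = θ g := by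
  classical
  let E : Subgroup G := (Subgroup.zpowers (g : G ⧸ N)).comap (QuotientGroup.mk' N)
  have hNE : N ≤ E := by
    intro x hx
    rw [Subgroup.mem_comap]
    have : (QuotientGroup.mk' N) x = 1 := (QuotientGroup.eq_one_iff x).mpr hx
    rw [this]; exact one_mem _
  have hgE : g ∈ E := by
    rw [Subgroup.mem_comap]; exact Subgroup.mem_zpowers _
  have hcomm : ∀ a b : E ⧸ N.subgroupOf E, a * b = b * a := by
    intro a b
    induction a using QuotientGroup.induction_on with | _ a => ?_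
    induction b using QuotientGroup.induction_on with | _ b => ?_
    rw [← QuotientGroup.mk_mul, ← QuotientGroup.mk_mul, QuotientGroup.eq,
      Subgroup.mem_subgroupOf]
    obtain ⟨i, hi⟩ := a.2
    obtain ⟨j, hj⟩ := b.2
    simp only [QuotientGroup.mk'_apply] at hi hj
    rw [← QuotientGroup.eq_one_iff]
    simp only [Subgroup.coe_mul, Subgroup.coe_inv, QuotientGroup.mk_mul, QuotientGroup.mk_inv]
    rw [← hi, ← hj, inv_mul_eq_one]
    exact (Commute.refl (g : G ⧸ N)).zpow_zpow i j |>.eq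
  have hsum : ∑ᶠ m : N.subgroupOf E, (fun e : E => θ (E.subtype e)) m ≠ 0 := by
    have h2 : ∀ m : N.subgroupOf E, (fun e : E => θ (E.subtype e)) m = 2 :=
      fun m => hN _ (Subgroup.mem_subgroupOf.mp m.2)
    have : Fintype (N.subgroupOf E) := Fintype.ofFinite _
    rw [finsum_congr h2, finsum_eq_sum_of_fintype, Finset.sum_const, Finset.card_univ,
      nsmul_eq_mul]
    apply mul_ne_zero _ two_ne_zero
    exact_mod_cast Fintype.card_ne_zero
  obtain ⟨ψ, φ, h⟩ := (hθ.comp E.subtype).split_of_quotient (by simpa using h1)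
    (N.subgroupOf E) hcomm hsum
  have hnn := h ⟨n, hNE hn⟩
  have hg := h ⟨g, hgE⟩
  have hgn := h (⟨g, hgE⟩ * ⟨n, hNE hn⟩)
  simp only [Subgroup.coe_subtype, Subgroup.coe_mul, map_mul, Units.val_mul] at hnn hg hgn
  rw [hN n hn] at hnn
  obtain ⟨ha, hb⟩ := norm_avg_eq (ζ := 1) (norm_char ψ _) (norm_char φ _) (by simp)
    (by rw [← hnn]; ring)
  rw [hgn, hg, ha, hb, mul_one, mul_one]

/-- The projection lemma: an invariant linear constituent of the restriction to a normal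
subgroup, of multiplicity one, comes from a linear constituent. -/
lemma IsHeilbronn.split_of_normal (hθ : IsHeilbronn θ) (h1 : θ 1 = 2) (A : Subgroup G)
    [A.Normal] (ρ μ : A →* ℂˣ) (hρμ : ∀ a : A, θ a = ((ρ a : ℂˣ) : ℂ) + ((μ a : ℂˣ) : ℂ))
    (hne : ρ ≠ μ) (hinv : ∀ (g : G) (a : A), ρ (MulAut.conjNormal g a) = ρ a) : Split θ := by
  classical
  have : Fintype G := Fintype.ofFinite _
  have : Fintype A := Fintype.ofFinite _
  have hAcard : (Nat.card A : ℂ) ≠ 0 := by exact_mod_cast Nat.card_pos.ne'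
  let L : G → ℂ := fun g => (Nat.card A : ℂ)⁻¹ * ∑ a : A, θ (g * a) * (((ρ a)⁻¹ : ℂˣ) : ℂ)
  have hLdef : ∀ g, L g = (Nat.card A : ℂ)⁻¹ * ∑ a : A, θ (g * a) * (((ρ a)⁻¹ : ℂˣ) : ℂ) :=
    fun _ => rfl
  have hcomm1 : ∀ (g : G) (a : A), θ (a * g) = θ (g * a) := by
    intro g a
    have := hθ.conj (g * a) a
    rw [← this]
    congr 1
    group
  have hL : IsHeilbronn L := by
    refine ⟨fun g h => ?_, fun H χ => ?_⟩
    · rw [hLdef, hLdef]
      congr 1
      rw [← Equiv.sum_comp (MulAut.conjNormal h).toEquiv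
        (fun a : A => θ (h * g * h⁻¹ * a) * (((ρ a)⁻¹ : ℂˣ) : ℂ))]
      refine Finset.sum_congr rfl fun a _ => ?_
      have e1 : (MulAut.conjNormal h).toEquiv a = MulAut.conjNormal h a := rfl
      rw [e1, hinv, MulAut.conjNormal_apply]
      have e2 : h * g * h⁻¹ * (h * a * h⁻¹) = h * (g * a) * h⁻¹ := by group
      rw [e2, hθ.conj]
    · have : Fintype H := Fintype.ofFinite _
      let act : H →* MulAut A := (MulAut.conjNormal).comp H.subtype
      let π : A ⋊[act] H →* G := SemidirectProduct.lift A.subtype H.subtype (by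
        intro h
        ext a
        simp [act, MulAut.conjNormal_apply])
      let χ' : A ⋊[act] H →* ℂˣ := SemidirectProduct.lift ρ χ (by
        intro h
        ext a
        simp [act, hinv])
      have : Fintype (A ⋊[act] H) := Fintype.ofEquiv _ (SemidirectProduct.equivProd).symm
      obtain ⟨n, hn⟩ := hθ.mult_hom π χ'
      refine ⟨n, ?_⟩
      rw [finsum_eq_sum_of_fintype]
      have hval : ∀ e : A × H, θ (π (SemidirectProduct.equivProd.symm e))
          * (((χ' (SemidirectProduct.equivProd.symm e))⁻¹ : ℂˣ) : ℂ)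
          = θ (e.2 * e.1) * (((ρ e.1)⁻¹ : ℂˣ) : ℂ) * (((χ e.2)⁻¹ : ℂˣ) : ℂ) := by
        intro e
        have e1 : π (SemidirectProduct.equivProd.symm e) = e.1 * e.2 := rfl
        have e2 : χ' (SemidirectProduct.equivProd.symm e) = ρ e.1 * χ e.2 := rfl
        rw [e1, e2, hcomm1, mul_inv]
        push_cast
        ring
      rw [← Equiv.sum_comp (SemidirectProduct.equivProd (φ := act)).symm
        (fun e => θ (π e) * (((χ' e)⁻¹ : ℂˣ) : ℂ)), Finset.sum_congr rfl (fun e _ => hval e),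
        Fintype.sum_prod_type_right, Nat.card_congr (SemidirectProduct.equivProd (φ := act)),
        Nat.card_prod] at hn
      simp only at hn
      have hLsum : ∑ h : H, L h * (((χ h)⁻¹ : ℂˣ) : ℂ) = (Nat.card A : ℂ)⁻¹ *
          ∑ h : H, ∑ a : A, θ (h * a) * (((ρ a)⁻¹ : ℂˣ) : ℂ) * (((χ h)⁻¹ : ℂˣ) : ℂ) := by
        rw [Finset.mul_sum]
        refine Finset.sum_congr rfl fun h _ => ?_
        rw [hLdef, ← Finset.sum_mul]
        ring
      rw [hLsum, hn]
      push_cast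
      field_simp
  have hL1 : L 1 = 1 := by
    rw [hLdef]
    have h2 : ∀ a : A, θ (1 * a) * (((ρ a)⁻¹ : ℂˣ) : ℂ) = 1 + (((μ * ρ⁻¹) a : ℂˣ) : ℂ) := by
      intro a
      rw [one_mul, hρμ, add_mul, ← Units.val_mul, mul_inv_cancel, Units.val_one,
        MonoidHom.mul_apply, MonoidHom.inv_apply, Units.val_mul]
    obtain ⟨w₀, hw₀⟩ : ∃ w₀, (μ * ρ⁻¹) w₀ ≠ 1 := by
      by_contra hcon
      push Not at hcon
      apply hne
      ext q
      have h4 := hcon q
      rw [MonoidHom.mul_apply, MonoidHom.inv_apply, mul_inv_eq_one] at h4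
      rw [h4]
    have h3 := sum_zpowers_eq_zero _ hw₀
    rw [finsum_eq_sum_of_fintype] at h3
    rw [Finset.sum_congr rfl (fun a _ => h2 a), Finset.sum_add_distrib, h3, add_zero,
      Finset.sum_const, Finset.card_univ, nsmul_eq_mul, mul_one, Nat.card_eq_fintype_card,
      inv_mul_cancel₀]
    rw [← Nat.card_eq_fintype_card]; exact hAcard
  obtain ⟨ψ, hψ⟩ := hL.deg_one hL1
  have hψA : ∀ (g : G) (a : A), ψ (g * a) = ψ g * ρ a := by
    intro g a
    apply Units.ext
    rw [Units.val_mul, ← hψ, ← hψ, hLdef, hLdef]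
    rw [← Equiv.sum_comp (Equiv.mulLeft a)
      (fun b : A => θ (g * b) * (((ρ b)⁻¹ : ℂˣ) : ℂ)), mul_assoc, Finset.sum_mul]
    congr 1
    refine Finset.sum_congr rfl fun b _ => ?_
    simp only [Equiv.coe_mulLeft, Subgroup.coe_mul, map_mul, mul_inv]
    have : ((ρ a : ℂˣ) : ℂ) ≠ 0 := Units.ne_zero _
    push_cast
    rw [mul_assoc g]
    field_simp
  obtain ⟨ν, hν⟩ := hθ.two_contains h1 ψ (by
    rw [finsum_eq_sum_of_fintype]
    have h2 : ∀ a : A, ∑ g : G, θ g * (((ψ g)⁻¹ : ℂˣ) : ℂ)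
        = ∑ g : G, θ (g * a) * (((ρ a)⁻¹ : ℂˣ) : ℂ) * (((ψ g)⁻¹ : ℂˣ) : ℂ) := by
      intro a
      rw [← Equiv.sum_comp (Equiv.mulRight (a : G))]
      refine Finset.sum_congr rfl fun g _ => ?_
      simp only [Equiv.coe_mulRight]
      rw [hψA, mul_inv]
      push_cast
      ring
    have h3 : (Nat.card A : ℂ) * ∑ g : G, θ g * (((ψ g)⁻¹ : ℂˣ) : ℂ)
        = ∑ a : A, ∑ g : G, θ (g * a) * (((ρ a)⁻¹ : ℂˣ) : ℂ) * (((ψ g)⁻¹ : ℂˣ) : ℂ) := by
      rw [← Finset.sum_congr rfl (fun a _ => h2 a), Finset.sum_const, Finset.card_univ,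
        nsmul_eq_mul, Nat.card_eq_fintype_card]
    rw [Finset.sum_comm] at h3
    have h4 : ∀ g : G, ∑ a : A, θ (g * a) * (((ρ a)⁻¹ : ℂˣ) : ℂ) * (((ψ g)⁻¹ : ℂˣ) : ℂ)
        = Nat.card A := by
      intro g
      rw [← Finset.sum_mul]
      have h5 : ∑ a : A, θ (g * a) * (((ρ a)⁻¹ : ℂˣ) : ℂ) = Nat.card A * ((ψ g : ℂˣ) : ℂ) := by
        rw [← hψ, hLdef]
        field_simp
      rw [h5, mul_assoc, ← Units.val_mul, mul_inv_cancel, Units.val_one, mul_one]
    rw [Finset.sum_congr rfl (fun g _ => h4 g), Finset.sum_const, Finset.card_univ,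
      nsmul_eq_mul] at h3
    intro h5
    rw [h5, mul_zero] at h3
    have h6 : ((Fintype.card G : ℕ) : ℂ) ≠ 0 := by exact_mod_cast Fintype.card_ne_zero
    exact (mul_ne_zero h6 hAcard) h3.symm)
  exact ⟨ψ, ν, hν⟩

end

end Pool.Agent.H302R2
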