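import Mathlib
import Pool.Agent.H302R2.Alperin
import Pool.Agent.H302R2.Clifford

/-!
# Degree two Heilbronn functions on groups of odd order, and the kernel theorem
-/

set_option autoImplicit false

namespace Pool.Agent.H302R2

universe u

open Subgroup

/-- An element normalizing `Q` fixes or inverts the character `f` of `Q`. -/
lemma pair_action {G : Type*} [Group G] {θ : G → ℂ} (hconj : ∀ g h : G, θ (h * g * h⁻¹) = θ g)
    {Q : Subgroup G} {f : G → ℂˣ} (hmul : ∀ x ∈ Q, ∀ y ∈ Q, f (x * y) = f x * f y)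
    (hθf : ∀ x ∈ Q, θ x = ((f x : ℂˣ) : ℂ) + (((f x)⁻¹ : ℂˣ) : ℂ)) {g : G}
    (hg : g ∈ normalizer (Q : Set G)) :
    (∀ x ∈ Q, f (g * x * g⁻¹) = f x) ∨ (∀ x ∈ Q, f (g * x * g⁻¹) = (f x)⁻¹) := by
  have hgQ : ∀ x ∈ Q, g * x * g⁻¹ ∈ Q := fun x hx => (mem_normalizer_iff.mp hg x).mp hx
  have key : ∀ x ∈ Q, f (g * x * g⁻¹) = f x ∨ f (g * x * g⁻¹) = (f x)⁻¹ := by
    intro x hx
    have h1 := hconj x g
    rw [hθf x hx, hθf _ (hgQ x hx)] at h1
    rcases pair_eq_of_sum_prod h1 (by
      rw [← Units.val_mul, ← Units.val_mul, mul_inv_cancel, mul_inv_cancel]) with h2 | h2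
    · exact Or.inl (Units.ext h2.1)
    · exact Or.inr (Units.ext h2.1)
  by_contra hcon
  push Not at hcon
  obtain ⟨⟨x, hx, hx1⟩, ⟨y, hy, hy1⟩⟩ := hcon
  have hx2 := (key x hx).resolve_left hx1
  have hy2 := (key y hy).resolve_right hy1
  have e : g * (x * y) * g⁻¹ = (g * x * g⁻¹) * (g * y * g⁻¹) := by group
  have h3 := key (x * y) (mul_mem hx hy)
  rw [e, hmul _ (hgQ x hx) _ (hgQ y hy), hmul x hx y hy, hx2, hy2] at h3
  rcases h3 with h3 | h3
  · apply hx1
    rw [hx2]
    exact mul_right_cancel h3
  · apply hy1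
    rw [hy2]
    rw [mul_inv] at h3
    exact mul_left_cancel h3

/-- powers of an element inverting `f` -/
lemma alt_pow {G : Type*} [Group G] {Q : Subgroup G} {f : G → ℂˣ} {g : G}
    (hg : g ∈ normalizer (Q : Set G)) (h : ∀ x ∈ Q, f (g * x * g⁻¹) = (f x)⁻¹) (n : ℕ) :
    ∀ x ∈ Q, f (g ^ n * x * (g ^ n)⁻¹) = f x ^ ((-1 : ℤ) ^ n) := by
  induction n with
  | zero => intro x _; simp
  | succ n ih =>
    intro x hx
    have hx' : g ^ n * x * (g ^ n)⁻¹ ∈ Q :=
      (mem_normalizer_iff.mp (pow_mem hg n) x).mp hx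
    have e : g ^ (n + 1) * x * (g ^ (n + 1))⁻¹ = g * (g ^ n * x * (g ^ n)⁻¹) * g⁻¹ := by
      rw [pow_succ']; group
    rw [e, h _ hx', ih x hx, pow_succ, mul_neg_one, zpow_neg]

lemma alt_odd_pow {G : Type*} [Group G] {Q : Subgroup G} {f : G → ℂˣ} {g : G}
    (hg : g ∈ normalizer (Q : Set G)) (h : ∀ x ∈ Q, f (g * x * g⁻¹) = (f x)⁻¹) {n : ℕ}
    (hn : Odd n) : ∀ x ∈ Q, f (g ^ n * x * (g ^ n)⁻¹) = (f x)⁻¹ := by
  intro x hx
  rw [alt_pow hg h n x hx, hn.neg_one_pow, zpow_neg_one]

/-- If an element inverts `f` and has odd order, then `f` is its own inverse. -/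
lemma self_inv_of_odd {G : Type*} [Group G] {Q : Subgroup G} {f : G → ℂˣ} {g : G}
    (hg : g ∈ normalizer (Q : Set G)) (h : ∀ x ∈ Q, f (g * x * g⁻¹) = (f x)⁻¹) {n : ℕ}
    (hn : Odd n) (hgn : g ^ n = 1) : ∀ x ∈ Q, f x = (f x)⁻¹ := by
  intro x hx
  have := alt_odd_pow hg h hn x hx
  rw [hgn, one_mul, inv_one, mul_one] at this
  exact this

lemma eq_one_of_pow_coprime {A : Type*} [Group A] {a : A} {m n : ℕ} (h : m.Coprime n)
    (h1 : a ^ m = 1) (h2 : a ^ n = 1) : a = 1 := by
  rw [← orderOf_eq_one_iff]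
  have e1 : orderOf a ∣ m := orderOf_dvd_of_pow_eq_one h1
  have e2 : orderOf a ∣ n := orderOf_dvd_of_pow_eq_one h2
  have e3 := Nat.dvd_gcd e1 e2
  rw [h.gcd_eq_one] at e3
  exact Nat.dvd_one.mp e3

open Classical in
/-- extension of a function on a subgroup -/
noncomputable def extFun {G : Type*} [Group G] {P : Subgroup G} (ψ : P →* ℂˣ) (x : G) : ℂˣ :=
  if h : x ∈ P then ψ ⟨x, h⟩ else 1

lemma extFun_mem {G : Type*} [Group G] {P : Subgroup G} (ψ : P →* ℂˣ) {x : G} (h : x ∈ P) :
    extFun ψ x = ψ ⟨x, h⟩ := by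
  unfold extFun
  rw [dif_pos h]

lemma extFun_mul {G : Type*} [Group G] {P : Subgroup G} (ψ : P →* ℂˣ) (x : G) (hx : x ∈ P)
    (y : G) (hy : y ∈ P) : extFun ψ (x * y) = extFun ψ x * extFun ψ y := by
  rw [extFun_mem ψ hx, extFun_mem ψ hy, extFun_mem ψ (mul_mem hx hy), ← map_mul]
  rfl

lemma extFun_pow_card {G : Type*} [Group G] [Finite G] {P : Subgroup G} (ψ : P →* ℂˣ) {x : G}
    (hx : x ∈ P) : extFun ψ x ^ Nat.card P = 1 := by
  rw [extFun_mem ψ hx, ← map_pow, pow_card_eq_one', map_one]

/-- The character `f` on a Sylow subgroup attached to a split restriction of determinant one. -/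
lemma exists_f {G : Type u} [Group G] [Finite G] {θ : G → ℂ} (hd : ∀ g, dd θ g = 1)
    (P : Subgroup G) (hs : Split (fun x : P => θ x)) :
    ∃ ψ : P →* ℂˣ, ∀ x ∈ P, θ x = ((extFun ψ x : ℂˣ) : ℂ) + (((extFun ψ x)⁻¹ : ℂˣ) : ℂ) := by
  obtain ⟨ψ, φ, h⟩ := hs
  refine ⟨ψ, fun x hx => ?_⟩
  have h1 := h ⟨x, hx⟩
  have h2 := dd_of_sum h ⟨x, hx⟩
  have h3 : dd (fun x : P => θ x) ⟨x, hx⟩ = dd θ x := rfl
  rw [h3, hd] at h2
  have h4 : φ ⟨x, hx⟩ = (ψ ⟨x, hx⟩)⁻¹ := by
    apply eq_inv_of_mul_eq_one_right
    apply Units.ext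
    rw [Units.val_mul, Units.val_one, ← h2]
  rw [extFun_mem ψ hx, ← h4]
  exact h1

/-- Degree two Heilbronn functions on groups of odd order are sums of linear characters. -/
theorem odd_split : ∀ (N : ℕ) (K : Type u) [Group K] [Finite K], Nat.card K = N → Odd N →
    ∀ (θ : K → ℂ) (_ : IsHeilbronn θ) (_ : θ 1 = 2), Split θ := by
  intro N
  induction N using Nat.strong_induction_on with
  | _ N ih =>
    intro K _ _ hKN hodd θ hθ h1
    obtain ⟨D, hD⟩ := hθ.exists_det h1
    have hordodd : ∀ g : K, Odd (orderOf g) := fun g =>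
      Odd.of_dvd_nat hodd (hKN ▸ orderOf_dvd_natCard g)
    by_cases hperf : commutator K = ⊤
    · -- the perfect case
      have htriv : ∀ (φ : K →* ℂˣ) (g : K), φ g = 1 := by
        intro φ g
        have h2 := Abelianization.commutator_subset_ker φ
        rw [hperf] at h2
        exact MonoidHom.mem_ker.mp (h2 trivial)
      have hd : ∀ g, dd θ g = 1 := fun g => by rw [← hD, htriv, Units.val_one]
      have hconst : ∀ g, θ g = θ 1 := by
        apply hθ.const_of_prime_powers
        intro p hp x k hxk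
        have : Fact p.Prime := ⟨hp⟩
        have hxp : IsPGroup p (zpowers x) := by
          rintro ⟨_, i, rfl⟩
          refine ⟨k, Subtype.ext ?_⟩
          change (x ^ i) ^ (p ^ k) = 1
          rw [← zpow_natCast, ← zpow_mul, mul_comm, zpow_mul, zpow_natCast, hxk, one_zpow]
        obtain ⟨P, hP⟩ := hxp.exists_le_sylow
        have hxP : x ∈ P := hP (mem_zpowers x)
        by_cases hPtop : (P : Subgroup K) = ⊤
        · -- `K` is a `p`-group
          rcases subsingleton_or_nontrivial K with hs | hnt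
          · rw [Subsingleton.elim x 1]
          · exfalso
            have hKp : IsPGroup p K := by
              have := P.isPGroup'
              rw [hPtop] at this
              exact this.of_equiv topEquiv
            have := hKp.isNilpotent
            exact (Group.IsSolvable.commutator_lt_top_of_nontrivial K).ne hperf
        · have hlt : Nat.card P < N := by
            rw [← hKN]
            apply lt_of_le_of_ne (Subgroup.card_le_card_group _)
            intro h
            exact hPtop (Subgroup.eq_top_of_card_eq _ h)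
          have hPodd : Odd (Nat.card P) :=
            Odd.of_dvd_nat hodd (hKN ▸ Subgroup.card_subgroup_dvd_card _)
          have hs := ih _ hlt P rfl hPodd (fun x => θ x)
            (hθ.comp (P : Subgroup K).subtype) h1
          obtain ⟨ψ, hψ⟩ := exists_f hd (P : Subgroup K) hs
          have hst : ∀ x ∈ P, ∀ g : K, g * x * g⁻¹ ∈ P →
              extFun ψ (g * x * g⁻¹) = extFun ψ x := by
            intro x hx g hg
            refine stable_of_local P (extFun ψ) ?_ hx hg
            intro Q hQ _ g hg x hx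
            rcases pair_action hθ.conj (Q := Q) (f := extFun ψ)
              (fun x hx y hy => extFun_mul ψ x (hQ hx) y (hQ hy))
              (fun x hx => hψ x (hQ hx)) hg with h2 | h2
            · exact h2 x hx
            · rw [h2 x hx]
              exact (self_inv_of_odd hg h2 (hordodd g) (pow_orderOf_eq_one g) x hx).symm
          obtain ⟨φ, hφ, -⟩ := exists_transfer P (extFun ψ) (extFun_mul ψ) hst
          have h2 := hφ x hxP
          rw [htriv] at h2
          have h3 : extFun ψ x = 1 := by
            refine eq_one_of_pow_coprime (m := (P : Subgroup K).index) (n := Nat.card P) ?_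
              h2.symm (extFun_pow_card ψ hxP)
            obtain ⟨n, hn⟩ := IsPGroup.iff_card.mp P.isPGroup'
            rw [hn]
            apply Nat.Coprime.pow_right
            exact ((Nat.Prime.coprime_iff_not_dvd hp).mpr P.not_dvd_index).symm
          rw [hψ x hxP, h3, h1]
          norm_num
      exact ⟨1, 1, fun g => by rw [hconst g, h1]; norm_num⟩
    · -- the commutator subgroup is proper
      set K₁ := commutator K with hK₁
      have hlt : Nat.card K₁ < N := by
        rw [← hKN]
        apply lt_of_le_of_ne (Subgroup.card_le_card_group _)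
        intro h
        exact hperf (Subgroup.eq_top_of_card_eq _ h)
      have hK₁odd : Odd (Nat.card K₁) :=
        Odd.of_dvd_nat hodd (hKN ▸ Subgroup.card_subgroup_dvd_card _)
      obtain ⟨ρ, μ, hρμ⟩ := ih _ hlt K₁ rfl hK₁odd (fun x => θ x) (hθ.comp K₁.subtype) h1
      have hDK : ∀ x ∈ K₁, dd θ x = 1 := by
        intro x hx
        rw [← hD]
        have h2 := Abelianization.commutator_subset_ker D hx
        rw [MonoidHom.mem_ker.mp h2, Units.val_one]
      have hμ : ∀ x : K₁, μ x = (ρ x)⁻¹ := by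
        intro x
        have h2 := dd_of_sum hρμ x
        have h3 : dd (fun x : K₁ => θ x) x = dd θ x := rfl
        rw [h3, hDK x x.2] at h2
        apply eq_inv_of_mul_eq_one_right
        apply Units.ext
        rw [Units.val_mul, Units.val_one, ← h2]
      by_cases hne : ρ = μ
      · -- trivial restriction
        have hρ1 : ∀ x : K₁, ρ x = 1 := by
          intro x
          have h2 : ρ x ^ 2 = 1 := by
            have := hμ x
            rw [← hne] at this
            rw [sq]
            nth_rewrite 1 [this]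
            exact inv_mul_cancel _
          refine eq_one_of_pow_coprime (m := 2) (n := Nat.card K₁) ?_ h2 ?_
          · exact Nat.coprime_two_left.mpr hK₁odd
          · rw [← map_pow, pow_card_eq_one', map_one]
        apply hθ.split_of_quotient h1 K₁
        · intro a b
          exact mul_comm (G := Abelianization K) a b
        · have h2 : ∀ x : K₁, θ x = 2 := by
            intro x
            have h := hρμ x
            simp only at h
            rw [h, ← hne, hρ1]; norm_num
          have : Fintype K₁ := Fintype.ofFinite _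
          rw [finsum_congr h2, finsum_eq_sum_of_fintype, Finset.sum_const, Finset.card_univ,
            nsmul_eq_mul]
          apply mul_ne_zero _ two_ne_zero
          exact_mod_cast Fintype.card_ne_zero
      · apply hθ.split_of_normal h1 K₁ ρ μ hρμ hne
        intro g a
        have hf : ∀ x ∈ K₁, θ x = ((extFun ρ x : ℂˣ) : ℂ) + (((extFun ρ x)⁻¹ : ℂˣ) : ℂ) := by
          intro x hx
          rw [extFun_mem ρ hx, ← hμ]
          exact hρμ ⟨x, hx⟩
        have hgN : g ∈ normalizer (K₁ : Set K) := by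
          rw [normalizer_eq_top]; trivial
        have h2 : extFun ρ (g * a * g⁻¹) = extFun ρ a := by
          rcases pair_action hθ.conj (Q := K₁) (f := extFun ρ) (extFun_mul ρ) hf hgN with h2 | h2
          · exact h2 a a.2
          · rw [h2 a a.2]
            exact (self_inv_of_odd hgN h2 (hordodd g) (pow_orderOf_eq_one g) a a.2).symm
        rw [extFun_mem ρ a.2, extFun_mem ρ ((mem_normalizer_iff.mp hgN a).mp a.2)] at h2
        exact h2

end Pool.Agent.H302R2
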