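import Mathlib
import Pool.Agent.H302R2.OddOrder

/-!
# The kernel theorem for degree two Heilbronn functions
-/

set_option autoImplicit false

namespace Pool.Agent.H302R2

universe u

open Subgroup

lemma finsum_char_eq_zero {Q : Type*} [Group Q] [Finite Q] (ψ : Q →* ℂˣ) (h : ψ ≠ 1) :
    ∑ᶠ x : Q, ((ψ x : ℂˣ) : ℂ) = 0 := by
  have : Fintype Q := Fintype.ofFinite _
  rw [finsum_eq_sum_of_fintype]
  refine sum_hom_units_eq_zero ((Units.coeHom ℂ).comp ψ) ?_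
  intro h2
  apply h
  ext x
  have := DFunLike.congr_fun h2 x
  simpa using this

/-- `avg_zero` for a subgroup and an element normalizing it. -/
lemma IsHeilbronn.avg_zero' {G : Type u} [Group G] [Finite G] {θ : G → ℂ} (hθ : IsHeilbronn θ)
    (Q : Subgroup G) (h : ∑ᶠ n : Q, θ n = 0) {g : G} (hg : g ∈ normalizer (Q : Set G)) :
    ∑ᶠ n : Q, θ (g * n) = 0 := by
  set NQ := normalizer (Q : Set G) with hNQ
  have hQN : Q ≤ NQ := le_normalizer
  have h1 := hθ.comp NQ.subtype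
  let e := (subgroupOfEquivOfLe hQN).toEquiv
  have hn : (Q.subgroupOf NQ).Normal := normal_in_normalizer
  have h2 : ∑ᶠ n : Q.subgroupOf NQ, θ (NQ.subtype n) = 0 := by
    rw [← h]
    exact finsum_comp_equiv e (f := fun n : Q => θ n)
  have h3 := h1.avg_zero (Q.subgroupOf NQ) h2 ⟨g, hg⟩
  rw [← h3]
  exact (finsum_comp_equiv e (f := fun n : Q => θ (g * n))).symm

lemma pow_mul_mem {G : Type*} [Group G] {Q : Subgroup G} {t w : G}
    (ht : t ∈ normalizer (Q : Set G)) (hw : w ∈ Q) (n : ℕ) : (t ^ n)⁻¹ * (t * w) ^ n ∈ Q := by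
  induction n with
  | zero => simp
  | succ n ih =>
    have e : (t ^ (n + 1))⁻¹ * (t * w) ^ (n + 1) = t⁻¹ * ((t ^ n)⁻¹ * (t * w) ^ n) * t * w := by
      rw [pow_succ, pow_succ]; group
    rw [e]
    refine mul_mem ?_ hw
    have h1 := (mem_normalizer_iff''.mp ht ((t ^ n)⁻¹ * (t * w) ^ n)).mp ih
    exact h1

/-- The decomposition of an element whose `2 ^ k`-th power lies in an odd order subgroup. -/
lemma two_part {G : Type*} [Group G] {Q : Subgroup G} [Finite Q] (hQ : Odd (Nat.card Q)) {y : G}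
    {k : ℕ} (hy : y ^ (2 ^ k) ∈ Q) : ∃ s r : G, r ∈ Q ∧ s ^ (2 ^ k) = 1 ∧ s * r = r * s ∧
      s * r = y ∧ y * r = r * y := by
  have hco : Nat.Coprime (2 ^ k) (Nat.card Q) :=
    Nat.Coprime.pow_left _ (Nat.coprime_two_left.mpr hQ)
  have hco2 := (Nat.isCoprime_iff_coprime.mpr hco)
  obtain ⟨u, v, huv⟩ := hco2
  have e1 : (y ^ (2 ^ k)) ^ (Nat.card Q) = 1 := by
    have := pow_card_eq_one' (x := (⟨_, hy⟩ : Q))
    have h2 := congrArg Subtype.val this
    rwa [SubmonoidClass.coe_pow, OneMemClass.coe_one] at h2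
  refine ⟨y ^ (v * (Nat.card Q : ℤ)), y ^ (u * ((2 ^ k : ℕ) : ℤ)), ?_, ?_, ?_, ?_, ?_⟩
  · rw [mul_comm, zpow_mul, zpow_natCast]
    exact zpow_mem hy u
  · rw [← zpow_natCast, ← zpow_mul]
    have : v * (Nat.card Q : ℤ) * ((2 ^ k : ℕ) : ℤ) = (((2 ^ k : ℕ) : ℤ) * (Nat.card Q : ℤ)) * v := by
      ring
    rw [this, zpow_mul, zpow_mul, zpow_natCast, zpow_natCast, e1, one_zpow]
  · rw [← zpow_add, ← zpow_add, add_comm]
  · rw [← zpow_add, add_comm, huv, zpow_one]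
  · rw [← zpow_one_add, ← zpow_add_one, add_comm]

/-- An element inverting `f`, commuting with `r ∈ Q`, forces `f r = 1` when `Q` is odd. -/
lemma f_eq_one_of_comm {G : Type*} [Group G] {Q : Subgroup G}
    {f : G → ℂˣ} (hpow : ∀ x ∈ Q, ∃ m : ℕ, Odd m ∧ f x ^ m = 1) {y r : G}
    (h : ∀ x ∈ Q, f (y * x * y⁻¹) = (f x)⁻¹) (hr : r ∈ Q) (hyr : y * r = r * y) : f r = 1 := by
  have h1 := h r hr
  rw [hyr, mul_inv_cancel_right] at h1
  obtain ⟨m, hm, hfm⟩ := hpow r hr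
  refine eq_one_of_pow_coprime (m := 2) (n := m) (Nat.coprime_two_left.mpr hm) ?_ hfm
  rw [sq]
  nth_rewrite 1 [h1]
  exact inv_mul_cancel _

/-- The main local step: a `2`-element cannot invert a nontrivial `f` on an odd subgroup
if `θ` is constant on cosets of `2`-elements. -/
lemma no_invert {G : Type u} [Group G] [Finite G] {θ : G → ℂ} (hθ : IsHeilbronn θ)
    {Q : Subgroup G} (hQ : Odd (Nat.card Q)) {f : G → ℂˣ}
    (hmul : ∀ x ∈ Q, ∀ y ∈ Q, f (x * y) = f x * f y)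
    (hθf : ∀ x ∈ Q, θ x = ((f x : ℂˣ) : ℂ) + (((f x)⁻¹ : ℂˣ) : ℂ))
    (h1 : θ 1 = 2) {t : G} (ht : t ∈ normalizer (Q : Set G)) {k : ℕ} (htk : t ^ (2 ^ k) = 1)
    (h : ∀ x ∈ Q, f (t * x * t⁻¹) = (f x)⁻¹)
    {c : ℂ} (hc : c ≠ 0)
    (h2 : ∀ s : G, ∀ w ∈ Q, ∀ r ∈ Q, s ^ (2 ^ k) = 1 → s * r = t * w → θ s = c) :
    ∀ x ∈ Q, f x = 1 := by
  by_contra hcon
  push Not at hcon
  obtain ⟨x₀, hx₀, hfx₀⟩ := hcon
  -- the character on Q
  let ψ : Q →* ℂˣ := MonoidHom.mk' (fun x => f x) (fun x y => hmul x x.2 y y.2)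
  have hψ : ψ ≠ 1 := by
    intro h3
    exact hfx₀ (DFunLike.congr_fun h3 ⟨x₀, hx₀⟩)
  have hψ' : ψ⁻¹ ≠ 1 := by
    intro h3
    apply hψ
    ext x
    have h4 := DFunLike.congr_fun h3 x
    have h5 : ψ x = 1 := inv_eq_one.mp h4
    rw [h5]; rfl
  have hsum : ∑ᶠ n : Q, θ n = 0 := by
    have e1 : ∀ n : Q, θ n = ((ψ n : ℂˣ) : ℂ) + ((ψ⁻¹ n : ℂˣ) : ℂ) := fun n => hθf n n.2
    rw [finsum_congr e1, finsum_add_distrib (Set.toFinite _) (Set.toFinite _),
      finsum_char_eq_zero ψ hψ, finsum_char_eq_zero ψ⁻¹ hψ', add_zero]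
  have hsum2 := hθ.avg_zero' Q hsum ht
  have hpow : ∀ x ∈ Q, ∃ m : ℕ, Odd m ∧ f x ^ m = 1 := by
    intro x hx
    refine ⟨Nat.card Q, hQ, ?_⟩
    change ψ ⟨x, hx⟩ ^ _ = 1
    rw [← map_pow, pow_card_eq_one', map_one]
  have hval : ∀ w : Q, θ (t * w) = c := by
    intro w
    have hy : (t * w) ^ (2 ^ k) ∈ Q := by
      have := pow_mul_mem ht w.2 (2 ^ k)
      rwa [htk, inv_one, one_mul] at this
    obtain ⟨s, r, hr, hs, hsr, hy2, hyr⟩ := two_part hQ hy
    have hyinv : ∀ x ∈ Q, f ((t * w) * x * (t * w)⁻¹) = (f x)⁻¹ := by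
      intro x hx
      have e : (t * w) * x * (t * w)⁻¹ = t * (w * x * (w : G)⁻¹) * t⁻¹ := by group
      have hw : (w : G) * x * (w : G)⁻¹ ∈ Q := mul_mem (mul_mem w.2 hx) (inv_mem w.2)
      rw [e, h _ hw]
      have e2 : f (w * x * (w : G)⁻¹) = f x := by
        have hinv : f (w : G)⁻¹ = (f w)⁻¹ := map_inv ψ w
        rw [hmul _ (mul_mem w.2 hx) _ (inv_mem w.2), hmul _ w.2 _ hx, hinv]
        rw [mul_comm (f w) (f x), mul_inv_cancel_right]
      rw [e2]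
    have hfr : f r = 1 := f_eq_one_of_comm hpow hyinv hr hyr
    have hθr : θ r = θ 1 := by
      rw [hθf r hr, hfr, h1]; norm_num
    rw [← hy2, hθ.mul_of_comm hsr hθr]
    exact h2 s w w.2 r hr hs hy2
  have : Fintype Q := Fintype.ofFinite _
  rw [finsum_congr hval, finsum_eq_sum_of_fintype, Finset.sum_const, Finset.card_univ,
    nsmul_eq_mul] at hsum2
  rcases mul_eq_zero.mp hsum2 with h3 | h3
  · exact Fintype.card_ne_zero (α := Q) (by exact_mod_cast h3)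
  · exact hc h3

lemma exists_odd_part (n : ℕ) (hn : n ≠ 0) : ∃ k m : ℕ, Odd m ∧ n = 2 ^ k * m := by
  obtain ⟨k, m, hm, h⟩ := Nat.exists_eq_two_pow_mul_odd hn
  exact ⟨k, m, hm, h⟩

/-- **Kernel theorem.** If `G` is generated by its `2`-elements and `θ = 2` on them, then
`θ = 2`. -/
theorem kernel_two {G : Type u} [Group G] [Finite G] {θ : G → ℂ} (hθ : IsHeilbronn θ)
    (h1 : θ 1 = 2) (hgen : closure {x : G | ∃ k : ℕ, x ^ (2 ^ k) = 1} = ⊤)
    (h2 : ∀ (x : G) (k : ℕ), x ^ (2 ^ k) = 1 → θ x = 2) (g : G) : θ g = 2 := by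
  have htriv : ∀ φ : G →* ℂˣ, (∀ (x : G) (k : ℕ), x ^ (2 ^ k) = 1 → φ x = 1) → ∀ g, φ g = 1 := by
    intro φ hφ g
    have h3 : closure {x : G | ∃ k : ℕ, x ^ (2 ^ k) = 1} ≤ φ.ker := by
      rw [closure_le]
      rintro x ⟨k, hk⟩
      exact MonoidHom.mem_ker.mpr (hφ x k hk)
    rw [hgen] at h3
    exact MonoidHom.mem_ker.mp (h3 (mem_top g))
  obtain ⟨D, hD⟩ := hθ.exists_det h1
  have hd : ∀ g, dd θ g = 1 := by
    intro g
    rw [← hD, htriv D ?_ g, Units.val_one]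
    intro x k hk
    apply Units.ext
    rw [hD, dd, h2 x k hk, h2 (x ^ 2) k (by rw [← pow_mul, mul_comm, pow_mul, hk, one_pow]),
      Units.val_one]
    norm_num
  have hconst : ∀ g, θ g = θ 1 := by
    apply hθ.const_of_prime_powers
    intro p hp x k hxk
    rcases hp.eq_two_or_odd' with rfl | hpodd
    · rw [h2 x k hxk, h1]
    have : Fact p.Prime := ⟨hp⟩
    have hxp : IsPGroup p (zpowers x) := by
      rintro ⟨_, i, rfl⟩
      refine ⟨k, Subtype.ext ?_⟩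
      change (x ^ i) ^ (p ^ k) = 1
      rw [← zpow_natCast, ← zpow_mul, mul_comm, zpow_mul, zpow_natCast, hxk, one_zpow]
    obtain ⟨P, hP⟩ := hxp.exists_le_sylow
    have hxP : x ∈ P := hP (mem_zpowers x)
    obtain ⟨a, ha⟩ := IsPGroup.iff_card.mp P.isPGroup'
    have hPodd : Odd (Nat.card P) := by rw [ha]; exact hpodd.pow
    have hs := odd_split _ P rfl hPodd (fun x => θ x) (hθ.comp (P : Subgroup G).subtype) h1
    obtain ⟨ψ, hψ⟩ := exists_f hd (P : Subgroup G) hs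
    have hst : ∀ x ∈ P, ∀ g : G, g * x * g⁻¹ ∈ P →
        extFun ψ (g * x * g⁻¹) = extFun ψ x := by
      intro x hx g hg
      refine stable_of_local P (extFun ψ) ?_ hx hg
      intro Q hQ _ g hg x hx
      have hmulQ : ∀ x ∈ Q, ∀ y ∈ Q, extFun ψ (x * y) = extFun ψ x * extFun ψ y :=
        fun x hx y hy => extFun_mul ψ x (hQ hx) y (hQ hy)
      have hQodd : Odd (Nat.card Q) :=
        Odd.of_dvd_nat hPodd (Subgroup.card_dvd_of_le hQ)
      rcases pair_action hθ.conj (Q := Q) (f := extFun ψ) hmulQ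
        (fun x hx => hψ x (hQ hx)) hg with h3 | h3
      · exact h3 x hx
      · obtain ⟨k, m, hm, hkm⟩ := exists_odd_part (orderOf g) (orderOf_pos g).ne'
        have ht : g ^ m ∈ normalizer (Q : Set G) := pow_mem hg m
        have htk : (g ^ m) ^ (2 ^ k) = 1 := by
          rw [← pow_mul, mul_comm, ← hkm, pow_orderOf_eq_one]
        have htinv := alt_odd_pow hg h3 hm
        have h4 := no_invert hθ hQodd hmulQ (fun x hx => hψ x (hQ hx)) h1 ht htk htinv
          two_ne_zero (fun s _ _ _ _ hs _ => h2 s k hs)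
        rw [h4 x hx, h4 _ ((mem_normalizer_iff.mp hg x).mp hx)]
    obtain ⟨φ, hφ, hφ2⟩ := exists_transfer P (extFun ψ) (extFun_mul ψ) hst
    have hφ1 : ∀ g, φ g = 1 := by
      apply htriv
      intro y k hk
      refine eq_one_of_pow_coprime (m := 2 ^ k) (n := Nat.card P) ?_ ?_ (hφ2 y)
      · exact Nat.Coprime.pow_left _ (Nat.coprime_two_left.mpr hPodd)
      · rw [← map_pow, hk, map_one]
    have h4 := hφ x hxP
    rw [hφ1] at h4
    have h3 : extFun ψ x = 1 := by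
      refine eq_one_of_pow_coprime (m := (P : Subgroup G).index) (n := Nat.card P) ?_
        h4.symm (extFun_pow_card ψ hxP)
      rw [ha]
      apply Nat.Coprime.pow_right
      exact ((Nat.Prime.coprime_iff_not_dvd hp).mpr P.not_dvd_index).symm
    rw [hψ x hxP, h3, h1]
    norm_num
  rw [hconst, h1]

end Pool.Agent.H302R2
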