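import Mathlib
import Pool.Agent.H302R2.Clifford

/-!
# Degree two Heilbronn functions on two-groups and the quaternion group
-/

set_option autoImplicit false

namespace Pool.Agent.H302R2

universe u

open Subgroup

/-- The character of the two-dimensional irreducible representation of the quaternion group of
order eight: `2` at the identity, `-2` at the central involution and `0` elsewhere. -/
def quatChar : QuaternionGroup 2 → ℂ
  | QuaternionGroup.a i => if i = 0 then 2 else if i = 2 then -2 else 0
  | QuaternionGroup.xa _ => 0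

/-- `θ` restricts to no subgroup as the inflation of the quaternion character. -/
def QF {G : Type*} [Group G] (θ : G → ℂ) : Prop :=
  ∀ (H : Subgroup G) (f : H →* QuaternionGroup 2), Function.Surjective f →
    ¬ ∀ h : H, θ h = quatChar (f h)

lemma QF.sub {G H : Type*} [Group G] [Group H] {θ : G → ℂ} (h : QF θ) (i : H →* G)
    (hi : Function.Injective i) : QF (fun x => θ (i x)) := by
  intro H' f hf hθ
  let e := H'.equivMapOfInjective i hi
  refine h (H'.map i) (f.comp e.symm.toMonoidHom) (hf.comp e.symm.surjective) ?_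
  intro g
  have h1 := hθ (e.symm g)
  change θ g = quatChar (f (e.symm g))
  rw [← h1]
  congr 1
  have h2 : ((e (e.symm g) : H'.map i) : G) = i ((e.symm g : H') : H) := rfl
  rw [← h2, MulEquiv.apply_symm_apply]

lemma QF.quot {G H : Type*} [Group G] [Group H] {θ : H → ℂ} (π : G →* H)
    (hπ : Function.Surjective π) (h : QF (fun x => θ (π x))) : QF θ := by
  intro H' f hf hθ
  refine h (H'.comap π) (f.comp (π.subgroupComap H'))
    (hf.comp (π.subgroupComap_surjective_of_surjective H' hπ)) ?_
  intro g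
  exact hθ (π.subgroupComap H' g)

/-- The hom from the quaternion group given by relations. -/
lemma not_QF {R : Type*} [Group R] {θ : R → ℂ} {x y : R} (hx4 : x ^ 4 = 1) (hx2 : x ^ 2 ≠ 1)
    (hy : y ^ 2 = x ^ 2) (hxy : y⁻¹ * x * y = x⁻¹) (h1 : θ 1 = 2) (hθx2 : θ (x ^ 2) = -2)
    (hθx : θ x = 0) (hθx3 : θ (x ^ 3) = 0) (hθy : ∀ k : ℤ, θ (y * x ^ k) = 0) : ¬ QF θ := by
  intro hQF
  let X : ZMod (2 * 2) →+ Additive R :=
    ZMod.lift (2 * 2) ⟨zmultiplesHom (Additive R) (Additive.ofMul x), by
      change Additive.ofMul (x ^ (((2 * 2 : ℕ) : ℤ))) = 0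
      rw [zpow_natCast, hx4]; rfl⟩
  have hXcast : ∀ k : ℤ, (X (k : ZMod (2 * 2))).toMul = x ^ k := by
    intro k
    simp only [X]
    rw [ZMod.lift_coe]
    rfl
  have hXadd : ∀ i j : ZMod (2 * 2), (X (i + j)).toMul = (X i).toMul * (X j).toMul := by
    intro i j; rw [map_add]; rfl
  have hXsub : ∀ i j : ZMod (2 * 2), (X (i - j)).toMul = (X i).toMul * ((X j).toMul)⁻¹ := by
    intro i j
    rw [map_sub]
    change (X i).toMul / (X j).toMul = _
    rw [div_eq_mul_inv]
  have hconj : ∀ i : ZMod (2 * 2), y⁻¹ * (X i).toMul * y = ((X i).toMul)⁻¹ := by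
    intro i
    obtain ⟨k, rfl⟩ := ZMod.intCast_surjective i
    rw [hXcast]
    have : y⁻¹ * x ^ k * y = (y⁻¹ * x * y) ^ k := by
      have h := conj_zpow (i := k) (a := y⁻¹) (b := x)
      rw [inv_inv] at h
      exact h.symm
    rw [this, hxy, inv_zpow]
  have hcomm : ∀ i : ZMod (2 * 2), (X i).toMul * y = y * ((X i).toMul)⁻¹ := by
    intro i
    rw [← hconj i]; group
  have hXcomm : ∀ i j : ZMod (2 * 2), (X i).toMul * (X j).toMul = (X j).toMul * (X i).toMul := by
    intro i j
    rw [← hXadd, add_comm, hXadd]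
  let F0 : QuaternionGroup 2 → R
    | QuaternionGroup.a i => (X i).toMul
    | QuaternionGroup.xa i => y * (X i).toMul
  have hF0a : ∀ i, F0 (QuaternionGroup.a i) = (X i).toMul := fun i => rfl
  have hF0xa : ∀ i, F0 (QuaternionGroup.xa i) = y * (X i).toMul := fun i => rfl
  have hmul : ∀ u v, F0 (u * v) = F0 u * F0 v := by
    rintro (i | i) (j | j)
    · rw [QuaternionGroup.a_mul_a, hF0a, hF0a, hF0a, hXadd]
    · rw [QuaternionGroup.a_mul_xa, hF0a, hF0xa, hF0xa, hXsub]
      have h2 : (X j).toMul * ((X i).toMul)⁻¹ = ((X i).toMul)⁻¹ * (X j).toMul := by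
        rw [mul_inv_eq_iff_eq_mul, mul_assoc, eq_inv_mul_iff_mul_eq]
        exact hXcomm i j
      rw [h2, ← mul_assoc, ← mul_assoc, hcomm i]
    · rw [QuaternionGroup.xa_mul_a, hF0a, hF0xa, hF0xa, hXadd, mul_assoc]
    · rw [QuaternionGroup.xa_mul_xa, hF0a, hF0xa, hF0xa, hXsub, hXadd]
      have h2 : (X ((2 : ℕ) : ZMod (2 * 2))).toMul = x ^ 2 := by
        have := hXcast 2
        rw [zpow_ofNat] at this
        exact_mod_cast this
      rw [h2]
      have h3 : (X j).toMul * ((X i).toMul)⁻¹ = ((X i).toMul)⁻¹ * (X j).toMul := by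
        rw [mul_inv_eq_iff_eq_mul, mul_assoc, eq_inv_mul_iff_mul_eq]
        exact hXcomm i j
      calc x ^ 2 * (X j).toMul * ((X i).toMul)⁻¹
          = y ^ 2 * (((X i).toMul)⁻¹ * (X j).toMul) := by rw [mul_assoc, h3, hy]
        _ = y * (y * ((X i).toMul)⁻¹) * (X j).toMul := by rw [sq]; group
        _ = y * ((X i).toMul * y) * (X j).toMul := by rw [hcomm]
        _ = y * (X i).toMul * (y * (X j).toMul) := by group
  let F : QuaternionGroup 2 →* R := MonoidHom.mk' F0 hmul
  have hord : orderOf x = 2 ^ (1 + 1) := by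
    apply orderOf_eq_prime_pow
    · rw [pow_one]; exact hx2
    · exact hx4
  have hinj : Function.Injective F := by
    rw [injective_iff_map_eq_one]
    rintro (i | i) hi
    · change (X i).toMul = 1 at hi
      obtain ⟨k, rfl⟩ := ZMod.intCast_surjective i
      rw [hXcast, ← orderOf_dvd_iff_zpow_eq_one, hord] at hi
      have : ((k : ℤ) : ZMod (2 * 2)) = 0 := by
        rw [ZMod.intCast_zmod_eq_zero_iff_dvd]
        exact hi
      rw [this]; rfl
    · exfalso
      change y * (X i).toMul = 1 at hi
      obtain ⟨k, rfl⟩ := ZMod.intCast_surjective i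
      rw [hXcast] at hi
      have h1 : y = (x ^ k)⁻¹ := eq_inv_of_mul_eq_one_left hi
      have h2 : y⁻¹ * x * y = x := by
        rw [h1, inv_inv]; group
      rw [h2] at hxy
      apply hx2
      rw [sq]
      nth_rewrite 1 [hxy]
      exact inv_mul_cancel _
  let e := MonoidHom.ofInjective hinj
  refine hQF F.range e.symm.toMonoidHom e.symm.surjective ?_
  have hF : ∀ q, θ (F q) = quatChar q := by
    rintro (i | i)
    · change θ ((X i).toMul) = if i = 0 then 2 else if i = 2 then -2 else 0
      have hi : i = ((0 : ℤ) : ZMod (2 * 2)) ∨ i = ((1 : ℤ) : ZMod (2 * 2)) ∨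
          i = ((2 : ℤ) : ZMod (2 * 2)) ∨ i = ((3 : ℤ) : ZMod (2 * 2)) := by
        revert i; decide
      rcases hi with rfl | rfl | rfl | rfl
      · rw [hXcast, zpow_zero, h1, if_pos (by decide)]
      · rw [hXcast, zpow_one, hθx, if_neg (by decide), if_neg (by decide)]
      · rw [hXcast, if_neg (by decide), if_pos (by decide), ← hθx2]
        norm_cast
      · rw [hXcast, if_neg (by decide), if_neg (by decide), ← hθx3]
        norm_cast
    · obtain ⟨k, rfl⟩ := ZMod.intCast_surjective i
      change θ (y * (X (k : ZMod (2 * 2))).toMul) = 0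
      rw [hXcast]
      exact hθy k
  intro g
  have h5 := hF (e.symm g)
  have h6 : F (e.symm g) = g := by
    have : (e (e.symm g) : R) = F (e.symm g) := rfl
    rw [← this, MulEquiv.apply_symm_apply]
  rw [h6] at h5
  exact h5

/-- **2-groups.** A degree two Heilbronn function of determinant one splits, unless it restricts
to the quaternion character on a section. -/
theorem two_group_split : ∀ (N : ℕ) (R : Type u) [Group R] [Finite R], Nat.card R = N →
    IsPGroup 2 R → ∀ (θ : R → ℂ) (_ : QF θ) (_ : IsHeilbronn θ) (_ : θ 1 = 2)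
      (_ : ∀ g, dd θ g = 1), Split θ := by
  intro N
  induction N using Nat.strong_induction_on with
  | _ N ih =>
    intro R _ _ hRN hR θ hQF hθ h1 hd
    by_cases hA : ∃ K : Subgroup R, K.Normal ∧ K ≠ ⊥ ∧ ∀ k ∈ K, θ k = 2
    · -- descend
      obtain ⟨K, hKn, hK1, hK⟩ := hA
      have hZθ : ∀ y : R, ∀ n ∈ K, θ (y * n) = θ y := fun y n hn =>
        hθ.const_on_cosets h1 K hK y hn
      have hdd : ∀ g : R ⧸ K, dd (descend K θ) g = 1 := by
        intro g
        induction g using QuotientGroup.induction_on with | _ g => ?_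
        unfold dd
        rw [← QuotientGroup.mk_pow, descend_mk hZθ, descend_mk hZθ]
        exact hd g
      have hlt : Nat.card (R ⧸ K) < N := by
        rw [← hRN, Subgroup.card_eq_card_quotient_mul_card_subgroup K]
        have : 1 < Nat.card K := K.one_lt_card_iff_ne_bot.mpr hK1
        have h3 : 0 < Nat.card (R ⧸ K) := Nat.card_pos
        nlinarith
      have h3 : (fun x => descend K θ (QuotientGroup.mk' K x)) = θ :=
        funext fun g => descend_mk hZθ g
      have key := ih _ hlt (R ⧸ K) rfl (hR.to_quotient _)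
        (descend K θ)
        (QF.quot (QuotientGroup.mk' K) (QuotientGroup.mk'_surjective K) (by rw [h3]; exact hQF))
        (hθ.descend _ hZθ)
        (by rw [← QuotientGroup.mk_one, descend_mk hZθ, h1]) hdd
      have h2 := key.comp (QuotientGroup.mk' K)
      rwa [h3] at h2
    by_cases hnc : ∀ a b : R, a * b = b * a
    · exact hθ.comm_two hnc h1
    by_cases hB : ∃ c ∈ Subgroup.center R, ∃ a b : ℂ, a ≠ b ∧ θ c = a + b ∧ dd θ c = a * b
    · obtain ⟨c, hcz, a, b, hab, hs, hp⟩ := hB
      obtain ⟨ψ, φ, h, -⟩ := hθ.split h1 (Subgroup.mem_center_iff.mp hcz) hab hs hp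
      exact ⟨ψ, φ, h⟩
    exfalso
    push Not at hA hB
    have hC : ∀ c ∈ Subgroup.center R, c ≠ 1 → θ c = -2 := by
      intro c hc hc1
      obtain ⟨a, b, ha, hb, hp, hs, hpow⟩ := hθ.two_eig h1 c
      have hab : a = b := by
        by_contra hab
        exact hB c hc a b hab hs hp
      subst hab
      rw [hd] at hp
      have ha1 : (a - 1) * (a + 1) = 0 := by linear_combination -hp
      rcases mul_eq_zero.mp ha1 with h | h
      · exfalso
        have ha : a = 1 := sub_eq_zero.mp h
        subst ha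
        obtain ⟨k, hk, hk2⟩ := hA (zpowers c) (zpowers_normal_of_center hc)
          (by rw [ne_eq, zpowers_eq_bot]; exact hc1)
        obtain ⟨i, rfl⟩ := hk
        apply hk2
        simp only
        rw [hpow, one_zpow]; norm_num
      · have ha : a = -1 := eq_neg_of_add_eq_zero_left h
        rw [hs, ha]; norm_num
    have hscal : ∀ c ∈ Subgroup.center R, c ≠ 1 → ∀ g, θ (g * c) = - θ g := by
      intro c hc hc1 g
      have := hθ.two_scalar h1 (Subgroup.mem_center_iff.mp hc g) (ζ := -1) (by norm_num)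
        (by rw [hC c hc hc1]; norm_num)
      rw [this]; ring
    have huniq : ∀ c ∈ Subgroup.center R, ∀ c' ∈ Subgroup.center R, c ≠ 1 → c' ≠ 1 →
        c * c' = 1 := by
      intro c hc c' hc' hc1 hc1'
      by_contra hne
      have h2 := hC _ (mul_mem hc hc') hne
      rw [hscal c' hc' hc1', hC c hc hc1] at h2
      norm_num at h2
    obtain ⟨x, ⟨y₀, hy₀⟩, hx⟩ := exists_second_center hR hnc
    set z := x⁻¹ * y₀⁻¹ * x * y₀ with hz
    have hzz : z ∈ Subgroup.center R := hx y₀
    have hz1 : z ≠ 1 := by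
      intro h
      apply hy₀
      rw [hz, mul_assoc, mul_eq_one_iff_eq_inv, ← mul_inv_rev] at h
      have := congrArg (·⁻¹) h
      simp only [inv_inv] at this
      exact this.symm
    have hzsq : z * z = 1 := huniq z hzz z hzz hz1 hz1
    have hzc : ∀ g, g * z = z * g := Subgroup.mem_center_iff.mp hzz
    have hzinv : z⁻¹ = z := inv_eq_of_mul_eq_one_left hzsq
    have hcent : ∀ c ∈ Subgroup.center R, c ≠ 1 → c = z := by
      intro c hc hc1
      have := huniq c hc z hzz hc1 hz1
      rw [← hzinv]; exact eq_inv_of_mul_eq_one_left this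
    have hcm : ∀ h, x * h = h * x ∨ x * h = h * x * z := by
      intro h
      by_cases he : x⁻¹ * h⁻¹ * x * h = 1
      · left
        have : x * h = h * x * (x⁻¹ * h⁻¹ * x * h) := by group
        rw [this, he, mul_one]
      · right
        have : x * h = h * x * (x⁻¹ * h⁻¹ * x * h) := by group
        rw [this, hcent _ (hx h) he]
    have hxy : x * y₀ = y₀ * x * z := by
      rw [hz]; group
    have hneg : ∀ g h, g * h = h * g * z → θ g = 0 := by
      intro g h hgh
      have e1 : h⁻¹ * g * (h⁻¹)⁻¹ = g * z := by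
        rw [inv_inv, mul_assoc, hgh]; group
      have h2 := hθ.conj g h⁻¹
      rw [e1, hscal z hzz hz1] at h2
      have : 2 * θ g = 0 := by linear_combination -h2
      exact (mul_eq_zero.mp this).resolve_left two_ne_zero
    have hθx : θ x = 0 := hneg x y₀ hxy
    have hyx : y₀ * x = x * y₀ * z := by
      rw [hxy, mul_assoc, hzsq, mul_one]
    have hθy : θ y₀ = 0 := hneg y₀ x hyx
    have hsq : ∀ g, θ g = 0 → θ (g ^ 2) = -2 := by
      intro g hg
      have := hd g
      rw [dd, hg] at this
      linear_combination -2 * this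
    have hx2z : x ^ 2 = z := by
      apply hcent
      · rw [Subgroup.mem_center_iff]
        intro h
        rcases hcm h with h2 | h2
        · rw [sq, ← mul_assoc, ← h2, mul_assoc, ← h2, mul_assoc]
        · have h3 : x * x * h = h * (x * x) := by
            calc x * x * h = x * (x * h) := mul_assoc _ _ _
              _ = x * (h * x * z) := by rw [h2]
              _ = (x * h) * x * z := by group
              _ = h * x * z * x * z := by rw [h2]
              _ = h * x * (z * x) * z := by group
              _ = h * x * (x * z) * z := by rw [← hzc x]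
              _ = h * (x * x) * (z * z) := by group
              _ = h * (x * x) := by rw [hzsq, mul_one]
          rw [sq]; exact h3.symm
      · intro h
        have := hsq x hθx
        rw [h, h1] at this
        norm_num at this
    -- the centralizer of x
    set A := Subgroup.centralizer ({x} : Set R) with hAdef
    have hmemA : ∀ g, g ∈ A ↔ g * x = x * g := by
      intro g
      rw [hAdef, Subgroup.mem_centralizer_singleton_iff]
    have hxA : x ∈ A := (hmemA x).mpr rfl
    obtain ⟨α, hα⟩ : ∃ α : ℂ, α ^ 2 = -1 := ⟨Complex.I, Complex.I_sq⟩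
    have hα0 : α ≠ 0 := by
      rintro rfl
      norm_num at hα
    obtain ⟨ψ, φ, hψφ, -⟩ := (hθ.comp A.subtype).split h1 (z := (⟨x, hxA⟩ : A))
      (fun g => Subtype.ext ((hmemA g).mp g.2)) (a := α) (b := -α)
      (by intro h; apply hα0; linear_combination h / 2) (by change θ x = _; rw [hθx]; ring)
      (by change dd θ x = _; rw [hd]; linear_combination hα)
    have hzA : z ∈ A := (hmemA z).mpr (hzc x).symm
    have hyA : y₀ ^ 2 ∈ A := by
      rw [hmemA]
      calc y₀ ^ 2 * x = y₀ * (y₀ * x) := by rw [sq]; group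
        _ = y₀ * (x * y₀ * z) := by rw [hyx]
        _ = (y₀ * x) * y₀ * z := by group
        _ = x * y₀ * z * y₀ * z := by rw [hyx]
        _ = x * y₀ * (z * y₀) * z := by group
        _ = x * y₀ * (y₀ * z) * z := by rw [← hzc y₀]
        _ = x * y₀ ^ 2 * (z * z) := by rw [sq]; group
        _ = x * y₀ ^ 2 := by rw [hzsq, mul_one]
    have hAn : ∀ g ∈ A, ∀ h, h * g * h⁻¹ ∈ A := by
      intro g hg h
      rw [hmemA] at hg ⊢
      rcases hcm h with h2 | h2
      · have h3 : h⁻¹ * x = x * h⁻¹ := by
          rw [inv_mul_eq_iff_eq_mul, ← mul_assoc, ← h2, mul_inv_cancel_right]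
        calc h * g * h⁻¹ * x = h * g * (h⁻¹ * x) := by group
          _ = h * (g * x) * h⁻¹ := by rw [h3]; group
          _ = (h * x) * g * h⁻¹ := by rw [hg]; group
          _ = x * (h * g * h⁻¹) := by rw [← h2]; group
      · have h3 : h⁻¹ * x = x * h⁻¹ * z := by
          have h4 : h * x = x * h * z := by rw [h2, mul_assoc, hzsq, mul_one]
          rw [inv_mul_eq_iff_eq_mul]
          calc x = x * (h * h⁻¹) * (z * z) := by rw [hzsq]; group
            _ = x * h * (h⁻¹ * z) * z := by group
            _ = x * h * (z * h⁻¹) * z := by rw [hzc h⁻¹]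
            _ = (x * h * z) * h⁻¹ * z := by group
            _ = (h * x) * h⁻¹ * z := by rw [h4]
            _ = h * (x * h⁻¹ * z) := by group
        calc h * g * h⁻¹ * x = h * g * (h⁻¹ * x) := by group
          _ = h * (g * x) * h⁻¹ * z := by rw [h3]; group
          _ = (h * x) * g * (h⁻¹ * z) := by rw [hg]; group
          _ = (h * x) * g * (z * h⁻¹) := by rw [hzc h⁻¹]
          _ = (h * x) * (g * z) * h⁻¹ := by group
          _ = (h * x) * (z * g) * h⁻¹ := by rw [hzc g]
          _ = (h * x * z) * g * h⁻¹ := by group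
          _ = x * (h * g * h⁻¹) := by rw [← h2]; group
    set K : Subgroup R := (ψ.ker ⊓ φ.ker).map A.subtype with hK
    have hmemK : ∀ g, g ∈ K ↔ g ∈ A ∧ θ g = 2 := by
      intro g
      constructor
      · rintro ⟨a, ⟨ha1, ha2⟩, rfl⟩
        refine ⟨a.2, ?_⟩
        have h2 := hψφ a
        rw [MonoidHom.mem_ker.mp ha1, MonoidHom.mem_ker.mp ha2] at h2
        change θ a = 2
        have h3 : θ a = (((1 : ℂˣ) : ℂ) + ((1 : ℂˣ) : ℂ)) := h2
        rw [h3]; norm_num
      · rintro ⟨hgA, hg⟩
        have h2 : θ g = _ := hψφ ⟨g, hgA⟩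
        rw [hg] at h2
        obtain ⟨h3, h4⟩ := norm_avg_eq (norm_char ψ _) (norm_char φ _) (ζ := 1) (by norm_num)
          (by rw [← h2]; norm_num)
        refine ⟨⟨g, hgA⟩, ⟨MonoidHom.mem_ker.mpr (Units.ext h3), MonoidHom.mem_ker.mpr
          (Units.ext h4)⟩, rfl⟩
    have hKn : K.Normal := by
      constructor
      intro g hg h
      rw [hmemK] at hg ⊢
      exact ⟨hAn g hg.1 h, by rw [hθ.conj, hg.2]⟩
    have hKbot : K = ⊥ := by
      by_contra hne
      obtain ⟨k, hk, hk2⟩ := hA K hKn hne
      exact hk2 ((hmemK k).mp hk).2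
    have hy2 : y₀ ^ 2 * z = 1 := by
      have : y₀ ^ 2 * z ∈ K := by
        rw [hmemK]
        refine ⟨mul_mem hyA hzA, ?_⟩
        rw [hscal z hzz hz1, hsq y₀ hθy]; norm_num
      rw [hKbot] at this
      exact Subgroup.mem_bot.mp this
    have hy2z : y₀ ^ 2 = z := by
      rw [← hzinv]; exact eq_inv_of_mul_eq_one_left hy2
    have hyk : ∀ k : ℤ, θ (y₀ * x ^ k) = 0 := by
      intro k
      apply hneg _ x
      have hc : x ^ k * x = x * x ^ k := ((Commute.refl x).zpow_left k).eq
      calc y₀ * x ^ k * x = (y₀ * x) * x ^ k := by rw [mul_assoc, hc, mul_assoc]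
        _ = x * y₀ * (z * x ^ k) := by rw [hyx]; group
        _ = x * y₀ * (x ^ k * z) := by rw [hzc (x ^ k)]
        _ = x * (y₀ * x ^ k) * z := by group
    have hx3 : θ (x ^ 3) = 0 := by
      have : x ^ 3 = x * z := by rw [pow_succ', hx2z]
      rw [this, hscal z hzz hz1, hθx, neg_zero]
    refine not_QF (x := x) (y := y₀) ?_ ?_ ?_ ?_ h1 (hsq x hθx) hθx hx3 hyk hQF
    · rw [show (4 : ℕ) = 2 * 2 by norm_num, pow_mul, hx2z, sq, hzsq]
    · rw [hx2z]; exact hz1
    · rw [hy2z, hx2z]
    · have h2 : y₀⁻¹ * x * y₀ = x * z := by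
        rw [mul_assoc, hxy]; group
      rw [h2]
      apply eq_inv_of_mul_eq_one_right
      rw [← mul_assoc, ← sq, hx2z, hzsq]

end Pool.Agent.H302R2
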