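import Mathlib
import Pool.Agent.H302R2.Kernel
import Pool.Agent.H302R2.QF

/-!
# The two-part transfer for degree two Heilbronn functions with split Sylow restriction
-/

set_option autoImplicit false

namespace Pool.Agent.H302R2

universe u

open Subgroup

lemma zpowers_isPGroup {G : Type*} [Group G] {p : ℕ} {x : G} {k : ℕ} (h : x ^ (p ^ k) = 1) :
    IsPGroup p (zpowers x) := by
  rintro ⟨_, i, rfl⟩
  refine ⟨k, Subtype.ext ?_⟩
  change (x ^ i) ^ (p ^ k) = 1
  rw [← zpow_natCast, ← zpow_mul, mul_comm, zpow_mul, zpow_natCast, h, one_zpow]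

/-- an element of a `p`-group inside `G` has order a power of `p` -/
lemma pow_of_mem {G : Type*} [Group G] {p : ℕ} {R : Subgroup G} (hR : IsPGroup p R) {x : G}
    (hx : x ∈ R) : ∃ k : ℕ, x ^ (p ^ k) = 1 := by
  obtain ⟨k, hk⟩ := hR ⟨x, hx⟩
  exact ⟨k, by have := congrArg Subtype.val hk; exact this⟩

/-- an element whose order is a power of `p` is conjugate into the Sylow subgroup `P` -/
lemma exists_conj_mem {G : Type*} [Group G] [Finite G] {p : ℕ} [Fact p.Prime] (P : Sylow p G)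
    {x : G} {k : ℕ} (h : x ^ (p ^ k) = 1) : ∃ g : G, g * x * g⁻¹ ∈ P := by
  obtain ⟨P', hP'⟩ := (zpowers_isPGroup h).exists_le_sylow
  obtain ⟨g, hg⟩ := MulAction.exists_smul_eq G P' P
  refine ⟨g, ?_⟩
  have hx : x ∈ P' := hP' (mem_zpowers x)
  rw [← hg]
  have : g * x * g⁻¹ = MulAut.conj g • x := rfl
  rw [this]
  exact smul_mem_pointwise_smul x (MulAut.conj g) (P' : Subgroup G) hx

theorem exists_two_transfer {N : Type u} [Group N] [Finite N] {θ : N → ℂ} (hθ : IsHeilbronn θ)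
    (hd : ∀ g, dd θ g = 1) (P : Sylow 2 N) (hs : Split (fun x : P => θ x)) :
    ∃ φ : N →* ℂˣ, (∀ (x : N) (k : ℕ), x ^ (2 ^ k) = 1 → (φ x = 1 ↔ θ x = 2)) ∧
      ∃ a : ℕ, ∀ g, φ g ^ (2 ^ a) = 1 := by
  obtain ⟨ψ, hψ⟩ := exists_f hd (P : Subgroup N) hs
  have hst : ∀ x ∈ P, ∀ g : N, g * x * g⁻¹ ∈ P → extFun ψ (g * x * g⁻¹) = extFun ψ x := by
    intro x hx g hg
    refine stable_of_local P (extFun ψ) ?_ hx hg
    intro Q hQ hfull g hg x hx
    have hmulQ : ∀ x ∈ Q, ∀ y ∈ Q, extFun ψ (x * y) = extFun ψ x * extFun ψ y :=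
      fun x hx y hy => extFun_mul ψ x (hQ hx) y (hQ hy)
    have hact : ∀ g ∈ normalizer (Q : Set N), (∀ x ∈ Q, extFun ψ (g * x * g⁻¹) = extFun ψ x) ∨
        (∀ x ∈ Q, extFun ψ (g * x * g⁻¹) = (extFun ψ x)⁻¹) := fun g hg =>
      pair_action hθ.conj (Q := Q) (f := extFun ψ) hmulQ (fun x hx => hψ x (hQ hx)) hg
    rcases hact g hg with h3 | h3
    · exact h3 x hx
    · obtain ⟨k, m, hm, hkm⟩ := exists_odd_part (orderOf g) (orderOf_pos g).ne'
      have ht : g ^ m ∈ normalizer (Q : Set N) := pow_mem hg m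
      have htk : (g ^ m) ^ (2 ^ k) = 1 := by
        rw [← pow_mul, mul_comm, ← hkm, pow_orderOf_eq_one]
      have htinv := alt_odd_pow hg h3 hm
      set t := g ^ m with htdef
      obtain ⟨n, hn, hnP⟩ := hfull (zpowers t) (zpowers_isPGroup htk)
        (zpowers_le.mpr ht)
      have hntP : n * t * n⁻¹ ∈ P := hnP t (mem_zpowers t)
      have hw : n⁻¹ * x * n ∈ Q := by
        have := (mem_normalizer_iff''.mp hn x).mp hx
        exact this
      have htw : t * (n⁻¹ * x * n) * t⁻¹ ∈ Q := (mem_normalizer_iff.mp ht _).mp hw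
      have e1 : (n * t * n⁻¹) * x * (n * t * n⁻¹)⁻¹ = n * (t * (n⁻¹ * x * n) * t⁻¹) * n⁻¹ := by
        group
      have e2 : n * (n⁻¹ * x * n) * n⁻¹ = x := by group
      have htriv : extFun ψ ((n * t * n⁻¹) * x * (n * t * n⁻¹)⁻¹) = extFun ψ x := by
        rw [extFun_mul ψ _ (mul_mem hntP (hQ hx)) _ (inv_mem hntP),
          extFun_mul ψ _ hntP _ (hQ hx)]
        have : extFun ψ (n * t * n⁻¹)⁻¹ = (extFun ψ (n * t * n⁻¹))⁻¹ := by
          rw [extFun_mem ψ hntP, extFun_mem ψ (inv_mem hntP), ← map_inv]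
          rfl
        rw [this, mul_comm (extFun ψ (n * t * n⁻¹)) (extFun ψ x), mul_inv_cancel_right]
      have hself : extFun ψ x = (extFun ψ x)⁻¹ := by
        rcases hact n hn with h4 | h4
        · have h5 := h4 _ hw
          rw [e2] at h5
          rw [e1, h4 _ htw, htinv _ hw, ← h5] at htriv
          exact htriv.symm
        · have h5 := h4 _ hw
          rw [e2] at h5
          rw [e1, h4 _ htw, htinv _ hw, ← h5] at htriv
          exact htriv.symm
      rw [h3 x hx]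
      exact hself.symm
  obtain ⟨φ, hφ, hφ2⟩ := exists_transfer P (extFun ψ) (extFun_mul ψ) hst
  obtain ⟨a, ha⟩ := IsPGroup.iff_card.mp P.isPGroup'
  refine ⟨φ, ?_, a, fun g => by rw [← ha]; exact hφ2 g⟩
  have hP : ∀ x ∈ P, (φ x = 1 ↔ θ x = 2) := by
    intro x hx
    constructor
    · intro h
      have h4 := hφ x hx
      rw [h] at h4
      have h3 : extFun ψ x = 1 := by
        refine eq_one_of_pow_coprime (m := (P : Subgroup N).index) (n := Nat.card P) ?_
          h4.symm (extFun_pow_card ψ hx)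
        rw [ha]
        apply Nat.Coprime.pow_right
        exact ((Nat.Prime.coprime_iff_not_dvd Nat.prime_two).mpr P.not_dvd_index).symm
      rw [hψ x hx, h3]
      norm_num
    · intro h
      rw [hψ x hx] at h
      have h3 : ‖((extFun ψ x : ℂˣ) : ℂ)‖ = 1 := by
        rw [extFun_mem ψ hx]; exact norm_char ψ _
      have h5 : ‖(((extFun ψ x)⁻¹ : ℂˣ) : ℂ)‖ = 1 := by
        rw [Units.val_inv_eq_inv_val, norm_inv, h3, inv_one]
      obtain ⟨h6, -⟩ := norm_avg_eq h3 h5 (ζ := 1) (by norm_num) (by rw [h]; norm_num)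
      rw [hφ x hx]
      have : extFun ψ x = 1 := Units.ext h6
      rw [this, one_pow]
  intro x k hxk
  obtain ⟨g, hg⟩ := exists_conj_mem P hxk
  rw [← hθ.conj x g, ← hP _ hg, map_mul, map_mul, map_inv, mul_comm (φ g) (φ x),
    mul_inv_cancel_right]

end Pool.Agent.H302R2
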