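import Mathlib
import Pool.Agent.H302R2.TransferTwo

/-!
# The kernel of a Heilbronn function on a `p`-group is a subgroup
-/

set_option autoImplicit false

namespace Pool.Agent.H302R2

universe u

open Subgroup

lemma IsHeilbronn.inv_of_eq {G : Type u} [Group G] [Finite G] {θ : G → ℂ} (hθ : IsHeilbronn θ)
    {x : G} (hx : θ x = θ 1) : θ x⁻¹ = θ 1 := by
  have h1 : x⁻¹ = x ^ (orderOf x - 1) := by
    rw [inv_eq_iff_mul_eq_one, ← pow_succ', Nat.sub_add_cancel (orderOf_pos x),
      pow_orderOf_eq_one]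
  rw [h1]
  exact hθ.pow_of_eq hx _

/-- If the average over a coset of `D` equals `θ 1` then `θ` is `θ 1` on the coset. -/
lemma IsHeilbronn.eq_of_avg {G : Type u} [Group G] [Finite G] {θ : G → ℂ} (hθ : IsHeilbronn θ)
    (D : Subgroup G) (g : G) (h : (Nat.card D : ℂ)⁻¹ * ∑ᶠ n : D, θ (g * n) = θ 1) (n : D) :
    θ (g * n) = θ 1 := by
  classical
  have : Fintype D := Fintype.ofFinite _
  have hD : (Nat.card D : ℂ) ≠ 0 := by exact_mod_cast Nat.card_pos.ne'
  rw [inv_mul_eq_iff_eq_mul₀ hD, finsum_eq_sum_of_fintype] at h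
  obtain ⟨r, hr⟩ := hθ.exists_deg
  have h2 : ∑ n : D, (θ (g * n)).re = ∑ _n : D, (θ 1).re := by
    rw [← Complex.re_sum, h, Finset.sum_const, Finset.card_univ, nsmul_eq_mul,
      Nat.card_eq_fintype_card, Complex.mul_re]
    simp
  have h3 : ∀ n : D, (θ (g * n)).re ≤ (θ 1).re := fun n =>
    (Complex.re_le_norm _).trans (hθ.norm_le _)
  have h4 := (Finset.sum_eq_sum_iff_of_le (fun n _ => h3 n)).mp h2 n (Finset.mem_univ n)
  exact hθ.eq_deg_of_re h4.ge

theorem pgroup_mul_aux {p : ℕ} [Fact p.Prime] : ∀ (N : ℕ) (P : Type u) [Group P] [Finite P],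
    Nat.card P = N → IsPGroup p P → ∀ (θ : P → ℂ) (_ : IsHeilbronn θ) (x y : P),
      θ x = θ 1 → θ y = θ 1 → θ (x * y) = θ 1 := by
  intro N
  induction N using Nat.strong_induction_on with
  | _ N ih =>
  intro P _ _ hPN hP θ hθ x y hx hy
  -- the statement for proper subgroups
  have hsub : ∀ H : Subgroup P, H ≠ ⊤ → ∀ a ∈ H, ∀ b ∈ H, θ a = θ 1 → θ b = θ 1 →
      θ (a * b) = θ 1 := by
    intro H hH a ha b hb hθa hθb
    have hlt : Nat.card H < N := by
      rw [← hPN]
      apply lt_of_le_of_ne (Subgroup.card_le_card_group _)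
      intro h
      exact hH (Subgroup.eq_top_of_card_eq _ h)
    exact ih _ hlt H rfl (hP.to_subgroup H) (fun x => θ x) (hθ.comp H.subtype) ⟨a, ha⟩ ⟨b, hb⟩
      hθa hθb
  by_cases hclo : closure ({x, y} : Set P) = ⊤
  swap
  · exact hsub _ hclo x (Subgroup.subset_closure (by simp)) y (Subgroup.subset_closure (by simp))
      hx hy
  by_cases hcomm : ∀ a b : P, a * b = b * a
  · rw [hθ.mul_of_comm (hcomm x y) hy, hx]
  have hnc : ∀ z : P, θ z = θ 1 → ∀ g ∈ normalClosure ({z} : Set P), θ g = θ 1 := by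
    intro z hz
    have hne : normalClosure ({z} : Set P) ≠ ⊤ := by
      intro htop
      by_cases hzt : zpowers z = ⊤
      · apply hcomm
        intro a b
        obtain ⟨i, rfl⟩ : a ∈ zpowers z := by rw [hzt]; trivial
        obtain ⟨j, rfl⟩ : b ∈ zpowers z := by rw [hzt]; trivial
        exact ((Commute.refl z).zpow_zpow i j).eq
      · have hnil := hP.isNilpotent
        obtain ⟨M, hM, hzM⟩ := (eq_top_or_exists_le_coatom (zpowers z)).resolve_left hzt
        have hMn : M.Normal :=
          NormalizerCondition.normal_of_coatom M Group.normalizerCondition_of_isNilpotent hM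
        have h2 : normalClosure ({z} : Set P) ≤ M :=
          normalClosure_le_normal (by
            rw [Set.singleton_subset_iff]; exact hzM (mem_zpowers z))
        rw [htop, top_le_iff] at h2
        exact hM.1 h2
    intro g hg
    have key : ∀ g (hg : g ∈ closure (Group.conjugatesOfSet ({z} : Set P))), θ g = θ 1 := by
      intro g hg
      induction hg using Subgroup.closure_induction with
      | mem w hw =>
        rw [Group.mem_conjugatesOfSet_iff] at hw
        obtain ⟨a, ha, hc⟩ := hw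
        rw [Set.mem_singleton_iff] at ha
        subst ha
        obtain ⟨c, hc⟩ := isConj_iff.mp hc
        rw [← hc, hθ.conj, hz]
      | one => rfl
      | mul a b ha hb iha ihb => exact hsub _ hne a ha b hb iha ihb
      | inv a ha iha => exact hθ.inv_of_eq iha
    exact key g hg
  have hx' := hnc x hx
  have hy' := hnc y hy
  set Nx := normalClosure ({x} : Set P) with hNx
  set Ny := normalClosure ({y} : Set P) with hNy
  have hxN : x ∈ Nx := subset_normalClosure (Set.mem_singleton x)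
  have hyN : y ∈ Ny := subset_normalClosure (Set.mem_singleton y)
  have hcyc : ∀ (M : Subgroup P) [M.Normal] (a b : P), a ∈ M → closure ({a, b} : Set P) = ⊤ →
      ∀ u v : P, (u * v) * (v * u)⁻¹ ∈ M := by
    intro M _ a b ha hab u v
    have hall : ∀ w : P, (w : P ⧸ M) ∈ zpowers (b : P ⧸ M) := by
      intro w
      have h2 : closure ({a, b} : Set P) ≤ (zpowers (b : P ⧸ M)).comap (QuotientGroup.mk' M) := by
        rw [closure_le]
        rintro w hw
        rw [Set.mem_insert_iff, Set.mem_singleton_iff] at hw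
        rcases hw with rfl | rfl
        · rw [SetLike.mem_coe, Subgroup.mem_comap]
          have : QuotientGroup.mk' M w = 1 := (QuotientGroup.eq_one_iff w).mpr ha
          rw [this]; exact one_mem _
        · rw [SetLike.mem_coe, Subgroup.mem_comap]
          exact mem_zpowers _
      rw [hab] at h2
      exact h2 (mem_top w)
    obtain ⟨i, hi⟩ := hall u
    obtain ⟨j, hj⟩ := hall v
    rw [← QuotientGroup.eq_one_iff, QuotientGroup.mk_mul, QuotientGroup.mk_inv,
      QuotientGroup.mk_mul, QuotientGroup.mk_mul, ← hi, ← hj]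
    simp only
    rw [((Commute.refl (b : P ⧸ M)).zpow_zpow i j).eq, mul_inv_cancel]
  have h1 := hcyc Nx x y hxN hclo
  have h2 := hcyc Ny y x hyN (by rw [Set.pair_comm]; exact hclo)
  have hDn : (Nx ⊓ Ny).Normal := inferInstance
  have hQ : ∀ a b : P ⧸ (Nx ⊓ Ny), a * b = b * a := by
    intro a b
    induction a using QuotientGroup.induction_on with | _ a => ?_
    induction b using QuotientGroup.induction_on with | _ b => ?_
    rw [← QuotientGroup.mk_mul, ← QuotientGroup.mk_mul, ← mul_inv_eq_one, ← QuotientGroup.mk_inv,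
      ← QuotientGroup.mk_mul, QuotientGroup.eq_one_iff]
    exact ⟨h1 a b, h2 a b⟩
  have hDc : (Nat.card (Nx ⊓ Ny : Subgroup P) : ℂ) ≠ 0 := by exact_mod_cast Nat.card_pos.ne'
  have havg : ∀ g : P, (∀ n ∈ Nx ⊓ Ny, θ (g * n) = θ 1) →
      avg (Nx ⊓ Ny) θ (g : P ⧸ (Nx ⊓ Ny)) = θ 1 := by
    intro g hg
    have : Fintype (Nx ⊓ Ny : Subgroup P) := Fintype.ofFinite _
    have h3 : ∀ n : (Nx ⊓ Ny : Subgroup P), θ (g * n) = θ 1 := fun n => hg n n.2
    rw [avg_mk, finsum_congr h3, finsum_eq_sum_of_fintype, Finset.sum_const,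
      Finset.card_univ, nsmul_eq_mul, ← Nat.card_eq_fintype_card, inv_mul_cancel_left₀ hDc]
  have ha1 := havg 1 (fun n hn => by rw [one_mul]; exact hx' n hn.1)
  have hax := havg x (fun n hn => hx' _ (mul_mem hxN hn.1))
  have hay := havg y (fun n hn => hy' _ (mul_mem hyN hn.2))
  have hfin := ((hθ.avg (Nx ⊓ Ny)).comm_facts hQ).2 (x : P ⧸ (Nx ⊓ Ny)) y (by
    rw [hay, ← QuotientGroup.mk_one, ha1])
  rw [hax, ← QuotientGroup.mk_mul, avg_mk] at hfin
  have := hθ.eq_of_avg (Nx ⊓ Ny) (x * y) hfin 1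
  rwa [OneMemClass.coe_one, mul_one] at this

/-- Two elements of a `p`-subgroup where `θ = θ 1` have a product with the same property. -/
theorem IsHeilbronn.pgroup_mul {G : Type u} [Group G] [Finite G] {θ : G → ℂ}
    (hθ : IsHeilbronn θ) {p : ℕ} [Fact p.Prime] {R : Subgroup G} (hR : IsPGroup p R) {x y : G}
    (hxR : x ∈ R) (hyR : y ∈ R) (hx : θ x = θ 1) (hy : θ y = θ 1) : θ (x * y) = θ 1 :=
  pgroup_mul_aux _ R rfl hR (fun x => θ x) (hθ.comp R.subtype) ⟨x, hxR⟩ ⟨y, hyR⟩ hx hy

end Pool.Agent.H302R2
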